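import Pool.Agent.MDSS.Ident

set_option autoImplicit false

open Complex Filter Topology
open Pool.Agent.TubeDS Pool.Agent.MDS

namespace Pool.Agent.MDSS

/-- the majorant of the weights -/
noncomputable def maj (κ C σ : ℝ) (l : ℕ+) : ℝ := |C| * ((l : ℕ) : ℝ) ^ (κ - 2 * σ)

theorem maj_nonneg (κ C σ : ℝ) (l : ℕ+) : 0 ≤ maj κ C σ l := by unfold maj; positivity

theorem summable_pnat {x : ℝ} (hx : x < -1) : Summable (fun l : ℕ+ => ((l : ℕ) : ℝ) ^ x) := by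
  have h := (Real.summable_nat_rpow (p := x)).mpr hx
  exact h.comp_injective PNat.coe_injective

theorem summable_maj {κ C σ : ℝ} (h : 1 < 2 * σ - κ) : Summable (maj κ C σ) :=
  (summable_pnat (by linarith)).mul_left _

theorem norm_weight_le {c : ℕ → ℂ} {κ C : ℝ} (hc : ∀ l : ℕ, 1 ≤ l → ‖c l‖ ≤ C * (l : ℝ) ^ κ) (w : ℂ)
    (l : ℕ+) : ‖c l‖ * ‖((l : ℕ) : ℂ) ^ (-(2 * w))‖ ≤ maj κ C w.re l := by
  have hl : (0 : ℝ) < ((l : ℕ) : ℝ) := by exact_mod_cast l.pos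
  rw [norm_natCast_cpow_of_pos l.pos]
  have h1 : (-(2 * w)).re = -(2 * w.re) := by simp
  rw [h1]
  unfold maj
  calc ‖c l‖ * ((l : ℕ) : ℝ) ^ (-(2 * w.re))
      ≤ (|C| * ((l : ℕ) : ℝ) ^ κ) * ((l : ℕ) : ℝ) ^ (-(2 * w.re)) := by
        gcongr
        exact (hc l l.pos).trans (by gcongr; exact le_abs_self C)
    _ = |C| * ((l : ℕ) : ℝ) ^ (κ - 2 * w.re) := by
        rw [mul_assoc, ← Real.rpow_add hl]; ring_nf

theorem cpow_mul_sq {d l : ℕ} (w : ℂ) :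
    ((d * l ^ 2 : ℕ) : ℂ) ^ (-w) = (d : ℂ) ^ (-w) * (l : ℂ) ^ (-(2 * w)) := by
  rw [Nat.cast_mul, natCast_mul_natCast_cpow, Nat.cast_pow, pow_two, natCast_mul_natCast_cpow]
  rcases Nat.eq_zero_or_pos l with rfl | hl
  · rcases eq_or_ne w 0 with rfl | hw
    · simp
    · have h1 : (-w) ≠ 0 := neg_ne_zero.mpr hw
      have h2 : (-(2 * w)) ≠ 0 := neg_ne_zero.mpr (mul_ne_zero two_ne_zero hw)
      rw [Nat.cast_zero, zero_cpow h1, zero_cpow h2]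
      simp
  · have hl0 : (l : ℂ) ≠ 0 := by exact_mod_cast hl.ne'
    rw [← cpow_add _ _ hl0]
    congr 2
    ring

/-- the general term of `B` -/
noncomputable def bt (c : ℕ → ℂ) (k M : ℕ) (s : Fin k → ℂ) (w : ℂ) (p : FD × ℕ+) : ℂ :=
  c p.2 * (kron (p.1 * p.2 ^ 2) M : ℂ) * ((p.1 * p.2 ^ 2 : ℕ) : ℂ) ^ (-w) * ∏ j, L (p.1 * p.2 ^ 2) (s j)

theorem B_eq (c : ℕ → ℂ) (k M : ℕ) (s : Fin k → ℂ) (w : ℂ) : B c k M s w = ∑' p, bt c k M s w p := rfl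

theorem norm_bt_le {c : ℕ → ℂ} {κ C : ℝ} (hc : ∀ l : ℕ, 1 ≤ l → ‖c l‖ ≤ C * (l : ℝ) ^ κ) {k M : ℕ}
    {s : Fin k → ℂ} (hs : ∀ j, 1 < (s j).re) (w : ℂ) (p : FD × ℕ+) :
    ‖bt c k M s w p‖ ≤ ((((p.1 : ℕ) : ℝ) ^ w.re)⁻¹ * ∏ j, zr (s j).re) * maj κ C w.re p.2 := by
  unfold bt
  rw [cpow_mul_sq]
  simp only [norm_mul]
  have hd : 0 < (p.1 : ℕ) := by have := p.1.2.2; omega
  have h1 := norm_kron_le ((p.1 : ℕ) * (p.2 : ℕ) ^ 2) M
  have h2 := norm_prod_L_le (d := (p.1 : ℕ) * (p.2 : ℕ) ^ 2) hs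
  have h3 := prod_zr_nonneg s
  have h4 := norm_weight_le hc w p.2
  have h5 := norm_cpow_neg hd w
  rw [h5]
  calc ‖c p.2‖ * ‖(kron (p.1 * p.2 ^ 2) M : ℂ)‖ * ((((p.1 : ℕ) : ℝ) ^ w.re)⁻¹ * ‖((p.2 : ℕ) : ℂ) ^ (-(2 * w))‖) *
        ‖∏ j, L (p.1 * p.2 ^ 2) (s j)‖
      = ‖(kron (p.1 * p.2 ^ 2) M : ℂ)‖ * (((p.1 : ℕ) : ℝ) ^ w.re)⁻¹ * ‖∏ j, L (p.1 * p.2 ^ 2) (s j)‖ *
        (‖c p.2‖ * ‖((p.2 : ℕ) : ℂ) ^ (-(2 * w))‖) := by ring
    _ ≤ 1 * (((p.1 : ℕ) : ℝ) ^ w.re)⁻¹ * (∏ j, zr (s j).re) * maj κ C w.re p.2 := by gcongr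
    _ = _ := by ring

theorem summable_bound {κ C σ : ℝ} (hσ : 1 < σ) (hκ : κ < 1) (P : ℝ) (hP : 0 ≤ P) :
    Summable (fun p : FD × ℕ+ => ((((p.1 : ℕ) : ℝ) ^ σ)⁻¹ * P) * maj κ C σ p.2) := by
  have h1 : Summable (fun d : FD => (((d : ℕ) : ℝ) ^ σ)⁻¹ * P) := (MDSM.summable_FD' hσ).mul_right _
  have h2 : Summable (maj κ C σ) := summable_maj (by linarith)
  exact Summable.mul_of_nonneg h1 h2 (fun d => by positivity) (fun l => maj_nonneg _ _ _ _)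

theorem summable_bt {c : ℕ → ℂ} (hc : Moderate c) {k M : ℕ} {s : Fin k → ℂ} (hs : ∀ j, 1 < (s j).re)
    {w : ℂ} (hw : 1 < w.re) : Summable (bt c k M s w) := by
  obtain ⟨κ, C, hκ, hb⟩ := hc
  exact Summable.of_norm_bounded (summable_bound hw hκ _ (prod_zr_nonneg s)) (norm_bt_le hb hs w)

/-- bound for `B`, uniform in `M` -/
theorem norm_B_le {c : ℕ → ℂ} (hc : Moderate c) {k : ℕ} {s : Fin k → ℂ} (hs : ∀ j, 1 < (s j).re)
    {w : ℂ} (hw : 1 < w.re) : ∃ K : ℝ, 0 ≤ K ∧ ∀ M : ℕ, ‖B c k M s w‖ ≤ K := by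
  obtain ⟨κ, C, hκ, hb⟩ := hc
  have hsum := summable_bound (C := C) hw hκ _ (prod_zr_nonneg s)
  refine ⟨∑' p : FD × ℕ+, ((((p.1 : ℕ) : ℝ) ^ w.re)⁻¹ * ∏ j, zr (s j).re) * maj κ C w.re p.2,
    tsum_nonneg fun p => mul_nonneg (mul_nonneg (by positivity) (prod_zr_nonneg s))
    (maj_nonneg κ C w.re p.2), fun M => ?_⟩
  have h1 : Summable (fun p => ‖bt c k M s w p‖) :=
    Summable.of_nonneg_of_le (fun _ => norm_nonneg _) (norm_bt_le hb hs w) hsum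
  rw [B_eq]
  exact (norm_tsum_le_tsum_norm h1).trans (Summable.tsum_le_tsum (norm_bt_le hb hs w) h1 hsum)

/-- Expansion of `B` with respect to the first variable. -/
theorem B_succ {c : ℕ → ℂ} (hc : Moderate c) {k M : ℕ} (hM : M ≠ 0) {s : Fin k → ℂ}
    (hs : ∀ j, 1 < (s j).re) {w u : ℂ} (hw : 1 < w.re) (hu : 1 < u.re) :
    B c (k + 1) M (Fin.cons u s) w = ∑' m : ℕ, (if m = 0 then 0 else B c k (M * m) s w * (m : ℂ) ^ (-u)) := by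
  obtain ⟨κ, C, hκ, hb⟩ := hc
  set f : FD × ℕ+ → ℕ → ℂ := fun p m =>
    bt c k M s w p * LSeries.term (fun n => (kron (p.1 * p.2 ^ 2) n : ℂ)) u m with hf
  set g : FD × ℕ+ → ℝ := fun p => ((((p.1 : ℕ) : ℝ) ^ w.re)⁻¹ * ∏ j, zr (s j).re) * maj κ C w.re p.2 with hg
  set h : ℕ → ℝ := fun m => ((m : ℝ) ^ u.re)⁻¹ with hh
  have hg0 : 0 ≤ g := fun p => mul_nonneg (mul_nonneg (by positivity) (prod_zr_nonneg s))
    (maj_nonneg κ C w.re p.2)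
  have hh0 : 0 ≤ h := fun m => by rw [hh]; positivity
  have hgs : Summable g := summable_bound hw hκ _ (prod_zr_nonneg s)
  have hhs : Summable h := summable_zr hu
  have hprod : Summable (fun p : (FD × ℕ+) × ℕ => g p.1 * h p.2) :=
    Summable.mul_of_nonneg hgs hhs hg0 hh0
  have hfle : ∀ p m, ‖f p m‖ ≤ g p * h m := by
    intro p m
    rw [hf]
    simp only
    rw [norm_mul]
    exact mul_le_mul (norm_bt_le hb hs w p) (norm_term_le m) (norm_nonneg _) (hg0 p)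
  have hsummable : Summable (Function.uncurry f) :=
    Summable.of_norm_bounded hprod fun p => hfle p.1 p.2
  have h1 : B c (k + 1) M (Fin.cons u s) w = ∑' p : FD × ℕ+, ∑' m : ℕ, f p m := by
    rw [B_eq]
    refine tsum_congr fun p => ?_
    unfold bt
    rw [Fin.prod_univ_succ]
    simp only [Fin.cons_zero, Fin.cons_succ]
    have : L (p.1 * p.2 ^ 2) u = ∑' m : ℕ, LSeries.term (fun n => (kron (p.1 * p.2 ^ 2) n : ℂ)) u m := rfl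
    rw [hf]
    simp only
    rw [tsum_mul_left, ← this]
    unfold bt
    ring
  rw [h1, ← hsummable.tsum_comm]
  refine tsum_congr fun m => ?_
  split_ifs with hm
  · subst hm
    simp [hf, LSeries.term_zero]
  · rw [B_eq, ← tsum_mul_right]
    refine tsum_congr fun p => ?_
    rw [hf]
    simp only
    unfold bt
    rw [LSeries.term_of_ne_zero hm, kron_mul _ hM hm, Complex.cpow_neg (m : ℂ) u]
    push_cast
    ring

end Pool.Agent.MDSS
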