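import Pool.Agent.MDSS.Ker

set_option autoImplicit false

open Complex Filter Topology
open Pool.Agent.TubeDS Pool.Agent.MDS Pool.Agent.MDSM

namespace Pool.Agent.MDSS

variable {k : ℕ}

theorem differentiableOn_V {W : Type*} [NormedAddCommGroup W] [NormedSpace ℂ W] {O : Set W}
    {S : W → Fin k → ℂ} (hS : ∀ j, DifferentiableOn ℂ (fun z => S z j) O)
    {f : ℕ → W → ℂ} (hf : ∀ m : ℕ, 1 ≤ m → DifferentiableOn ℂ (f m) O) (l : ℕ) {n : ℕ} (hn : 1 ≤ n) :
    DifferentiableOn ℂ (fun z => V (S z) l (fun m => f m z) n) O := by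
  unfold V
  split_ifs with h
  · apply DifferentiableOn.fun_sum
    intro e he
    have he0 : ∀ j, 0 < e j := fun j => Nat.pos_of_mem_divisors (Fintype.mem_piFinset.mp he j)
    apply DifferentiableOn.mul
    · have hprod : ∀ u : Finset (Fin k), DifferentiableOn ℂ (fun z => ∏ j ∈ u,
          ((ArithmeticFunction.moebius (e j) : ℤ) : ℂ) * ((e j : ℕ) : ℂ) ^ (-(S z j))) O := by
        intro u
        induction u using Finset.induction_on with
        | empty => simp only [Finset.prod_empty]; exact differentiableOn_const _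
        | insert a u ha ih =>
          simp_rw [Finset.prod_insert ha]
          refine DifferentiableOn.mul ?_ ih
          apply DifferentiableOn.const_mul
          have h1 : ((e a : ℕ) : ℂ) ≠ 0 := by exact_mod_cast (he0 a).ne'
          exact (hS a).neg.const_cpow (Or.inl h1)
      exact hprod Finset.univ
    · exact hf _ (Nat.mul_pos hn (Finset.prod_pos fun j _ => he0 j))
  · exact differentiableOn_const _

/-- holomorphy of the kernel -/
theorem differentiableOn_U {W : Type*} [NormedAddCommGroup W] [NormedSpace ℂ W] {O : Set W}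
    (hO : IsOpen O) {c : ℕ → ℂ} {κ C : ℝ} (hc : ∀ l : ℕ, 1 ≤ l → ‖c l‖ ≤ C * (l : ℝ) ^ κ)
    {S : W → Fin k → ℂ} {w : W → ℂ} (hS : ∀ j, DifferentiableOn ℂ (fun z => S z j) O)
    (hw : DifferentiableOn ℂ w O) {f : ℕ → W → ℂ} (hf : ∀ m : ℕ, 1 ≤ m → DifferentiableOn ℂ (f m) O)
    (hloc : ∀ z₀ ∈ O, ∃ V' ∈ 𝓝 z₀, ∃ σ₀ η B : ℝ, 1 < 2 * σ₀ - κ ∧ 0 ≤ η ∧ ∀ z ∈ V', σ₀ ≤ (w z).re ∧
      (∀ j, η ≤ (S z j).re) ∧ ∀ m : ℕ, 1 ≤ m → ‖f m z‖ ≤ B * (m : ℝ) ^ η) {n : ℕ} (hn : 1 ≤ n) :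
    DifferentiableOn ℂ (fun z => U c (S z) (w z) (fun m => f m z) n) O := by
  unfold U
  apply differentiableOn_tsum_of_local hO
  · intro l
    apply DifferentiableOn.mul
    · apply DifferentiableOn.const_mul
      have h1 : ((l : ℕ) : ℂ) ≠ 0 := by exact_mod_cast l.pos.ne'
      exact (hw.const_mul 2).neg.const_cpow (Or.inl h1)
    · exact differentiableOn_V hS hf l hn
  · intro z₀ hz₀
    obtain ⟨V', hV', σ₀, η, B, hσ, hη, hb⟩ := hloc z₀ hz₀
    obtain ⟨b, hbs, hb0, hbb⟩ := exists_majorant hc k hσ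
    refine ⟨V', hV', fun l => b l * (B * (n : ℝ) ^ η), hbs.mul_right _, ?_⟩
    intro z hz l
    obtain ⟨h1, h2, h3⟩ := hb z hz
    exact norm_term_U_le (fun l => hbb (w z) l h1) hη h2 h3 hn l

/-- regions where the series for `E` are bounded, uniformly in `M` -/
structure Reg (k : ℕ) (O : Set (Option (Fin k) → ℝ)) : Prop where
  isOpen : IsOpen O
  w : ∀ x ∈ O, 1 < x none
  s : ∀ x ∈ O, ∀ j, 0 ≤ x (some j)
  summ : ∀ z ∈ tube O, ∀ M : ℕ, Summable (fun d : FD => tm k M d z)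
  diff : ∀ M : ℕ, DifferentiableOn ℂ (E k M) (tube O)
  bd : ∀ x₀ ∈ O, ∃ U' ∈ 𝓝 x₀, ∃ (C : ℝ) (N : ℕ), 0 ≤ C ∧ ∀ (M : ℕ) (z : Option (Fin k) → ℂ),
    (fun o => (z o).re) ∈ U' → ‖E k M z‖ ≤ C * (1 + ‖fun o => (z o).im‖) ^ N

/-- the part of `R0` used here -/
def R1 (k : ℕ) : Set (Option (Fin k) → ℝ) := R0 k ∩ {x | ∀ j : Fin k, 1 / 4 < x (some j)}

theorem isOpen_R1 (k : ℕ) : IsOpen (R1 k) := by
  refine (isOpen_R0 k).inter ?_
  have : {x : Option (Fin k) → ℝ | ∀ j : Fin k, 1 / 4 < x (some j)} =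
      ⋂ j : Fin k, {x : Option (Fin k) → ℝ | 1 / 4 < x (some j)} := by ext x; simp
  rw [this]
  exact isOpen_iInter_of_finite fun j => isOpen_lt continuous_const (continuous_apply _)

theorem convex_R1 (k : ℕ) : Convex ℝ (R1 k) := by
  refine (convex_R0 k).inter ?_
  intro x hx y hy a b ha hb hab j
  have h1 := hx j
  have h2 := hy j
  simp only [Pi.add_apply, Pi.smul_apply, smul_eq_mul]
  rcases eq_or_lt_of_le ha with h | h
  · have hb1 : b = 1 := by linarith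
    rw [← h, hb1]; linarith
  · nlinarith [mul_lt_mul_of_pos_left h1 h, mul_le_mul_of_nonneg_left h2.le hb]

theorem one_lt_of_R0 {x : Option (Fin k) → ℝ} (hx : x ∈ R0 k) : 1 < x none := by
  have h1 : 1 + ∑ j : Fin k, (3 / 2 + |x (some j)|) < x none := hx
  have h2 : 0 ≤ ∑ j : Fin k, (3 / 2 + |x (some j)|) := Finset.sum_nonneg fun j _ => by positivity
  linarith

theorem reg_R1 (k : ℕ) : Reg k (R1 k) where
  isOpen := isOpen_R1 k
  w := fun x hx => one_lt_of_R0 hx.1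
  s := fun x hx j => by have := hx.2 j; linarith
  summ := fun z hz M => summable_tm hz.1
  diff := fun M => (differentiableOn_E k M).mono fun z hz => hz.1
  bd := by
    intro x₀ hx₀
    obtain ⟨U', hU', C, N, δ, hC, hδ, hb⟩ := tm_local_bound hx₀.1
    refine ⟨U', hU', ∑' d : FD, C * (((d : ℕ) : ℝ) ^ (1 + δ))⁻¹, N, tsum_nonneg fun d => by positivity, ?_⟩
    intro M z hz
    have h1 : ∀ d : FD, ‖tm k M d z‖ ≤ C * (((d : ℕ) : ℝ) ^ (1 + δ))⁻¹ * (1 + ‖fun j => (z j).im‖) ^ N :=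
      fun d => hb M d d.2.1 d.2.2 z hz
    have h2 := ((summable_FD hδ).mul_left C).mul_right ((1 + ‖fun j => (z j).im‖) ^ N)
    have h3 : Summable fun d : FD => ‖tm k M d z‖ := Summable.of_nonneg_of_le (fun _ => norm_nonneg _) h1 h2
    unfold E
    refine (norm_tsum_le_tsum_norm h3).trans ?_
    rw [← tsum_mul_right]
    exact Summable.tsum_le_tsum h1 h3 h2

theorem summable_tm_Q {z : Option (Fin k) → ℂ} (hz : (fun o => (z o).re) ∈ Q0 k) (M : ℕ) :
    Summable (fun d : FD => tm k M d z) := by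
  have hsum := (summable_FD' (hlf_gt hz none)).mul_right (∏ j : Fin k, zr (hlf (fun o => (z o).re) (some j)))
  exact Summable.of_norm_bounded hsum fun d =>
    tm_bound_Q M d.2.1 d.2.2 (hlf_gt hz) fun o => (by
      have := hz o
      show (1 + (z o).re) / 2 ≤ (z o).re
      simp only at this
      linarith)

theorem reg_Q0 (k : ℕ) : Reg k (Q0 k) where
  isOpen := isOpen_Q0 k
  w := fun x hx => hx none
  s := fun x hx j => by have := hx (some j); linarith
  summ := fun z hz M => summable_tm_Q hz M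
  diff := fun M => differentiableOn_E_Q k M
  bd := by
    intro x₀ hx₀
    have hsum := (summable_FD' (hlf_gt hx₀ none)).mul_right (∏ j : Fin k, zr (hlf x₀ (some j)))
    refine ⟨_, hlf_nhds hx₀, ∑' d : FD, (((d : ℕ) : ℝ) ^ (hlf x₀ none))⁻¹ *
          ∏ j : Fin k, zr (hlf x₀ (some j)), 0, tsum_nonneg fun d => mul_nonneg (by positivity)
            (Finset.prod_nonneg fun j _ => zr_nonneg _), ?_⟩
    intro M z hz
    have h1 : ∀ d : FD, ‖tm k M d z‖ ≤ (((d : ℕ) : ℝ) ^ (hlf x₀ none))⁻¹ *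
          ∏ j : Fin k, zr (hlf x₀ (some j)) := fun d =>
      tm_bound_Q M d.2.1 d.2.2 (hlf_gt hx₀) fun o => (hz o).le
    have h3 : Summable fun d : FD => ‖tm k M d z‖ := Summable.of_nonneg_of_le (fun _ => norm_nonneg _) h1 hsum
    rw [pow_zero, mul_one]
    unfold E
    exact (norm_tsum_le_tsum_norm h3).trans (Summable.tsum_le_tsum h1 h3 hsum)

/-- the weighted series -/
noncomputable def Ec (c : ℕ → ℂ) (k M : ℕ) (z : Option (Fin k) → ℂ) : ℂ :=
  U c (fun j => z (some j)) (z none) (fun n => E k n z) M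

/-- its product with the polar factors -/
noncomputable def Fcc (c : ℕ → ℂ) (k M : ℕ) (z : Option (Fin k) → ℂ) : ℂ := Ec c k M z * pol z

variable {O : Set (Option (Fin k) → ℝ)}

theorem Reg.w' (h : Reg k O) {z : Option (Fin k) → ℂ} (hz : z ∈ tube O) : 1 < (z none).re := h.w _ hz

theorem Reg.s' (h : Reg k O) {z : Option (Fin k) → ℂ} (hz : z ∈ tube O) (j : Fin k) :
    0 ≤ (z (some j)).re := h.s _ hz j

theorem Reg.diffE (h : Reg k O) {c : ℕ → ℂ} (hc : Moderate c) {M : ℕ} (hM : 1 ≤ M) :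
    DifferentiableOn ℂ (Ec c k M) (tube O) := by
  obtain ⟨κ, C, hκ, hb⟩ := hc
  unfold Ec
  refine differentiableOn_U (isOpen_tube h.isOpen) hb ?_ ?_ ?_ ?_ hM
  · intro j; exact (differentiable_apply (some j)).differentiableOn
  · exact (differentiable_apply none).differentiableOn
  · intro m _; exact h.diff m
  · intro z₀ hz₀
    obtain ⟨U', hU', C', N, hC', hb'⟩ := h.bd _ (show (fun o => (z₀ o).re) ∈ O from hz₀)
    have h1 : {z : Option (Fin k) → ℂ | (fun j => (z j).re) ∈ U'} ∈ 𝓝 z₀ :=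
      continuous_rePart.continuousAt.preimage_mem_nhds hU'
    have h2 : {z : Option (Fin k) → ℂ | ‖fun j => (z j).im‖ < ‖fun j => (z₀ j).im‖ + 1} ∈ 𝓝 z₀ :=
      ((continuous_imPart.norm).continuousAt.eventually_lt continuousAt_const (by simp))
    have h3 : tube O ∈ 𝓝 z₀ := (isOpen_tube h.isOpen).mem_nhds hz₀
    refine ⟨_, inter_mem h3 (inter_mem h1 h2), 1, 0, C' * (1 + (‖fun j => (z₀ j).im‖ + 1)) ^ N, by linarith,
      le_rfl, ?_⟩
    rintro z ⟨hz1, hz2, hz3⟩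
    refine ⟨(h.w' hz1).le, fun j => h.s' hz1 j, fun m _ => ?_⟩
    rw [Real.rpow_zero, mul_one]
    refine (hb' m z hz2).trans ?_
    simp only [Set.mem_ofPred_eq] at hz3
    exact mul_le_mul_of_nonneg_left (pow_le_pow_left₀ (by positivity) (by linarith) N) hC'

/-- local bound of the weighted series, uniform in `M` -/
theorem Reg.bdE (h : Reg k O) {c : ℕ → ℂ} (hc : Moderate c) {x₀ : Option (Fin k) → ℝ} (hx₀ : x₀ ∈ O) :
    ∃ U' ∈ 𝓝 x₀, ∃ (C : ℝ) (N : ℕ), 0 ≤ C ∧ ∀ (M : ℕ), 1 ≤ M → ∀ z : Option (Fin k) → ℂ,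
      (fun o => (z o).re) ∈ U' → ‖Ec c k M z‖ ≤ C * (1 + ‖fun o => (z o).im‖) ^ N := by
  obtain ⟨κ, C, hκ, hb⟩ := hc
  obtain ⟨U', hU', C', N, hC', hb'⟩ := h.bd _ hx₀
  obtain ⟨K, hK, hKb⟩ := norm_U_le hb k (σ₀ := 1) (by linarith)
  refine ⟨O ∩ U', inter_mem (h.isOpen.mem_nhds hx₀) hU', K * C', N, by positivity, ?_⟩
  rintro M hM z ⟨hz1, hz2⟩
  have hz : z ∈ tube O := hz1
  have h1 := hKb (z none) (fun j => z (some j)) 0 (C' * (1 + ‖fun o => (z o).im‖) ^ N) (fun n => E k n z) M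
    (h.w' hz).le le_rfl (fun j => h.s' hz j) (fun m _ => by
      rw [Real.rpow_zero, mul_one]; exact hb' m z hz2) hM
  rw [Real.rpow_zero, mul_one] at h1
  unfold Ec
  refine h1.trans (le_of_eq (by ring))

theorem Reg.diffF (h : Reg k O) {c : ℕ → ℂ} (hc : Moderate c) {M : ℕ} (hM : 1 ≤ M) :
    DifferentiableOn ℂ (Fcc c k M) (tube O) :=
  (h.diffE hc hM).mul differentiable_pol.differentiableOn

theorem Reg.polyE (h : Reg k O) {c : ℕ → ℂ} (hc : Moderate c) {M : ℕ} (hM : 1 ≤ M) :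
    PolyBdd O (Ec c k M) := by
  apply polyBdd_of_local
  intro x₀ hx₀
  obtain ⟨U', hU', C, N, hC, hb⟩ := h.bdE hc hx₀
  exact ⟨U', hU', C, N, hC, fun z hz => hb M hM z hz⟩

theorem Reg.polyF (h : Reg k O) {c : ℕ → ℂ} (hc : Moderate c) {M : ℕ} (hM : 1 ≤ M) :
    PolyBdd O (Fcc c k M) := polyBdd_mul (h.polyE hc hM) (polyBdd_pol _)

/-- the kernel of the inverse recovers `E` -/
theorem Reg.inv (h : Reg k O) {c c' : ℕ → ℂ} (hc : Moderate c) (hc' : Moderate c')
    (hinv : ∀ n : ℕ, 1 ≤ n → ∑ a ∈ n.divisorsAntidiagonal, c a.1 * c' a.2 = if n = 1 then 1 else 0)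
    {z : Option (Fin k) → ℂ} (hz : z ∈ tube O) {M : ℕ} (hM : 1 ≤ M) :
    U c' (fun j => z (some j)) (z none) (fun n => Ec c k n z) M = E k M z := by
  obtain ⟨κ, C, hκ, hb⟩ := hc
  obtain ⟨κ', C', hκ', hb'⟩ := hc'
  obtain ⟨U', hU', C₂, N, hC₂, hbE⟩ := h.bd _ (show (fun o => (z o).re) ∈ O from hz)
  have hw := h.w' hz
  unfold Ec
  exact U_U hb hb' hinv (by linarith) (by linarith) (η := 0) (B := C₂ * (1 + ‖fun o => (z o).im‖) ^ N) le_rfl
    (fun j => h.s' hz j) (fun m _ => by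
      rw [Real.rpow_zero, mul_one]; exact hbE m z (mem_of_mem_nhds hU')) hM

/-- In the region of absolute convergence the two definitions agree. -/
theorem B_eq_Ec {c : ℕ → ℂ} (hc : Moderate c) {M : ℕ} (hM : 1 ≤ M) {z : Option (Fin k) → ℂ}
    (hz : z ∈ tube (Q0 k)) : B c k M (toP z).1 (toP z).2 = Ec c k M z := by
  have hs : ∀ j, 1 < ((toP z).1 j).re := fun j => hz (some j)
  have hw : 1 < (toP z).2.re := hz none
  have hsum := summable_bt hc (k := k) (M := M) hs hw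
  rw [B_eq]
  have hsum' : Summable (fun p : ℕ+ × FD => bt c k M (toP z).1 (toP z).2 (p.2, p.1)) :=
    (Equiv.prodComm ℕ+ FD).summable_iff.mpr hsum
  have h1 : ∑' p, bt c k M (toP z).1 (toP z).2 p = ∑' l : ℕ+, ∑' d : FD, bt c k M (toP z).1 (toP z).2 (d, l) := by
    rw [← (Equiv.prodComm ℕ+ FD).tsum_eq (bt c k M (toP z).1 (toP z).2)]
    exact hsum'.tsum_prod
  rw [h1]
  unfold Ec U
  refine tsum_congr fun l => ?_
  have h2 : V (fun j => z (some j)) l (fun n => E k n z) M =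
      ∑' d : FD, V (fun j => z (some j)) l (fun n => tm k n d z) M := by
    unfold E
    exact V_tsum hM fun m _ => (reg_Q0 k).summ z hz m
  rw [h2, ← tsum_mul_left]
  refine tsum_congr fun d => ?_
  have h3 : V (fun j => z (some j)) l (fun n => tm k n d z) M =
      ((d : ℕ) : ℂ) ^ (-(z none)) * (∏ j, Lc d (z (some j))) *
        V (fun j => z (some j)) l (fun n => (kron d n : ℂ)) M := by
    rw [← V_mul_left]
    apply V_congr hM
    intro m _
    unfold tm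
    ring
  rw [h3, V_kron _ _ l.pos hM]
  unfold bt
  simp only
  rw [cpow_mul_sq]
  have h4 : ∀ j, L ((d : ℕ) * (l : ℕ) ^ 2) ((toP z).1 j) = Eu d l (z (some j)) * Lc d (z (some j)) := by
    intro j
    rw [L_sq_mul _ l.pos (hs j), ← (Lc_spec d.2.1 d.2.2).2.1 _ (hs j)]
    rfl
  rw [Finset.prod_congr rfl fun j _ => h4 j, Finset.prod_mul_distrib]
  simp only [toP]
  ring

theorem FB_eq_Fcc {c : ℕ → ℂ} (hc : Moderate c) {M : ℕ} (hM : 1 ≤ M) {z : Option (Fin k) → ℂ}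
    (hz : z ∈ tube (Q0 k)) : FB c k M (toP z) = Fcc c k M z := by
  unfold FB Fcc pol
  rw [B_eq_Ec hc hM hz]

end Pool.Agent.MDSS
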