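import Pool.Agent.MDS.ReachDefs

/-!
# The multiple Dirichlet series over all positive discriminants, with weights
-/

set_option autoImplicit false

open Pool.Agent.MDS

namespace Pool.Agent.MDSS

/-- The series `∑ c(l) (D / M) D ^ (-w) ∏_j L(s_j, (D / ·))` over all pairs of a fundamental
discriminant `d > 1` and a positive integer `l`, with `D = d l ^ 2`; here `(D / ·)` is the (in
general imprimitive) Kronecker symbol. The products `D = d l ^ 2` are exactly the positive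
discriminants which are not squares, each for one pair. -/
noncomputable def B (c : ℕ → ℂ) (k M : ℕ) (s : Fin k → ℂ) (w : ℂ) : ℂ :=
  ∑' p : {d : ℕ // IsFundDisc d ∧ 1 < d} × ℕ+, c p.2 * (kron (p.1 * p.2 ^ 2) M : ℂ) *
    ((p.1 * p.2 ^ 2 : ℕ) : ℂ) ^ (-w) * ∏ j, L (p.1 * p.2 ^ 2) (s j)

/-- its product with the `2 ^ k` polar factors of Q1 -/
noncomputable def FB (c : ℕ → ℂ) (k M : ℕ) (z : (Fin k → ℂ) × ℂ) : ℂ :=
  B c k M z.1 z.2 * ∏ J : Finset (Fin k), (sig J z - 1)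

/-- `G` is a holomorphic function on the tube domain `{z : Re z ∈ Ω}` which agrees with `FB` where
all of `Re s_j` and `Re w` exceed `1`. -/
def IsExtensionB (c : ℕ → ℂ) (k M : ℕ) (Ω : Set ((Fin k → ℝ) × ℝ)) (G : (Fin k → ℂ) × ℂ → ℂ) :
    Prop :=
  DifferentiableOn ℂ G {z | reP z ∈ Ω} ∧
    ∀ z : (Fin k → ℂ) × ℂ, (∀ j, 1 < (z.1 j).re) → 1 < z.2.re → G z = FB c k M z

/-- The assertion of Q1 for the family of all positive discriminants with weights `c`. -/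
def ContinuesB (c : ℕ → ℂ) (k M : ℕ) : Prop :=
  ∃ Ω : Set ((Fin k → ℝ) × ℝ), IsBase k Ω ∧ ∃ G : (Fin k → ℂ) × ℂ → ℂ, IsExtensionB c k M Ω G ∧
    ∀ K ⊆ Ω, IsCompact K → ∃ (C : ℝ) (N : ℕ), ∀ z, reP z ∈ K → ‖G z‖ ≤ C * (1 + ‖imP z‖) ^ N

/-- The form which is uniform in `M`: for all `M ≥ 1` the functions extend to one and the same
tube domain containing `(1/2, ..., 1/2, 1)`, with bounds polynomial in `M` and in the imaginary
parts over every compact set of real parts. -/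
def UniformB (c : ℕ → ℂ) (k : ℕ) : Prop :=
  ∃ Ω : Set ((Fin k → ℝ) × ℝ), IsBase k Ω ∧ ∃ G : ℕ → (Fin k → ℂ) × ℂ → ℂ,
    (∀ M, 1 ≤ M → IsExtensionB c k M Ω (G M)) ∧
    ∀ K ⊆ Ω, IsCompact K → ∃ (C : ℝ) (N : ℕ), ∀ M : ℕ, 1 ≤ M → ∀ z, reP z ∈ K →
      ‖G M z‖ ≤ C * (M : ℝ) ^ N * (1 + ‖imP z‖) ^ N

/-- `c(l) = O(l ^ κ)` for some `κ < 1`. -/
def Moderate (c : ℕ → ℂ) : Prop :=
  ∃ (κ C : ℝ), κ < 1 ∧ ∀ l : ℕ, 1 ≤ l → ‖c l‖ ≤ C * (l : ℝ) ^ κ

/-- `c` is invertible with respect to Dirichlet convolution, and `c` and its inverse are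
`O(l ^ κ)` for some `κ < 1`. -/
def Admissible (c : ℕ → ℂ) : Prop :=
  Moderate c ∧ ∃ c' : ℕ → ℂ, Moderate c' ∧
    ∀ n : ℕ, 1 ≤ n → ∑ a ∈ n.divisorsAntidiagonal, c a.1 * c' a.2 = if n = 1 then 1 else 0

end Pool.Agent.MDSS
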