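import Pool.Agent.MDSS.Base

set_option autoImplicit false

open Complex Filter Topology
open Pool.Agent.TubeDS Pool.Agent.MDS

namespace Pool.Agent.MDSS

/-- the weight which keeps the fundamental discriminants only -/
noncomputable def dl : ℕ → ℂ := fun l => if l = 1 then 1 else 0

theorem moderate_delta : Moderate dl := by
  refine ⟨0, 1, by norm_num, fun l hl => ?_⟩
  rw [Real.rpow_zero]
  unfold dl
  split_ifs <;> simp

theorem admissible_delta : Admissible dl := by
  refine ⟨moderate_delta, dl, moderate_delta, fun n hn => ?_⟩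
  rw [Nat.sum_divisorsAntidiagonal (f := fun a b => dl a * dl b)]
  rw [Finset.sum_eq_single 1]
  · unfold dl
    simp
  · intro b _ hb
    unfold dl
    rw [if_neg hb, zero_mul]
  · intro h
    exact absurd (Nat.one_mem_divisors.mpr (by omega)) h

theorem moderate_one : Moderate (fun _ => 1) := by
  refine ⟨0, 1, by norm_num, fun l hl => ?_⟩
  rw [Real.rpow_zero]
  simp

theorem admissible_one : Admissible (fun _ => 1) := by
  refine ⟨moderate_one, fun n => ((ArithmeticFunction.moebius n : ℤ) : ℂ), ?_, ?_⟩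
  · refine ⟨0, 1, by norm_num, fun l hl => ?_⟩
    rw [Real.rpow_zero, mul_one]
    have h1 : |ArithmeticFunction.moebius l| ≤ 1 := ArithmeticFunction.abs_moebius_le_one
    rw [Complex.norm_intCast]
    exact_mod_cast h1
  · intro n hn
    have h1 := congrArg (fun f : ArithmeticFunction ℤ => f n)
      ArithmeticFunction.coe_zeta_mul_moebius
    simp only [ArithmeticFunction.mul_apply, ArithmeticFunction.one_apply] at h1
    have h2 : ∑ a ∈ n.divisorsAntidiagonal, ArithmeticFunction.moebius a.2 =
        if n = 1 then (1 : ℤ) else 0 := by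
      rw [← h1]
      refine Finset.sum_congr rfl fun a ha => ?_
      have h3 : a.1 ≠ 0 := by
        have h4 := Nat.mem_divisorsAntidiagonal.mp ha
        intro h0
        rw [h0, zero_mul] at h4
        omega
      rw [ArithmeticFunction.natCoe_apply, ArithmeticFunction.zeta_apply_ne h3]
      simp
    simp only [one_mul]
    rw [← Int.cast_sum, h2]
    split_ifs <;> simp

theorem Ec_delta (k M : ℕ) (z : Option (Fin k) → ℂ) : Ec dl k M z = E k M z := by
  unfold Ec U
  rw [tsum_eq_single 1]
  · unfold dl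
    simp [V_one]
  · intro l hl
    unfold dl
    rw [if_neg (by simpa using hl)]
    simp

theorem Fcc_delta (k M : ℕ) (z : Option (Fin k) → ℂ) : Fcc dl k M z = Fc k M z := by
  unfold Fcc Fc
  rw [Ec_delta]

theorem FB_delta {k M : ℕ} (hM : 1 ≤ M) {z : (Fin k → ℂ) × ℂ} (hz1 : ∀ j, 1 < (z.1 j).re)
    (hz2 : 1 < z.2.re) : FB dl k M z = F k M z := by
  have h1 : ∀ o, 1 < (ofP z o).re := by
    intro o
    cases o with
    | none => exact hz2
    | some j => exact hz1 j
  have h2 := FB_eq_Fcc moderate_delta hM (z := ofP z) h1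
  have h3 := F_eq_Fc (M := M) h1
  rw [toP_ofP] at h2 h3
  rw [h2, h3, Fcc_delta]

theorem continuesB_delta {k M : ℕ} (hM : 1 ≤ M) : ContinuesB dl k M ↔ Continues k M := by
  have h : ∀ (Ω : Set ((Fin k → ℝ) × ℝ)) (G : (Fin k → ℂ) × ℂ → ℂ),
      IsExtensionB dl k M Ω G ↔ IsExtension k M Ω G := by
    intro Ω G
    constructor
    · rintro ⟨h1, h2⟩
      exact ⟨h1, fun z hz1 hz2 => by rw [h2 z hz1 hz2, FB_delta hM hz1 hz2]⟩
    · rintro ⟨h1, h2⟩
      exact ⟨h1, fun z hz1 hz2 => by rw [h2 z hz1 hz2, FB_delta hM hz1 hz2]⟩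
  unfold ContinuesB Continues
  simp only [h]

end Pool.Agent.MDSS
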