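import Pool.Agent.MDSS.Delta

set_option autoImplicit false

open Complex Filter Topology
open Pool.Agent.TubeDS Pool.Agent.MDS

namespace Pool.Agent.MDSS

theorem uniformB_delta {k : ℕ} : UniformB dl k ↔ ContinuesUniformly k := by
  constructor
  · rintro ⟨Ω, hΩ, G, hG, hb⟩
    refine ⟨Ω, hΩ, G, fun M hM => ⟨(hG M hM).1, fun z hz1 hz2 => ?_⟩, hb⟩
    rw [(hG M hM).2 z hz1 hz2, FB_delta hM hz1 hz2]
  · rintro ⟨Ω, hΩ, G, hG, hb⟩
    refine ⟨Ω, hΩ, G, fun M hM => ⟨(hG M hM).1, fun z hz1 hz2 => ?_⟩, hb⟩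
    rw [(hG M hM).2 z hz1 hz2, FB_delta hM hz1 hz2]

end Pool.Agent.MDSS
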