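import Pool.Agent.MDSS.Flat

set_option autoImplicit false

open Complex Filter Topology
open Pool.Agent.TubeDS Pool.Agent.MDS Pool.Agent.MDSM Pool.Agent.MDSLin

namespace Pool.Agent.MDSS

variable {k : ℕ}

/-- the flat segment to the left of the centre -/
theorem exists_left {Ω : Set ((Fin k → ℝ) × ℝ)} (hΩ : IsBase k Ω) (hconv : Convex ℝ Ω) :
    ∃ δ > 0, δ ≤ 1 ∧ ∀ u : ℝ, 1 - δ ≤ u → ((half k, u) : (Fin k → ℝ) × ℝ) ∈ Ω := by
  obtain ⟨r, hr, hball⟩ := Metric.isOpen_iff.mp hΩ.1 _ hΩ.2.2.2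
  refine ⟨min (r / 2) 1, lt_min (by positivity) one_pos, min_le_right _ _, fun u hu => ?_⟩
  rcases le_or_gt 1 u with h | h
  · exact ray_mem hΩ hconv h
  · apply hball
    rw [Metric.mem_ball, Prod.dist_eq]
    apply max_lt
    · show dist (half k) (half k) < r
      rw [dist_self]; exact hr
    · have h1 : min (r / 2) 1 ≤ r / 2 := min_le_left _ _
      simp only
      rw [Real.dist_eq, abs_sub_comm, abs_of_pos (by linarith)]
      linarith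

/-- growth `n ^ η` of a family of extensions near the line of absolute convergence -/
theorem G_flat_bound (hk : 1 ≤ k) {c : ℕ → ℂ} (hc : Moderate c) {Ω : Set ((Fin k → ℝ) × ℝ)}
    (hΩ : IsBase k Ω) (hconv : Convex ℝ Ω) {G : ℕ → (Fin k → ℂ) × ℂ → ℂ}
    (hG : ∀ n, 1 ≤ n → IsExtensionB c k n Ω (G n))
    (hGb : ∀ K ⊆ Ω, IsCompact K → ∃ (C : ℝ) (N : ℕ), ∀ n : ℕ, 1 ≤ n → ∀ z, reP z ∈ K →
        ‖G n z‖ ≤ C * (n : ℝ) ^ N * (1 + ‖imP z‖) ^ N) {η : ℝ} (hη : 0 < η) (b : ℝ) :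
    ∃ ε > 0, ε ≤ 1 ∧ (∀ u : ℝ, 1 - ε ≤ u → ((half k, u) : (Fin k → ℝ) × ℝ) ∈ Ω) ∧
      ∀ θ : ℝ, 1 ≤ θ → θ + 1 ≤ b → MomentBound k θ → ∃ (C : ℝ) (N : ℕ), 0 ≤ C ∧
        ∀ n : ℕ, 1 ≤ n → ∀ (t : Fin k → ℝ) (w : ℂ), θ - ε ≤ w.re → w.re ≤ b →
          ‖G n (toP (fp t w))‖ ≤ C * (1 + ‖t‖) ^ N * (1 + |w.im|) ^ N * (n : ℝ) ^ η := by
  obtain ⟨δ, hδ0, hδ1, hmem⟩ := exists_left hΩ hconv
  have hcont : Continuous (fun u : ℝ => ((half k, u) : (Fin k → ℝ) × ℝ)) := by fun_prop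
  obtain ⟨C₀, N₀, hb₀⟩ := hGb ((fun u : ℝ => ((half k, u) : (Fin k → ℝ) × ℝ)) '' Set.Icc (1 - δ) b)
    (by rintro _ ⟨u, hu, rfl⟩; exact hmem u hu.1) (isCompact_Icc.image hcont)
  have hN₀ : (0 : ℝ) < 2 * N₀ + 1 := by positivity
  set ε : ℝ := min (η * δ / (2 * N₀ + 1)) δ with hε
  have hε0 : 0 < ε := lt_min (by positivity) hδ0
  have hεδ : ε ≤ δ := min_le_right _ _
  have hεη : ε * (2 * N₀ + 1) ≤ η * δ := by
    have : ε ≤ η * δ / (2 * N₀ + 1) := min_le_left _ _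
    rwa [le_div_iff₀ hN₀] at this
  refine ⟨ε, hε0, hεδ.trans hδ1, fun u hu => hmem u (by linarith), ?_⟩
  intro θ hθ hθb hMB
  obtain ⟨C₁, N₁, hC₁, hb₁⟩ := flat_Ec_bound hk hθ hMB hc hε0
  obtain ⟨C₂, N₂, hC₂, hb₂⟩ := norm_pol_fp k b
  set N : ℕ := N₀ + N₁ + N₂ with hN
  obtain ⟨C', hC'0, hC'⟩ := three_lines (1 - δ) (θ + ε) (by linarith) N
  set K : ℝ := |C₀| + C₁ * C₂ + 1 with hK
  have hK0 : 0 < K := by positivity
  refine ⟨(C' + 1) * K, N, by positivity, ?_⟩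
  intro n hn t w hw1 hw2
  have hn1 : (1 : ℝ) ≤ n := by exact_mod_cast hn
  have hn0 : (0 : ℝ) < n := by linarith
  have ht1 : (1 : ℝ) ≤ 1 + ‖t‖ := by linarith [norm_nonneg t]
  -- the two bounds
  have hline : ∀ w : ℂ, θ + ε ≤ w.re → w.re ≤ b →
      ‖G n (toP (fp t w))‖ ≤ K * (1 + ‖t‖) ^ N * (1 + |w.im|) ^ N := by
    intro w h1 h2
    have hw' : (1 : ℝ) ≤ 1 + |w.im| := by linarith [abs_nonneg w.im]
    rw [ext_eq_flat hk hθ hMB hc hn hΩ hconv (hG n hn) t (by linarith : θ < w.re)]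
    unfold Fcc
    rw [norm_mul]
    have h3 := hb₁ n hn t w h1
    have h4 := hb₂ t w (by rw [abs_of_pos (by linarith)]; exact h2)
    calc ‖Ec c k n (fp t w)‖ * ‖pol (fp t w)‖
        ≤ (C₁ * (1 + ‖t‖) ^ N₁) * (C₂ * (1 + ‖t‖) ^ N₂ * (1 + |w.im|) ^ N₂) := by gcongr
      _ = (C₁ * C₂) * (1 + ‖t‖) ^ (N₁ + N₂) * (1 + |w.im|) ^ N₂ := by rw [pow_add]; ring
      _ ≤ K * (1 + ‖t‖) ^ N * (1 + |w.im|) ^ N := by
          have e1 : C₁ * C₂ ≤ K := by rw [hK]; linarith [abs_nonneg C₀]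
          have e2 : (1 + ‖t‖) ^ (N₁ + N₂) ≤ (1 + ‖t‖) ^ N := pow_le_pow_right₀ ht1 (by omega)
          have e3 : (1 + |w.im|) ^ N₂ ≤ (1 + |w.im|) ^ N := pow_le_pow_right₀ hw' (by omega)
          gcongr
  have hstrip : ∀ w : ℂ, 1 - δ ≤ w.re → w.re ≤ θ + ε →
      ‖G n (toP (fp t w))‖ ≤ (K * (1 + ‖t‖) ^ N * (n : ℝ) ^ N₀) * (1 + |w.im|) ^ N := by
    intro w h1 h2
    have hw' : (1 : ℝ) ≤ 1 + |w.im| := by linarith [abs_nonneg w.im]
    have h3 := hb₀ n hn (toP (fp t w)) (by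
      rw [reP_toP, re_fp]
      exact ⟨w.re, ⟨h1, by linarith [hεδ]⟩, rfl⟩)
    have h4 : ‖imP (toP (fp t w))‖ ≤ |w.im| + ‖t‖ := by
      rw [imP_toP]
      exact (norm_toP_le _).trans (norm_im_fp t w)
    have h5 : 1 + ‖imP (toP (fp t w))‖ ≤ (1 + ‖t‖) * (1 + |w.im|) := by
      nlinarith [norm_nonneg t, abs_nonneg w.im, mul_nonneg (norm_nonneg t) (abs_nonneg w.im)]
    calc ‖G n (toP (fp t w))‖ ≤ C₀ * (n : ℝ) ^ N₀ * (1 + ‖imP (toP (fp t w))‖) ^ N₀ := h3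
      _ ≤ |C₀| * (n : ℝ) ^ N₀ * ((1 + ‖t‖) * (1 + |w.im|)) ^ N₀ := by
          have := le_abs_self C₀
          gcongr
      _ = |C₀| * (1 + ‖t‖) ^ N₀ * (n : ℝ) ^ N₀ * (1 + |w.im|) ^ N₀ := by rw [mul_pow]; ring
      _ ≤ (K * (1 + ‖t‖) ^ N * (n : ℝ) ^ N₀) * (1 + |w.im|) ^ N := by
          have e1 : |C₀| ≤ K := by rw [hK]; nlinarith [mul_nonneg hC₁ hC₂]
          have e2 : (1 + ‖t‖) ^ N₀ ≤ (1 + ‖t‖) ^ N := pow_le_pow_right₀ ht1 (by omega)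
          have e3 : (1 + |w.im|) ^ N₀ ≤ (1 + |w.im|) ^ N := pow_le_pow_right₀ hw' (by omega)
          gcongr
  have hnη : (1 : ℝ) ≤ (n : ℝ) ^ η := Real.one_le_rpow hn1 hη.le
  rcases le_or_gt (θ + ε) w.re with hcase | hcase
  · refine (hline w hcase hw2).trans ?_
    calc K * (1 + ‖t‖) ^ N * (1 + |w.im|) ^ N = 1 * K * (1 + ‖t‖) ^ N * (1 + |w.im|) ^ N * 1 := by ring
      _ ≤ (C' + 1) * K * (1 + ‖t‖) ^ N * (1 + |w.im|) ^ N * (n : ℝ) ^ η := by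
          gcongr
          linarith
  · set A0 : ℝ := K * (1 + ‖t‖) ^ N with hA0
    have hA0' : 0 < A0 := by positivity
    set A : ℝ := A0 * (n : ℝ) ^ N₀ with hA
    have hA' : 0 < A := by positivity
    have hU : IsOpen {w : ℂ | toP (fun o => (fp t w o).re) ∈ Ω} := by
      have : Continuous (fun w : ℂ => toP (fun o => (fp t w o).re)) :=
        continuous_toP.comp (continuous_rePart.comp (differentiable_fp t).continuous)
      exact hΩ.1.preimage this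
    have hd : DifferentiableOn ℂ (fun w => G n (toP (fp t w))) {w : ℂ | toP (fun o => (fp t w o).re) ∈ Ω} := by
      refine (hG n hn).1.comp (differentiable_toP.comp (differentiable_fp t)).differentiableOn ?_
      intro w hw
      show reP (toP (fp t w)) ∈ Ω
      rw [reP_toP]; exact hw
    have h1 := hC' (fun w => G n (toP (fp t w))) _ A A0 hU (by
      intro w hw
      show toP (fun o => (fp t w o).re) ∈ Ω
      rw [re_fp]
      exact hmem w.re hw.1) hd hA0' hA' (fun w h1 h2 => hstrip w h1 h2)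
      (fun w h1 => hline w h1.ge (by rw [h1]; linarith [hεδ.trans hδ1])) w (by linarith) hcase.le
    set τ : ℝ := (θ + ε - w.re) / (θ + ε - (1 - δ)) with hτ
    have hden : 0 < θ + ε - (1 - δ) := by linarith
    have hτ0 : 0 ≤ τ := div_nonneg (by linarith) hden.le
    have hτη : N₀ * τ ≤ η := by
      have h2 : τ ≤ 2 * ε / δ := by
        rw [hτ, div_le_div_iff₀ hden hδ0]
        have : (θ + ε - w.re) ≤ 2 * ε := by linarith
        calc (θ + ε - w.re) * δ ≤ 2 * ε * δ := by gcongr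
          _ ≤ 2 * ε * (θ + ε - (1 - δ)) := by gcongr; linarith
      have h3 : (N₀ : ℝ) * (2 * ε / δ) ≤ η := by
        rw [mul_div_assoc', div_le_iff₀ hδ0]
        nlinarith
      exact (mul_le_mul_of_nonneg_left h2 (by positivity)).trans h3
    have h4 : A0 ^ (1 - τ) * A ^ τ = A0 * (n : ℝ) ^ (N₀ * τ) := by
      rw [hA, Real.mul_rpow hA0'.le (by positivity), ← mul_assoc, ← Real.rpow_add hA0', sub_add_cancel,
        Real.rpow_one, ← Real.rpow_natCast, ← Real.rpow_mul hn0.le]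
    have h5 : (n : ℝ) ^ (N₀ * τ) ≤ (n : ℝ) ^ η := Real.rpow_le_rpow_of_exponent_le hn1 hτη
    refine h1.trans ?_
    calc C' * A0 ^ (1 - τ) * A ^ τ * (1 + |w.im|) ^ N
        = C' * (A0 ^ (1 - τ) * A ^ τ) * (1 + |w.im|) ^ N := by ring
      _ = C' * A0 * (1 + |w.im|) ^ N * (n : ℝ) ^ (N₀ * τ) := by rw [h4]; ring
      _ ≤ (C' + 1) * A0 * (1 + |w.im|) ^ N * (n : ℝ) ^ η := by
          gcongr
          linarith
      _ = _ := by rw [hA0]; ring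

theorem U_mul_left (c : ℕ → ℂ) (s : Fin k → ℂ) (w α : ℂ) (f : ℕ → ℂ) (n : ℕ) :
    U c s w (fun m => α * f m) n = α * U c s w f n := by
  unfold U
  rw [← tsum_mul_left]
  refine tsum_congr fun l => ?_
  rw [V_mul_left]
  ring

theorem U_congr {c : ℕ → ℂ} {s : Fin k → ℂ} {w : ℂ} {f g : ℕ → ℂ} {n : ℕ} (hn : 1 ≤ n)
    (h : ∀ m, 1 ≤ m → f m = g m) : U c s w f n = U c s w g n := by
  unfold U
  refine tsum_congr fun l => ?_
  rw [V_congr hn h]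

/-- the sieved family at the flat points: a continuation, with growth `n ^ η` -/
structure FlatFam (k : ℕ) (f : ℕ → (Option (Fin k) → ℂ) → ℂ) (θ ε b η : ℝ) (Φ : ℕ → (Fin k → ℝ) → ℂ → ℂ) : Prop where
  diff : ∀ n : ℕ, 1 ≤ n → ∀ t : Fin k → ℝ, DifferentiableOn ℂ (Φ n t) {w : ℂ | θ - ε < w.re ∧ w.re < b}
  bd : ∃ (C : ℝ) (N : ℕ), 0 ≤ C ∧ ∀ n : ℕ, 1 ≤ n → ∀ (t : Fin k → ℝ) (w : ℂ), θ - ε < w.re → w.re < b →
    ‖Φ n t w‖ ≤ C * (1 + ‖t‖) ^ N * (1 + |w.im|) ^ N * (n : ℝ) ^ η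
  eq : ∀ n : ℕ, 1 ≤ n → ∀ (t : Fin k → ℝ) (w : ℂ), θ < w.re → w.re < b → Φ n t w = f n (fp t w)

/-- applying a kernel to a family -/
theorem FlatFam.kernel {f : ℕ → (Option (Fin k) → ℂ) → ℂ} {θ ε b η : ℝ} {Φ : ℕ → (Fin k → ℝ) → ℂ → ℂ}
    (h : FlatFam k f θ ε b η Φ) {c : ℕ → ℂ} {κ C₀ : ℝ} (hc : ∀ l : ℕ, 1 ≤ l → ‖c l‖ ≤ C₀ * (l : ℝ) ^ κ)
    (hη : 0 ≤ η) (hη1 : η ≤ 1 / 2) (hκ : 1 < 2 * (θ - ε) - κ) {g : ℕ → (Option (Fin k) → ℂ) → ℂ}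
    (hg : ∀ n : ℕ, 1 ≤ n → ∀ (t : Fin k → ℝ) (w : ℂ), θ < w.re → w.re < b →
      U c (fun j => fp t w (some j)) w (fun m => f m (fp t w)) n = g n (fp t w)) :
    FlatFam k g θ ε b η (fun n t w => U c (fun j => fp t w (some j)) w (fun m => Φ m t w) n) := by
  obtain ⟨C, N, hC, hb⟩ := h.bd
  refine ⟨?_, ?_, ?_⟩
  · intro n hn t
    have hO : IsOpen {w : ℂ | θ - ε < w.re ∧ w.re < b} :=
      (isOpen_lt continuous_const continuous_re).inter (isOpen_lt continuous_re continuous_const)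
    refine differentiableOn_U hO hc (S := fun w j => fp t w (some j)) (w := fun w => w)
      (f := fun m w => Φ m t w) (fun j => differentiableOn_const _) differentiableOn_id
      (fun m hm => h.diff m hm t) ?_ hn
    intro w₀ hw₀
    have h1 : {w : ℂ | |w.im| < |w₀.im| + 1} ∈ 𝓝 w₀ :=
      (continuous_im.abs.continuousAt.eventually_lt continuousAt_const (by simp))
    refine ⟨_, inter_mem (hO.mem_nhds hw₀) h1, θ - ε, η, C * (1 + ‖t‖) ^ N * (1 + (|w₀.im| + 1)) ^ N, hκ, hη, ?_⟩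
    rintro w ⟨⟨hw1, hw2⟩, hw3⟩
    have hw3' : |w.im| < |w₀.im| + 1 := hw3
    refine ⟨hw1.le, fun j => by rw [fp_some_re]; exact hη1, fun m hm => (hb m hm t w hw1 hw2).trans ?_⟩
    gcongr
  · obtain ⟨K, hK, hKb⟩ := norm_U_le hc k hκ
    refine ⟨K * C, N, by positivity, fun n hn t w hw1 hw2 => ?_⟩
    refine (hKb w (fun j => fp t w (some j)) η (C * (1 + ‖t‖) ^ N * (1 + |w.im|) ^ N) _ n hw1.le hη
      (fun j => by rw [fp_some_re]; exact hη1) (fun m hm => hb m hm t w hw1 hw2) hn).trans ?_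
    exact le_of_eq (by ring)
  · intro n hn t w hw1 hw2
    rw [← hg n hn t w hw1 hw2]
    exact U_congr hn fun m hm => h.eq m hm t w hw1 hw2

/-- the uniform form with a convex base -/
def UniformC (c : ℕ → ℂ) (k : ℕ) : Prop :=
  ∃ Ω : Set ((Fin k → ℝ) × ℝ), IsBase k Ω ∧ Convex ℝ Ω ∧ ∃ G : ℕ → (Fin k → ℂ) × ℂ → ℂ,
    (∀ M, 1 ≤ M → IsExtensionB c k M Ω (G M)) ∧
    ∀ K ⊆ Ω, IsCompact K → ∃ (C : ℝ) (N : ℕ), ∀ M : ℕ, 1 ≤ M → ∀ z, reP z ∈ K →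
      ‖G M z‖ ≤ C * (M : ℝ) ^ N * (1 + ‖imP z‖) ^ N

theorem UniformC.uniformB {c : ℕ → ℂ} (h : UniformC c k) : UniformB c k := by
  obtain ⟨Ω, hΩ, _, hG⟩ := h
  exact ⟨Ω, hΩ, hG⟩

theorem uniformC_of_succ {c : ℕ → ℂ} (hc : Moderate c) (h : ContinuesB c (k + 1) 1) : UniformC c k := by
  obtain ⟨Ω, hΩ, hconv, G, hG, hGb⟩ := descentB hc le_rfl h
  exact ⟨Ω, hΩ, hconv, G, fun n hn => by have := hG n hn; rwa [one_mul] at this, hGb⟩

theorem UniformB.continuesB {c : ℕ → ℂ} (h : UniformB c k) {M : ℕ} (hM : 1 ≤ M) : ContinuesB c k M := by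
  obtain ⟨Ω, hΩ, G, hG, hb⟩ := h
  refine ⟨Ω, hΩ, G M, hG M hM, fun K hK hKc => ?_⟩
  obtain ⟨C, N, hC⟩ := hb K hK hKc
  exact ⟨C * (M : ℝ) ^ N, N, fun z hz => hC M hM z hz⟩

/-- the family of the extensions in `k` variables, without the weights -/
theorem flat_family (hk : 1 ≤ k) {c c' : ℕ → ℂ} (hc : Moderate c) (hc' : Moderate c')
    (hinv : ∀ n : ℕ, 1 ≤ n → ∑ a ∈ n.divisorsAntidiagonal, c a.1 * c' a.2 = if n = 1 then 1 else 0)
    (h : UniformC c k) (b : ℝ) : ∃ ε > 0, ∀ θ : ℝ, 1 ≤ θ → θ + 1 ≤ b → MomentBound k θ →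
      ∃ Φ : ℕ → (Fin k → ℝ) → ℂ → ℂ, FlatFam k (Fc k) θ ε b (1 / 2) Φ := by
  obtain ⟨Ω, hΩ, hconv, G, hG', hGb⟩ := h
  obtain ⟨ε₀, hε₀, hε₀1, hmem, hbd⟩ := G_flat_bound hk hc hΩ hconv hG' hGb (η := 1 / 2) (by norm_num) b
  obtain ⟨κ', C₀', hκ', hb'⟩ := hc'
  set ε : ℝ := min ε₀ ((1 - κ') / 4) with hε
  have hε0 : 0 < ε := lt_min hε₀ (by linarith)
  have hε1 : ε ≤ ε₀ := min_le_left _ _
  have hε2 : ε ≤ (1 - κ') / 4 := min_le_right _ _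
  refine ⟨ε, hε0, fun θ hθ hθb hMB => ?_⟩
  obtain ⟨C, N, hC, hb⟩ := hbd θ hθ hθb hMB
  have hfam : FlatFam k (Fcc c k) θ ε b (1 / 2) (fun n t w => G n (toP (fp t w))) := by
    refine ⟨?_, ⟨C, N, hC, fun n hn t w h1 h2 => hb n hn t w (by linarith) h2.le⟩, ?_⟩
    · intro n hn t
      refine (hG' n hn).1.comp (differentiable_toP.comp (differentiable_fp t)).differentiableOn ?_
      intro w hw
      show reP (toP (fp t w)) ∈ Ω
      rw [reP_toP, re_fp]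
      exact hmem w.re (by linarith [hw.1])
    · intro n hn t w h1 _
      exact ext_eq_flat hk hθ hMB hc hn hΩ hconv (hG' n hn) t h1
  refine ⟨_, hfam.kernel hb' (by norm_num) le_rfl (by linarith) ?_⟩
  intro n hn t w h1 h2
  obtain ⟨κ, C₀, hκ, hb₀⟩ := hc
  obtain ⟨C₃, N₃, hC₃, hb₃⟩ := flat_E_bound hk hθ hMB (ε := w.re - θ) (by linarith)
  have h3 : U c' (fun j => fp t w (some j)) w (fun m => Fcc c k m (fp t w)) n =
      U c' (fun j => fp t w (some j)) w (fun m => pol (fp t w) * Ec c k m (fp t w)) n :=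
    U_congr hn fun m _ => by unfold Fcc; ring
  rw [h3, U_mul_left]
  have h4 : U c' (fun j => fp t w (some j)) w (fun m => Ec c k m (fp t w)) n = E k n (fp t w) := by
    unfold Ec
    exact U_U hb₀ hb' hinv (w := w) (by linarith) (by linarith) (η := 0) (B := C₃ * (1 + ‖t‖) ^ N₃) le_rfl
      (fun j => by rw [fp_some_re]; norm_num) (f := fun m => E k m (fp t w)) (fun m _ => by
        rw [Real.rpow_zero, mul_one]; exact hb₃ m t w (by linarith)) hn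
  rw [h4]
  unfold Fc
  ring

end Pool.Agent.MDSS
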