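import Pool.Agent.MDSLin.MeanT

/-!
# Absolute convergence on the flat part, from moment bounds
-/

set_option autoImplicit false

open Complex
open Pool.Agent.TubeDS Pool.Agent.MDS Pool.Agent.MDSM Pool.Agent.MDSLin

namespace Pool.Agent.MDSS

private theorem dyadic {a : ℕ → ℝ} (ha : ∀ d, 0 ≤ a d) {K c σ : ℝ} (_hK : 0 ≤ K)
    (h : ∀ X : ℝ, 1 ≤ X → ∑ d ∈ Finset.Ioc 1 ⌊X⌋₊, a d ≤ K * X ^ c) (hσ0 : 0 ≤ σ) (m : ℕ) :
    ∑ d ∈ Finset.Ioc 1 (2 ^ m), a d * (d : ℝ) ^ (-σ) ≤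
      ∑ i ∈ Finset.range m, K * 2 ^ c * ((2 : ℝ) ^ (-(σ - c))) ^ i := by
  induction m with
  | zero => simp
  | succ m ih =>
    have h1 : Finset.Ioc 1 (2 ^ (m + 1)) =
        Finset.Ioc 1 (2 ^ m) ∪ Finset.Ioc (2 ^ m) (2 ^ (m + 1)) := by
      rw [Finset.Ioc_union_Ioc_eq_Ioc (Nat.one_le_two_pow)
        (Nat.pow_le_pow_right (by omega) (by omega))]
    have h2 : Disjoint (Finset.Ioc 1 (2 ^ m)) (Finset.Ioc (2 ^ m) (2 ^ (m + 1))) :=
      Finset.Ioc_disjoint_Ioc_of_le le_rfl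
    rw [h1, Finset.sum_union h2, Finset.sum_range_succ]
    refine add_le_add ih ?_
    have h3 : ∀ d ∈ Finset.Ioc (2 ^ m) (2 ^ (m + 1)), a d * (d : ℝ) ^ (-σ) ≤
        a d * ((2 : ℝ) ^ m) ^ (-σ) := by
      intro d hd
      rw [Finset.mem_Ioc] at hd
      refine mul_le_mul_of_nonneg_left ?_ (ha d)
      have h4 : ((2 : ℝ) ^ m) ≤ (d : ℝ) := by exact_mod_cast hd.1.le
      exact Real.rpow_le_rpow_of_nonpos (by positivity) h4 (by linarith)
    refine (Finset.sum_le_sum h3).trans ?_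
    rw [← Finset.sum_mul]
    have h5 : ∑ d ∈ Finset.Ioc (2 ^ m) (2 ^ (m + 1)), a d ≤ K * ((2 : ℝ) ^ (m + 1)) ^ c := by
      have h6 := h ((2 : ℝ) ^ (m + 1)) (one_le_pow₀ (by norm_num))
      have h7 : ⌊(2 : ℝ) ^ (m + 1)⌋₊ = 2 ^ (m + 1) := by
        have : ((2 : ℝ) ^ (m + 1)) = ((2 ^ (m + 1) : ℕ) : ℝ) := by push_cast; rfl
        rw [this, Nat.floor_natCast]
      rw [h7] at h6
      refine le_trans (Finset.sum_le_sum_of_subset_of_nonneg ?_ fun d _ _ => ha d) h6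
      exact Finset.Ioc_subset_Ioc_left Nat.one_le_two_pow
    refine (mul_le_mul_of_nonneg_right h5 (by positivity)).trans (le_of_eq ?_)
    have h8 : ((2 : ℝ) ^ (m + 1)) ^ c = 2 ^ c * ((2 : ℝ) ^ c) ^ m := by
      rw [← Real.rpow_natCast, ← Real.rpow_mul (by norm_num), ← Real.rpow_natCast ((2 : ℝ) ^ c),
        ← Real.rpow_mul (by norm_num), ← Real.rpow_add (by norm_num)]
      congr 1
      push_cast
      ring
    have h9 : ((2 : ℝ) ^ m) ^ (-σ) = ((2 : ℝ) ^ (-σ)) ^ m := by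
      rw [← Real.rpow_natCast, ← Real.rpow_mul (by norm_num), ← Real.rpow_natCast ((2 : ℝ) ^ (-σ)),
        ← Real.rpow_mul (by norm_num)]
      congr 1
      ring
    have h10 : (2 : ℝ) ^ (-(σ - c)) = 2 ^ c * 2 ^ (-σ) := by
      rw [← Real.rpow_add (by norm_num)]
      congr 1
      ring
    rw [h8, h9, h10, mul_pow]
    ring

private theorem summable_of_partial {a : ℕ → ℝ} (ha : ∀ d, 0 ≤ a d) (ha0 : a 0 = 0) (ha1 : a 1 = 0)
    {K c σ : ℝ} (hK : 0 ≤ K) (h : ∀ X : ℝ, 1 ≤ X → ∑ d ∈ Finset.Ioc 1 ⌊X⌋₊, a d ≤ K * X ^ c)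
    (hσ0 : 0 ≤ σ) (hσ : c < σ) :
    Summable (fun d : ℕ => a d * (d : ℝ) ^ (-σ)) ∧
      ∑' d : ℕ, a d * (d : ℝ) ^ (-σ) ≤ K * 2 ^ c / (1 - (2 : ℝ) ^ (-(σ - c))) := by
  set r : ℝ := (2 : ℝ) ^ (-(σ - c)) with hr
  have hr0 : 0 ≤ r := by positivity
  have hr1 : r < 1 := by
    rw [hr]
    exact Real.rpow_lt_one_of_one_lt_of_neg (by norm_num) (by linarith)
  have hnn : ∀ d : ℕ, 0 ≤ a d * (d : ℝ) ^ (-σ) := fun d => mul_nonneg (ha d) (by positivity)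
  have hb : ∀ n : ℕ, ∑ d ∈ Finset.range n, a d * (d : ℝ) ^ (-σ) ≤ K * 2 ^ c / (1 - r) := by
    intro n
    have h1 : ∑ d ∈ Finset.range n, a d * (d : ℝ) ^ (-σ) ≤
        ∑ d ∈ Finset.Ioc 1 (2 ^ n), a d * (d : ℝ) ^ (-σ) := by
      have h2 : ∑ d ∈ Finset.range n, a d * (d : ℝ) ^ (-σ) =
          ∑ d ∈ (Finset.range n).filter (fun d => 1 < d), a d * (d : ℝ) ^ (-σ) := by
        symm
        refine Finset.sum_filter_of_ne fun d _ hd => ?_
        by_contra hlt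
        have : d = 0 ∨ d = 1 := by omega
        rcases this with rfl | rfl
        · exact hd (by rw [ha0, zero_mul])
        · exact hd (by rw [ha1, zero_mul])
      rw [h2]
      refine Finset.sum_le_sum_of_subset_of_nonneg ?_ fun d _ _ => hnn d
      intro d hd
      rw [Finset.mem_filter, Finset.mem_range] at hd
      rw [Finset.mem_Ioc]
      exact ⟨hd.2, hd.1.le.trans Nat.lt_two_pow_self.le⟩
    refine h1.trans ((dyadic ha hK h hσ0 n).trans ?_)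
    rw [← Finset.mul_sum]
    have h3 : ∑ i ∈ Finset.range n, r ^ i ≤ (1 - r)⁻¹ := by
      rw [← tsum_geometric_of_lt_one hr0 hr1]
      exact (summable_geometric_of_lt_one hr0 hr1).sum_le_tsum _ (fun _ _ => by positivity)
    rw [div_eq_mul_inv]
    exact mul_le_mul_of_nonneg_left h3 (by positivity)
  exact ⟨summable_of_sum_range_le hnn hb, Real.tsum_le_of_sum_range_le hnn hb⟩

/-- Moment bounds give uniform absolute convergence of the twisted series on the critical lines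
for `Re w ≥ θ + ε`, uniformly in the twist. -/
theorem flat_bound {k : ℕ} (hk : 1 ≤ k) {θ : ℝ} (hθ : 0 ≤ θ) (hm : MomentBound k θ) {ε : ℝ}
    (hε : 0 < ε) :
    ∃ (C : ℝ) (N : ℕ), ∀ (n : ℕ) (t : Fin k → ℝ) (σ : ℝ), θ + ε ≤ σ →
      Summable (fun d : ℕ => ‖coef k n (fun _ => 1 / 2) t d‖ * (d : ℝ) ^ (-σ)) ∧
        ∑' d : ℕ, ‖coef k n (fun _ => 1 / 2) t d‖ * (d : ℝ) ^ (-σ) ≤ C * (1 + ‖t‖) ^ N := by
  classical
  set c : ℝ := θ + ε / 2 with hc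
  obtain ⟨C, N, hC⟩ := hm c (by rw [hc]; linarith)
  set σ₀ : ℝ := θ + ε with hσ₀
  refine ⟨k * |C| * 2 ^ c / (1 - (2 : ℝ) ^ (-(σ₀ - c))), N, fun n t σ hσ => ?_⟩
  set K : ℝ := k * |C| * (1 + ‖t‖) ^ N with hK
  have hK0 : 0 ≤ K := by positivity
  have hcoef : ∀ d, ‖coef k n (fun _ => 1 / 2) t d‖ ≤
      if IsFundDisc d ∧ 1 < d then ∑ j, ‖Lent d (1 / 2 + t j * I)‖ ^ k else 0 := by
    intro d
    unfold coef
    split_ifs with hd
    · rw [norm_mul, norm_prod]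
      rw [Lent_eq hd.1 hd.2]
      calc ‖(kron d n : ℂ)‖ * ∏ j, ‖Lc d (((1 / 2 : ℝ) : ℂ) + t j * I)‖
          ≤ 1 * ∏ j, ‖Lc d (((1 / 2 : ℝ) : ℂ) + t j * I)‖ :=
            mul_le_mul_of_nonneg_right (norm_kron_le d n)
              (Finset.prod_nonneg fun _ _ => norm_nonneg _)
        _ = ∏ j, ‖Lc d (1 / 2 + t j * I)‖ := by
            rw [one_mul]
            push_cast
            rfl
        _ ≤ _ := prod_le_sum_pow hk _ fun _ => norm_nonneg _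
    · rw [norm_zero]
  have hpart : ∀ X : ℝ, 1 ≤ X →
      ∑ d ∈ Finset.Ioc 1 ⌊X⌋₊, ‖coef k n (fun _ => 1 / 2) t d‖ ≤ K * X ^ c := by
    intro X hX
    have h1 : ∑ d ∈ Finset.Ioc 1 ⌊X⌋₊, ‖coef k n (fun _ => 1 / 2) t d‖ ≤
        ∑ d ∈ (Finset.Ioc 1 ⌊X⌋₊).filter IsFundDisc, ∑ j, ‖Lent d (1 / 2 + t j * I)‖ ^ k := by
      rw [Finset.sum_filter]
      refine Finset.sum_le_sum fun d hd => (hcoef d).trans (le_of_eq ?_)
      have h2 : 1 < d := (Finset.mem_Ioc.mp hd).1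
      by_cases h3 : IsFundDisc d
      · rw [if_pos ⟨h3, h2⟩, if_pos h3]
      · rw [if_neg (fun h => h3 h.1), if_neg h3]
    refine h1.trans ?_
    rw [Finset.sum_comm]
    have h4 : ∀ j, ∑ d ∈ (Finset.Ioc 1 ⌊X⌋₊).filter IsFundDisc, ‖Lent d (1 / 2 + t j * I)‖ ^ k ≤
        |C| * (1 + ‖t‖) ^ N * X ^ c := by
      intro j
      refine le_trans (le_of_eq (Finset.sum_congr (by congr) fun _ _ => rfl))
        ((hC (t j) X hX).trans ?_)
      have h2 := le_abs_self C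
      have h3 : |t j| ≤ ‖t‖ := norm_le_pi_norm t j
      have h5 : 0 ≤ X ^ c := Real.rpow_nonneg (by linarith) c
      gcongr
    refine (Finset.sum_le_sum fun j _ => h4 j).trans (le_of_eq ?_)
    rw [Finset.sum_const, Finset.card_univ, Fintype.card_fin, nsmul_eq_mul, hK]
    ring
  have h0 : ‖coef k n (fun _ => 1 / 2) t 0‖ = 0 := by rw [coef_zero, norm_zero]
  have h1 : ‖coef k n (fun _ => 1 / 2) t 1‖ = 0 := by
    unfold coef
    rw [if_neg (by rintro ⟨_, h⟩; omega), norm_zero]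
  have hσ₀0 : 0 ≤ σ₀ := by rw [hσ₀]; linarith
  have hcσ : c < σ₀ := by rw [hc, hσ₀]; linarith
  obtain ⟨hs, hb⟩ := summable_of_partial (a := fun d => ‖coef k n (fun _ => 1 / 2) t d‖)
    (fun _ => norm_nonneg _) h0 h1 hK0 hpart hσ₀0 hcσ
  have hcmp : ∀ d : ℕ, ‖coef k n (fun _ => 1 / 2) t d‖ * (d : ℝ) ^ (-σ) ≤
      ‖coef k n (fun _ => 1 / 2) t d‖ * (d : ℝ) ^ (-σ₀) := by
    intro d
    rcases Nat.eq_zero_or_pos d with rfl | hd
    · rw [h0, zero_mul, zero_mul]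
    · refine mul_le_mul_of_nonneg_left ?_ (norm_nonneg _)
      exact Real.rpow_le_rpow_of_exponent_le (by exact_mod_cast hd) (by linarith)
  have hs' : Summable (fun d : ℕ => ‖coef k n (fun _ => 1 / 2) t d‖ * (d : ℝ) ^ (-σ)) :=
    Summable.of_nonneg_of_le (fun d => by positivity) hcmp hs
  refine ⟨hs', (hs'.tsum_le_tsum hcmp hs).trans (hb.trans (le_of_eq ?_))⟩
  rw [hK]
  ring

end Pool.Agent.MDSS
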