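import Mathlib

/-!
# Three lines with polynomial growth, uniformly
-/

set_option autoImplicit false

open Complex Set

namespace Pool.Agent.MDSS

private theorem gauss_bound (N : ℕ) (v : ℝ) :
    (1 + |v|) ^ N * Real.exp (-(v ^ 2)) ≤ N.factorial * Real.exp 2 := by
  have h1 : (1 + |v|) ^ N / N.factorial ≤ Real.exp (1 + |v|) :=
    Real.pow_div_factorial_le_exp _ (by positivity) N
  have hN : (0 : ℝ) < N.factorial := by exact_mod_cast N.factorial_pos
  have h2 : (1 + |v|) ^ N ≤ N.factorial * Real.exp (1 + |v|) := by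
    rw [div_le_iff₀ hN] at h1
    linarith [mul_comm (Real.exp (1 + |v|)) (N.factorial : ℝ)]
  calc (1 + |v|) ^ N * Real.exp (-(v ^ 2))
      ≤ N.factorial * Real.exp (1 + |v|) * Real.exp (-(v ^ 2)) :=
        mul_le_mul_of_nonneg_right h2 (Real.exp_pos _).le
    _ = N.factorial * Real.exp (1 + |v| - v ^ 2) := by
        rw [mul_assoc, ← Real.exp_add]
        ring_nf
    _ ≤ N.factorial * Real.exp 2 := by
        refine mul_le_mul_of_nonneg_left (Real.exp_le_exp.mpr ?_) hN.le
        have h3 : v ^ 2 = |v| ^ 2 := (sq_abs v).symm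
        rw [h3]
        nlinarith [sq_nonneg (|v| - 1 / 2)]

private theorem grow (N : ℕ) (x y : ℝ) :
    (1 + |x|) ^ N ≤ (1 + |y|) ^ N * (1 + |x - y|) ^ N := by
  rw [← mul_pow]
  refine pow_le_pow_left₀ (by positivity) ?_ N
  have h1 : |x| ≤ |y| + |x - y| := by
    have := abs_add_le y (x - y)
    rwa [add_sub_cancel] at this
  nlinarith [mul_nonneg (abs_nonneg y) (abs_nonneg (x - y))]

/-- Three lines: a function of polynomial growth in the strip `a ≤ Re w ≤ b`, with constant `A` in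
the strip and `A0` on the line `Re w = b`; the bound in the strip interpolates geometrically. -/
theorem three_lines (a b : ℝ) (hab : a < b) (N : ℕ) :
    ∃ C : ℝ, 0 < C ∧ ∀ (f : ℂ → ℂ) (U : Set ℂ) (A A0 : ℝ), IsOpen U →
      {w : ℂ | a ≤ w.re ∧ w.re ≤ b} ⊆ U → DifferentiableOn ℂ f U → 0 < A0 → 0 < A →
      (∀ w : ℂ, a ≤ w.re → w.re ≤ b → ‖f w‖ ≤ A * (1 + |w.im|) ^ N) →
      (∀ w : ℂ, w.re = b → ‖f w‖ ≤ A0 * (1 + |w.im|) ^ N) →
      ∀ w : ℂ, a ≤ w.re → w.re ≤ b →
        ‖f w‖ ≤ C * A0 ^ (1 - (b - w.re) / (b - a)) * A ^ ((b - w.re) / (b - a)) *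
          (1 + |w.im|) ^ N := by
  refine ⟨Real.exp ((b - a) ^ 2) * (N.factorial * Real.exp 2), by positivity, ?_⟩
  intro f U A A0 hU hsub hf hA0 hA hbound hbound0 w hwa hwb
  set K : ℝ := Real.exp ((b - a) ^ 2) * (N.factorial * Real.exp 2) with hK
  have hKpos : 0 < K := by positivity
  set P : ℝ := (1 + |w.im|) ^ N with hP
  have hPpos : 0 < P := by positivity
  set g : ℂ → ℂ := fun z => f z * Complex.exp ((z - w) ^ 2) with hg
  have hexp : ∀ z : ℂ, a ≤ z.re → z.re ≤ b → ‖Complex.exp ((z - w) ^ 2)‖ ≤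
      Real.exp ((b - a) ^ 2) * Real.exp (-((z.im - w.im) ^ 2)) := by
    intro z h1 h2
    rw [Complex.norm_exp, ← Real.exp_add]
    refine Real.exp_le_exp.mpr ?_
    have h3 : ((z - w) ^ 2).re = (z.re - w.re) ^ 2 - (z.im - w.im) ^ 2 := by
      rw [sq, mul_re, sub_re, sub_im]
      ring
    rw [h3]
    have h4 : (z.re - w.re) ^ 2 ≤ (b - a) ^ 2 := by
      apply sq_le_sq'
      · linarith
      · linarith
    linarith
  have key : ∀ (B : ℝ), 0 < B → ∀ z : ℂ, a ≤ z.re → z.re ≤ b →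
      ‖f z‖ ≤ B * (1 + |z.im|) ^ N → ‖g z‖ ≤ B * P * K := by
    intro B hB z h1 h2 h3
    have h4 := hexp z h1 h2
    have h5 := grow N z.im w.im
    have h6 := gauss_bound N (z.im - w.im)
    calc ‖g z‖ = ‖f z‖ * ‖Complex.exp ((z - w) ^ 2)‖ := norm_mul _ _
      _ ≤ (B * ((1 + |w.im|) ^ N * (1 + |z.im - w.im|) ^ N)) *
          (Real.exp ((b - a) ^ 2) * Real.exp (-((z.im - w.im) ^ 2))) :=
        mul_le_mul (h3.trans (mul_le_mul_of_nonneg_left h5 hB.le)) h4 (norm_nonneg _)
          (by positivity)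
      _ = B * P * Real.exp ((b - a) ^ 2) *
          ((1 + |z.im - w.im|) ^ N * Real.exp (-((z.im - w.im) ^ 2))) := by
        rw [hP]; ring
      _ ≤ B * P * Real.exp ((b - a) ^ 2) * (N.factorial * Real.exp 2) :=
        mul_le_mul_of_nonneg_left h6 (by positivity)
      _ = B * P * K := by rw [hK]; ring
  have hdiff : DifferentiableOn ℂ g U := by
    refine hf.mul ?_
    exact ((differentiable_id.sub_const w).pow 2).cexp.differentiableOn
  have hdc : DiffContOnCl ℂ g (HadamardThreeLines.verticalStrip a b) := by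
    refine DifferentiableOn.diffContOnCl ?_
    refine hdiff.mono (fun z hz => hsub ?_)
    have hcl : closure (HadamardThreeLines.verticalStrip a b) ⊆
        HadamardThreeLines.verticalClosedStrip a b := by
      refine closure_minimal ?_ ?_
      · exact Set.preimage_mono Ioo_subset_Icc_self
      · exact isClosed_Icc.preimage Complex.continuous_re
    have := hcl hz
    exact this
  have hbdd : BddAbove ((norm ∘ g) '' HadamardThreeLines.verticalClosedStrip a b) := by
    refine ⟨A * P * K, ?_⟩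
    rintro _ ⟨z, hz, rfl⟩
    have hz' : a ≤ z.re ∧ z.re ≤ b := hz
    exact key A hA z hz'.1 hz'.2 (hbound z hz'.1 hz'.2)
  have hmem : w ∈ HadamardThreeLines.verticalClosedStrip a b := ⟨hwa, hwb⟩
  have hmain := HadamardThreeLines.norm_le_interp_of_mem_verticalClosedStrip' hab hmem hdc hbdd
    (a := A * P * K) (b := A0 * P * K)
    (fun z hz => by
      have hz' : z.re = a := hz
      exact key A hA z hz'.ge (by rw [hz']; exact hab.le)
        (hbound z hz'.ge (by rw [hz']; exact hab.le)))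
    (fun z hz => by
      have hz' : z.re = b := hz
      exact key A0 hA0 z (by rw [hz']; exact hab.le) hz'.le (hbound0 z hz'))
  have hgw : ‖g w‖ = ‖f w‖ := by
    simp [hg]
  rw [hgw] at hmain
  set τ : ℝ := (w.re - a) / (b - a) with hτ
  have hba : b - a ≠ 0 := by linarith
  have hτ2 : (b - w.re) / (b - a) = 1 - τ := by
    rw [hτ]
    field_simp
    ring
  rw [hτ2, sub_sub_cancel]
  have h7 : (A * P * K) ^ (1 - τ) = A ^ (1 - τ) * (P * K) ^ (1 - τ) := by
    rw [mul_assoc, Real.mul_rpow hA.le (by positivity)]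
  have h8 : (A0 * P * K) ^ τ = A0 ^ τ * (P * K) ^ τ := by
    rw [mul_assoc, Real.mul_rpow hA0.le (by positivity)]
  have h9 : (P * K) ^ (1 - τ) * (P * K) ^ τ = P * K := by
    rw [← Real.rpow_add (by positivity), sub_add_cancel, Real.rpow_one]
  calc ‖f w‖ ≤ (A * P * K) ^ (1 - τ) * (A0 * P * K) ^ τ := hmain
    _ = A ^ (1 - τ) * A0 ^ τ * ((P * K) ^ (1 - τ) * (P * K) ^ τ) := by rw [h7, h8]; ring
    _ = K * A0 ^ τ * A ^ (1 - τ) * P := by rw [h9]; ring

end Pool.Agent.MDSS
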