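import Pool.Agent.MDSS.Base
import Pool.Agent.MDSS.DescB
import Pool.Agent.MDSS.Three
import Pool.Agent.MDSS.Flat1
import Pool.Agent.MDSM.FromExt

set_option autoImplicit false

open Complex Filter Topology
open Pool.Agent.TubeDS Pool.Agent.MDS Pool.Agent.MDSM Pool.Agent.MDSLin

namespace Pool.Agent.MDSS

variable {k : ℕ}

theorem flat_abs {k : ℕ} (hk : 1 ≤ k) {θ : ℝ} (hθ : 1 ≤ θ) (h : MomentBound k θ) {ε : ℝ}
    (hε : 0 < ε) :
    ∃ (C : ℝ) (N : ℕ), 0 ≤ C ∧ ∀ (n : ℕ) (t : Fin k → ℝ) (σ : ℝ), θ + ε ≤ σ →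
      Summable (fun d : ℕ => ‖coef k n (fun _ => 1 / 2) t d‖ * (d : ℝ) ^ (-σ)) ∧
      ∑' d : ℕ, ‖coef k n (fun _ => 1 / 2) t d‖ * (d : ℝ) ^ (-σ) ≤ C * (1 + ‖t‖) ^ N := by
  obtain ⟨C, N, hb⟩ := flat_bound hk (by linarith) h hε
  refine ⟨|C|, N, abs_nonneg C, fun n t σ hσ => ⟨(hb n t σ hσ).1, (hb n t σ hσ).2.trans ?_⟩⟩
  have := le_abs_self C
  gcongr

/-- the real parts `(1/2, ..., 1/2)` -/
noncomputable abbrev half (k : ℕ) : Fin k → ℝ := fun _ => 1 / 2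

/-- the flat points `(1/2 + i t; w)` -/
noncomputable def fp (t : Fin k → ℝ) (w : ℂ) : Option (Fin k) → ℂ := cpt (xp (half k) 0) t w

theorem fp_eq (c : ℝ) (t : Fin k → ℝ) (w : ℂ) : cpt (xp (half k) c) t w = fp t w := rfl

@[simp] theorem fp_none (t : Fin k → ℝ) (w : ℂ) : fp t w none = w := rfl

theorem fp_some (t : Fin k → ℝ) (w : ℂ) (j : Fin k) : fp t w (some j) = ((1 / 2 : ℝ) : ℂ) + t j * I := rfl

theorem fp_some_re (t : Fin k → ℝ) (w : ℂ) (j : Fin k) : (fp t w (some j)).re = 1 / 2 := by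
  rw [fp_some]; simp

theorem re_fp (t : Fin k → ℝ) (w : ℂ) : (fun o => (fp t w o).re) = xp (half k) w.re :=
  re_cpt_xp (half k) 0 t w

theorem norm_im_fp (t : Fin k → ℝ) (w : ℂ) : ‖fun o => (fp t w o).im‖ ≤ |w.im| + ‖t‖ :=
  norm_im_cpt_xp (half k) 0 t w

theorem differentiable_fp (t : Fin k → ℝ) : Differentiable ℂ (fp t) := differentiable_cpt _ t

theorem differentiableOn_DS {a : ℕ → ℂ} {σ₀ : ℝ}
    (hs : ∀ σ, σ₀ < σ → Summable (fun d : ℕ => ‖a d‖ * (d : ℝ) ^ (-σ))) (ha0 : a 0 = 0) :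
    DifferentiableOn ℂ (DS a) {w : ℂ | σ₀ < w.re} := by
  unfold DS
  apply differentiableOn_tsum_of_local (isOpen_lt continuous_const continuous_re)
  · intro d
    rcases Nat.eq_zero_or_pos d with rfl | hd
    · simp only [ha0, zero_mul]; exact differentiableOn_const _
    · have hd0 : (d : ℂ) ≠ 0 := by exact_mod_cast hd.ne'
      apply DifferentiableOn.const_mul
      exact (differentiable_id.neg.differentiableOn).const_cpow (Or.inl hd0)
  · intro w₀ hw₀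
    have hw₀' : σ₀ < w₀.re := hw₀
    set σ := (σ₀ + w₀.re) / 2 with hσ
    have h1 : {w : ℂ | σ < w.re} ∈ 𝓝 w₀ :=
      (isOpen_lt continuous_const continuous_re).mem_nhds (by simp only [Set.mem_ofPred_eq]; linarith)
    refine ⟨_, h1, _, hs σ (by linarith), ?_⟩
    intro w hw d
    have hw' : σ < w.re := hw
    rcases Nat.eq_zero_or_pos d with rfl | hd
    · simp [ha0]
    · rw [norm_mul, norm_natCast_cpow_of_pos hd, neg_re]
      have hd1 : (1 : ℝ) ≤ d := by exact_mod_cast hd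
      gcongr

/-- The half plane of absolute convergence at the flat points. -/
theorem flat_E (hk : 1 ≤ k) {θ : ℝ} (hθ : 1 ≤ θ) (h : MomentBound k θ) (n : ℕ) (t : Fin k → ℝ) :
    DifferentiableOn ℂ (fun w => E k n (fp t w)) {w : ℂ | θ < w.re} := by
  have h1 : (fun w => E k n (fp t w)) = DS (coef k n (half k) t) := by
    funext w; exact E_cpt k n (half k) 0 t w
  rw [h1]
  apply differentiableOn_DS _ (coef_zero k n (half k) t)
  intro σ hσ
  obtain ⟨C, N, _, hb⟩ := flat_abs hk hθ h (ε := σ - θ) (by linarith)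
  exact (hb n t σ (by linarith)).1

theorem flat_E_bound (hk : 1 ≤ k) {θ : ℝ} (hθ : 1 ≤ θ) (h : MomentBound k θ) {ε : ℝ} (hε : 0 < ε) :
    ∃ (C : ℝ) (N : ℕ), 0 ≤ C ∧ ∀ (n : ℕ) (t : Fin k → ℝ) (w : ℂ), θ + ε ≤ w.re →
      ‖E k n (fp t w)‖ ≤ C * (1 + ‖t‖) ^ N := by
  obtain ⟨C, N, hC, hb⟩ := flat_abs hk hθ h hε
  refine ⟨C, N, hC, fun n t w hw => ?_⟩
  have h1 : E k n (fp t w) = DS (coef k n (half k) t) w := E_cpt k n (half k) 0 t w
  rw [h1]
  obtain ⟨h2, h3⟩ := hb n t w.re hw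
  exact (norm_DS_le h2 (coef_zero k n (half k) t) rfl).trans h3

theorem flat_Ec (hk : 1 ≤ k) {θ : ℝ} (hθ : 1 ≤ θ) (h : MomentBound k θ) {c : ℕ → ℂ} (hc : Moderate c)
    {n : ℕ} (hn : 1 ≤ n) (t : Fin k → ℝ) :
    DifferentiableOn ℂ (fun w => Ec c k n (fp t w)) {w : ℂ | θ < w.re} := by
  obtain ⟨κ, C, hκ, hb⟩ := hc
  unfold Ec
  refine differentiableOn_U (isOpen_lt continuous_const continuous_re) hb
    (S := fun w j => fp t w (some j)) (w := fun w => fp t w none) (f := fun m w => E k m (fp t w)) ?_ ?_ ?_ ?_ hn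
  · intro j
    exact differentiableOn_const _
  · exact differentiable_id.differentiableOn
  · intro m _; exact flat_E hk hθ h m t
  · intro w₀ hw₀
    have hw₀' : θ < w₀.re := hw₀
    obtain ⟨C', N, hC', hb'⟩ := flat_E_bound hk hθ h (ε := (w₀.re - θ) / 2) (by linarith)
    have h1 : {w : ℂ | θ + (w₀.re - θ) / 2 < w.re} ∈ 𝓝 w₀ :=
      (isOpen_lt continuous_const continuous_re).mem_nhds (by simp only [Set.mem_ofPred_eq]; linarith)
    refine ⟨_, h1, 1, 0, C' * (1 + ‖t‖) ^ N, by linarith, le_rfl, ?_⟩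
    intro w hw
    have hw' : θ + (w₀.re - θ) / 2 < w.re := hw
    refine ⟨by rw [fp_none]; linarith, fun j => by rw [fp_some_re]; norm_num, fun m _ => ?_⟩
    rw [Real.rpow_zero, mul_one]
    exact hb' m t w hw'.le

theorem flat_Ec_bound (hk : 1 ≤ k) {θ : ℝ} (hθ : 1 ≤ θ) (h : MomentBound k θ) {c : ℕ → ℂ} (hc : Moderate c)
    {ε : ℝ} (hε : 0 < ε) : ∃ (C : ℝ) (N : ℕ), 0 ≤ C ∧ ∀ (n : ℕ), 1 ≤ n → ∀ (t : Fin k → ℝ) (w : ℂ),
      θ + ε ≤ w.re → ‖Ec c k n (fp t w)‖ ≤ C * (1 + ‖t‖) ^ N := by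
  obtain ⟨κ, C, hκ, hb⟩ := hc
  obtain ⟨C', N, hC', hb'⟩ := flat_E_bound hk hθ h hε
  obtain ⟨K, hK, hKb⟩ := norm_U_le hb k (σ₀ := 1) (by linarith)
  refine ⟨K * C', N, by positivity, fun n hn t w hw => ?_⟩
  have h1 := hKb (fp t w none) (fun j => fp t w (some j)) 0 (C' * (1 + ‖t‖) ^ N)
    (fun m => E k m (fp t w)) n (by rw [fp_none]; linarith) le_rfl
    (fun j => by rw [fp_some_re]; norm_num) (fun m _ => by
      rw [Real.rpow_zero, mul_one]; exact hb' m t w hw) hn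
  rw [Real.rpow_zero, mul_one] at h1
  unfold Ec
  exact h1.trans (le_of_eq (by ring))

/-- polynomial bound for the polar factors at the flat points -/
theorem norm_pol_fp (k : ℕ) (b₀ : ℝ) : ∃ (C : ℝ) (N : ℕ), 0 ≤ C ∧ ∀ (t : Fin k → ℝ) (w : ℂ),
    |w.re| ≤ b₀ → ‖pol (fp t w)‖ ≤ C * (1 + ‖t‖) ^ N * (1 + |w.im|) ^ N := by
  obtain ⟨C, N, hC⟩ := polyBdd_pol (k := k) Set.univ ((fun u : ℝ => xp (half k) u) '' Set.Icc (-b₀) b₀)
    (Set.subset_univ _) (isCompact_Icc.image (continuous_xp (half k)))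
  refine ⟨|C|, N, abs_nonneg _, fun t w hw => ?_⟩
  have h1 := hC (fp t w) (by
    rw [re_fp]
    exact ⟨w.re, abs_le.mp hw, rfl⟩)
  have h2 := norm_im_fp t w
  have h3 : 1 + ‖fun o => (fp t w o).im‖ ≤ (1 + ‖t‖) * (1 + |w.im|) := by
    nlinarith [norm_nonneg t, abs_nonneg w.im, mul_nonneg (norm_nonneg t) (abs_nonneg w.im)]
  calc ‖pol (fp t w)‖ ≤ C * (1 + ‖fun o => (fp t w o).im‖) ^ N := h1
    _ ≤ |C| * ((1 + ‖t‖) * (1 + |w.im|)) ^ N := by
        have := le_abs_self C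
        gcongr
    _ = _ := by rw [mul_pow]; ring

/-- the flat ray above the centre lies in every convex base -/
theorem ray_mem {Ω : Set ((Fin k → ℝ) × ℝ)} (hΩ : IsBase k Ω) (hconv : Convex ℝ Ω) {u : ℝ} (hu : 1 ≤ u) :
    ((half k, u) : (Fin k → ℝ) × ℝ) ∈ Ω := by
  obtain ⟨hΩo, _, hΩreg, hcen⟩ := hΩ
  obtain ⟨r, hr, hball⟩ := Metric.isOpen_iff.mp hΩo _ hcen
  set ε : ℝ := r / 2 with hε
  have hε0 : 0 < ε := by positivity
  have hP' : ((fun _ => 1 / 2 - ε, 1 - ε) : (Fin k → ℝ) × ℝ) ∈ Ω := by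
    apply hball
    rw [Metric.mem_ball, Prod.dist_eq]
    apply max_lt
    · refine lt_of_le_of_lt ((dist_pi_le_iff hε0.le).mpr fun j => ?_) (show ε < r by rw [hε]; linarith)
      rw [Real.dist_eq, sub_sub_cancel_left, abs_neg, abs_of_pos hε0]
    · rw [Real.dist_eq, sub_sub_cancel_left, abs_neg, abs_of_pos hε0, hε]; linarith
  set τ : ℝ := min (1 / 2) (ε / 2) with hτ
  have hτ0 : 0 < τ := lt_min (by norm_num) (by positivity)
  have hτ1 : τ ≤ 1 / 2 := min_le_left _ _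
  have hτ2 : τ ≤ ε / 2 := min_le_right _ _
  have hτε : τ * ε ≤ (1 / 2) * ε := by gcongr
  have hq : ((fun _ => (1 / 2 - (1 - τ) * (1 / 2 - ε)) / τ, (u - (1 - τ) * (1 - ε)) / τ) :
      (Fin k → ℝ) × ℝ) ∈ Ω := by
    apply hΩreg
    refine ⟨fun j => ?_, ?_⟩
    · show 1 < (1 / 2 - (1 - τ) * (1 / 2 - ε)) / τ
      rw [lt_div_iff₀ hτ0]
      nlinarith
    · show 1 < (u - (1 - τ) * (1 - ε)) / τ
      rw [lt_div_iff₀ hτ0]
      nlinarith
  have hcomb : ((half k, u) : (Fin k → ℝ) × ℝ) = (1 - τ) • ((fun _ => 1 / 2 - ε, 1 - ε) : (Fin k → ℝ) × ℝ) +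
      τ • ((fun _ => (1 / 2 - (1 - τ) * (1 / 2 - ε)) / τ, (u - (1 - τ) * (1 - ε)) / τ) : (Fin k → ℝ) × ℝ) := by
    refine Prod.ext ?_ ?_
    · funext j
      simp only [half, Prod.fst_add, Prod.smul_fst, Pi.add_apply, Pi.smul_apply, smul_eq_mul]
      field_simp
      ring
    · simp only [Prod.snd_add, Prod.smul_snd, smul_eq_mul]
      field_simp
      ring
  rw [hcomb]
  exact hconv hP' hq (by linarith) hτ0.le (by ring)

/-- the sum of the weighted series and the extension agree at the flat points far to the right -/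
theorem ext_eq_Fcc {c : ℕ → ℂ} (hc : Moderate c) {M : ℕ} (hM : 1 ≤ M) {Ω : Set ((Fin k → ℝ) × ℝ)}
    (hΩ : IsBase k Ω) (hconv : Convex ℝ Ω) {G : (Fin k → ℂ) × ℂ → ℂ} (hG : IsExtensionB c k M Ω G)
    {z : Option (Fin k) → ℂ} (hz : z ∈ tube (toP ⁻¹' Ω ∩ R1 k)) : G (toP z) = Fcc c k M z := by
  set Ω₂ : Set (Option (Fin k) → ℝ) := toP ⁻¹' Ω with hΩ₂
  have hΩ₂o : IsOpen Ω₂ := hΩ.1.preimage continuous_toP
  have hΩ₂c : Convex ℝ Ω₂ := by
    intro x hx y hy a b ha hb hab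
    exact hconv (show toP x ∈ Ω from hx) (show toP y ∈ Ω from hy) ha hb hab
  have hQ : Q0 k ⊆ Ω₂ := fun x hx => hΩ.2.2.1 ⟨fun j => hx (some j), hx none⟩
  have hGd : DifferentiableOn ℂ (fun z : Option (Fin k) → ℂ => G (toP z)) (tube Ω₂) := by
    refine hG.1.comp differentiable_toP.differentiableOn ?_
    intro z hz
    show reP (toP z) ∈ Ω
    rw [reP_toP]; exact hz
  have hne : (R1 k ∩ Q0 k).Nonempty := by
    obtain ⟨T, hT⟩ := exists_far_single (fun _ : Option (Fin k) => (2 : ℝ))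
    refine ⟨_, ⟨hT (max T 2) (le_max_left _ _), ?_⟩, ?_⟩
    · intro j
      show (1 / 4 : ℝ) < 2
      norm_num
    · intro o
      cases o with
      | none => exact lt_of_lt_of_le one_lt_two (le_max_right _ _)
      | some l => exact one_lt_two
  refine eqOn_tube_of_convex (hΩ₂o.inter (isOpen_R1 k)) (hΩ₂c.inter (convex_R1 k))
    ((isOpen_R1 k).inter (isOpen_Q0 k)) (fun x hx => ⟨hQ hx.2, hx.1⟩) hne
    (hGd.mono fun z hz => hz.1) (((reg_R1 k).diffF hc hM).mono fun z hz => hz.2) ?_ hz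
  intro z hz
  simp only
  rw [hG.2 (toP z) (fun j => hz.2 (some j)) (hz.2 none)]
  exact FB_eq_Fcc hc hM hz.2

/-- ... and everywhere in the half plane of absolute convergence. -/
theorem ext_eq_flat (hk : 1 ≤ k) {θ : ℝ} (hθ : 1 ≤ θ) (h : MomentBound k θ) {c : ℕ → ℂ} (hc : Moderate c)
    {M : ℕ} (hM : 1 ≤ M) {Ω : Set ((Fin k → ℝ) × ℝ)} (hΩ : IsBase k Ω) (hconv : Convex ℝ Ω)
    {G : (Fin k → ℂ) × ℂ → ℂ} (hG : IsExtensionB c k M Ω G) (t : Fin k → ℝ) {w : ℂ} (hw : θ < w.re) :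
    G (toP (fp t w)) = Fcc c k M (fp t w) := by
  have hS : IsOpen {w : ℂ | θ < w.re} := isOpen_lt continuous_const continuous_re
  have hmem : ∀ w : ℂ, θ < w.re → toP (fun o => (fp t w o).re) ∈ Ω := by
    intro w hw
    rw [re_fp]
    exact ray_mem hΩ hconv (u := w.re) (by linarith)
  have hd1 : DifferentiableOn ℂ (fun w => G (toP (fp t w))) {w : ℂ | θ < w.re} := by
    refine hG.1.comp (differentiable_toP.comp (differentiable_fp t)).differentiableOn ?_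
    intro w hw
    show reP (toP (fp t w)) ∈ Ω
    rw [reP_toP]; exact hmem w hw
  have hd2 : DifferentiableOn ℂ (fun w => Fcc c k M (fp t w)) {w : ℂ | θ < w.re} := by
    unfold Fcc
    exact (flat_Ec hk hθ h hc hM t).mul (differentiable_pol.comp (differentiable_fp t)).differentiableOn
  set b : ℝ := max (θ + 1) (c1 (half k)) with hb
  have hbθ : θ < b := lt_of_lt_of_le (by linarith) (le_max_left _ _)
  have hfar : ∀ w : ℂ, b < w.re → G (toP (fp t w)) = Fcc c k M (fp t w) := by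
    intro w hw
    apply ext_eq_Fcc hc hM hΩ hconv hG
    show (fun o => (fp t w o).re) ∈ toP ⁻¹' Ω ∩ R1 k
    refine ⟨hmem w (by linarith), ?_⟩
    rw [re_fp]
    refine ⟨xp_mem_R0 ((le_max_right _ _).trans hw.le), ?_⟩
    intro j
    show (1 / 4 : ℝ) < 1 / 2
    norm_num
  have hpre : IsPreconnected {w : ℂ | θ < w.re} := (convex_halfSpace_re_gt θ).isPreconnected
  have hz₀ : ((b + 1 : ℝ) : ℂ) ∈ {w : ℂ | θ < w.re} := by
    simp only [Set.mem_ofPred_eq, ofReal_re]; linarith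
  have hev : (fun w => G (toP (fp t w))) =ᶠ[𝓝 ((b + 1 : ℝ) : ℂ)] (fun w => Fcc c k M (fp t w)) := by
    have : {w : ℂ | b < w.re} ∈ 𝓝 ((b + 1 : ℝ) : ℂ) :=
      (isOpen_lt continuous_const continuous_re).mem_nhds (by
        simp only [Set.mem_ofPred_eq, ofReal_re]; linarith)
    filter_upwards [this] with w hw using hfar w hw
  exact (hd1.analyticOnNhd hS).eqOn_of_preconnected_of_eventuallyEq (hd2.analyticOnNhd hS) hpre hz₀ hev hw

end Pool.Agent.MDSS
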