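import Mathlib

set_option autoImplicit false

namespace Pool.Agent.MDSS

open Classical in
/-- The sieving operator: `f ↦ [gcd(l, n) = 1] ∑_{e_1, ..., e_k | l} ∏ μ(e_j) e_j ^ (-s_j) f(n e_1 ... e_k)`. -/
noncomputable def V {k : ℕ} (s : Fin k → ℂ) (l : ℕ) (f : ℕ → ℂ) (n : ℕ) : ℂ :=
  if Nat.Coprime l n then
    ∑ e ∈ Fintype.piFinset (fun _ : Fin k => l.divisors),
      (∏ j, ((ArithmeticFunction.moebius (e j) : ℤ) : ℂ) * ((e j : ℕ) : ℂ) ^ (-(s j))) * f (n * ∏ j, e j)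
  else 0

end Pool.Agent.MDSS
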