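import Pool.Agent.MDSS.Defs
import Pool.Agent.MDSS.VDef
import Pool.Agent.MDSM.ConvQ

set_option autoImplicit false

open Complex Filter Topology
open Pool.Agent.TubeDS Pool.Agent.MDS

namespace Pool.Agent.MDSS

theorem chi8_sq (l : ℕ) : ZMod.χ₈ (l : ZMod 8) ^ 2 = if l % 2 = 1 then 1 else 0 := by
  have h1 : ∀ a : ZMod 8, ZMod.χ₈ a ^ 2 = if a.val % 2 = 1 then 1 else 0 := by decide
  rw [h1, ZMod.val_natCast]
  have : l % 8 % 2 = l % 2 := by omega
  rw [this]

theorem kron_sq_mul (d : ℕ) {l n : ℕ} (hl : 1 ≤ l) (hn : 1 ≤ n) :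
    kron (d * l ^ 2) n = if Nat.Coprime l n then kron d n else 0 := by
  unfold kron
  set a := n.factorization 2 with ha
  set m := n / 2 ^ a with hm
  have hnm : n = 2 ^ a * m := (Nat.mul_div_cancel' (Nat.ordProj_dvd n 2)).symm
  have hmodd : ¬ 2 ∣ m := Nat.not_dvd_ordCompl Nat.prime_two (by omega)
  have hm0 : m ≠ 0 := by
    rintro h
    rw [h] at hmodd
    exact hmodd (dvd_zero _)
  haveI : NeZero m := ⟨hm0⟩
  have h1 : jacobiSym ((d * l ^ 2 : ℕ) : ℤ) m = jacobiSym d m * jacobiSym l m ^ 2 := by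
    push_cast
    rw [jacobiSym.mul_left, jacobiSym.pow_left]
  have h2 : ZMod.χ₈ ((d * l ^ 2 : ℕ) : ZMod 8) = ZMod.χ₈ (d : ZMod 8) * ZMod.χ₈ (l : ZMod 8) ^ 2 := by
    push_cast
    rw [map_mul, map_pow]
  rw [h1, h2, chi8_sq]
  by_cases hc : Nat.Coprime l m
  · have h3 : jacobiSym (l : ℤ) m ^ 2 = 1 := jacobiSym.sq_one (by
      rw [Int.gcd_natCast_natCast]; exact hc)
    rw [h3, mul_one]
    by_cases hl2 : l % 2 = 1
    · have hcop : Nat.Coprime l n := by
        rw [hnm]
        refine Nat.Coprime.mul_right (Nat.Coprime.pow_right _ ?_) hc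
        exact (Nat.coprime_comm.mp (by rwa [Nat.coprime_two_left, Nat.odd_iff]))
      rw [if_pos hl2, if_pos hcop, mul_one]
    · rw [if_neg hl2, mul_zero]
      by_cases ha0 : a = 0
      · have hcop : Nat.Coprime l n := by
          rw [hnm, ha0, pow_zero, one_mul]; exact hc
        rw [if_pos hcop, ha0, pow_zero, pow_zero]
      · have hcop : ¬ Nat.Coprime l n := by
          intro h
          have h4 : 2 ∣ n := by
            rw [hnm]
            exact Dvd.dvd.mul_right (dvd_pow_self 2 ha0) _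
          have h5 : 2 ∣ l := by omega
          have := Nat.dvd_gcd h5 h4
          rw [h] at this
          omega
        rw [if_neg hcop, zero_pow ha0, zero_mul]
  · have h3 : jacobiSym (l : ℤ) m = 0 := by
      rw [jacobiSym.eq_zero_iff_not_coprime, Int.gcd_natCast_natCast]; exact hc
    have hcop : ¬ Nat.Coprime l n := by
      intro h
      apply hc
      rw [hnm] at h
      exact h.coprime_mul_left_right
    rw [h3, if_neg hcop]
    simp

/-- the finite Euler factor -/
noncomputable def Eu (d l : ℕ) (s : ℂ) : ℂ :=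
  ∑ e ∈ l.divisors, ((ArithmeticFunction.moebius e : ℤ) : ℂ) * (kron d e : ℂ) * (e : ℂ) ^ (-s)

theorem sum_moebius_gcd {l n : ℕ} (hl : l ≠ 0) (hn : n ≠ 0) :
    ∑ e ∈ n.divisors, (if e ∣ l then (ArithmeticFunction.moebius e : ℤ) else 0) =
      if Nat.Coprime l n then 1 else 0 := by
  have h1 : n.divisors.filter (fun e => e ∣ l) = (Nat.gcd l n).divisors := by
    ext e
    simp only [Finset.mem_filter, Nat.mem_divisors, ne_eq, Nat.dvd_gcd_iff]
    constructor
    · rintro ⟨⟨h1, _⟩, h2⟩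
      exact ⟨⟨h2, h1⟩, Nat.gcd_ne_zero_left hl⟩
    · rintro ⟨⟨h1, h2⟩, _⟩
      exact ⟨⟨h2, hn⟩, h1⟩
  rw [← Finset.sum_filter, h1]
  have h2 := congrArg (fun f => f (Nat.gcd l n)) ArithmeticFunction.coe_zeta_mul_moebius
  have h3 : ∑ e ∈ (Nat.gcd l n).divisors, (ArithmeticFunction.moebius e : ℤ) =
      (1 : ArithmeticFunction ℤ) (Nat.gcd l n) := by
    rw [← ArithmeticFunction.coe_zeta_mul_moebius, ArithmeticFunction.coe_zeta_mul_apply]
  rw [h3, ArithmeticFunction.one_apply]

theorem L_sq_mul (d : ℕ) {l : ℕ} (hl : 1 ≤ l) {s : ℂ} (hs : 1 < s.re) :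
    L (d * l ^ 2) s = Eu d l s * L d s := by
  set f : ℕ → ℂ := fun e => if e ∣ l then ((ArithmeticFunction.moebius e : ℤ) : ℂ) * (kron d e : ℂ) else 0
    with hf
  have hfs : ∀ n ∉ l.divisors, LSeries.term f s n = 0 := by
    intro n hn
    have : ¬ n ∣ l := fun h => hn (Nat.mem_divisors.mpr ⟨h, by omega⟩)
    rw [LSeries.term_def]
    split_ifs
    · rfl
    · simp [hf, this]
  have hfsum : LSeriesSummable f s := summable_of_ne_finset_zero hfs
  have hLf : LSeries f s = Eu d l s := by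
    unfold LSeries Eu
    rw [tsum_eq_sum hfs]
    refine Finset.sum_congr rfl fun e he => ?_
    have he0 : e ≠ 0 := (Nat.pos_of_mem_divisors he).ne'
    rw [LSeries.term_of_ne_zero he0]
    simp only [hf]
    rw [if_pos (Nat.dvd_of_mem_divisors he), cpow_neg, div_eq_mul_inv]
  have hgsum : LSeriesSummable (fun n => (kron d n : ℂ)) s := summable_term hs
  rw [← hLf]
  unfold L
  rw [← LSeries_convolution' hfsum hgsum]
  apply LSeries_congr
  intro n hn
  rw [LSeries.convolution_def]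
  simp only
  have h1 : ∀ p ∈ n.divisorsAntidiagonal, f p.1 * (kron d p.2 : ℂ) =
      (kron d n : ℂ) * (((if p.1 ∣ l then (ArithmeticFunction.moebius p.1 : ℤ) else 0 : ℤ)) : ℂ) := by
    intro p hp
    have hp' := Nat.mem_divisorsAntidiagonal.mp hp
    have hp1 : p.1 ≠ 0 := by
      rintro h
      rw [h, zero_mul] at hp'
      exact hp'.2 hp'.1.symm
    have hp2 : p.2 ≠ 0 := by
      rintro h
      rw [h, mul_zero] at hp'
      exact hp'.2 hp'.1.symm
    have hk : (kron d n : ℂ) = (kron d p.1 : ℂ) * (kron d p.2 : ℂ) := by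
      rw [← hp'.1, kron_mul d hp1 hp2]; push_cast; ring
    rw [hk]
    simp only [hf]
    split_ifs
    · push_cast; ring
    · simp
  have h2 : ∑ p ∈ n.divisorsAntidiagonal,
      (((if p.1 ∣ l then (ArithmeticFunction.moebius p.1 : ℤ) else 0 : ℤ)) : ℂ) =
      ∑ e ∈ n.divisors, (((if e ∣ l then (ArithmeticFunction.moebius e : ℤ) else 0 : ℤ)) : ℂ) :=
    Nat.sum_divisorsAntidiagonal
      (fun e _ => (((if e ∣ l then (ArithmeticFunction.moebius e : ℤ) else 0 : ℤ)) : ℂ))
  rw [Finset.sum_congr rfl h1, ← Finset.mul_sum, h2,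
    ← Int.cast_sum, sum_moebius_gcd (by omega) hn, kron_sq_mul d hl (Nat.one_le_iff_ne_zero.mpr hn)]
  split_ifs <;> simp

/-- the operator applied to the Kronecker symbol -/
theorem V_kron {k : ℕ} (s : Fin k → ℂ) (d : ℕ) {l n : ℕ} (hl : 1 ≤ l) (hn : 1 ≤ n) :
    V s l (fun m => (kron d m : ℂ)) n = (kron (d * l ^ 2) n : ℂ) * ∏ j, Eu d l (s j) := by
  unfold V
  rw [kron_sq_mul d hl hn]
  split_ifs with h
  · unfold Eu
    rw [Finset.prod_univ_sum, Finset.mul_sum]
    refine Finset.sum_congr rfl fun e he => ?_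
    have he0 : ∀ j, e j ≠ 0 := fun j => by
      have := Fintype.mem_piFinset.mp he j
      exact (Nat.pos_of_mem_divisors this).ne'
    have hprod : ∀ (u : Finset (Fin k)), (kron d (∏ j ∈ u, e j) : ℂ) = ∏ j ∈ u, (kron d (e j) : ℂ) := by
      intro u
      induction u using Finset.induction_on with
      | empty => simp [kron_one_right]
      | insert a u ha ih =>
        rw [Finset.prod_insert ha, Finset.prod_insert ha, kron_mul d (he0 a)
          (Finset.prod_ne_zero_iff.mpr fun j _ => he0 j)]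
        push_cast
        rw [ih]
    simp only
    rw [kron_mul d (by omega) (Finset.prod_ne_zero_iff.mpr fun j _ => he0 j)]
    push_cast
    rw [hprod Finset.univ]
    simp_rw [Finset.prod_mul_distrib]
    ring
  · simp

end Pool.Agent.MDSS
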