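import Pool.Agent.MDSS.VDef

/-!
# The sieving operators: composition and bounds
-/

set_option autoImplicit false

namespace Pool.Agent.MDSS

theorem V_one {k : ℕ} (s : Fin k → ℂ) (f : ℕ → ℂ) (n : ℕ) : V s 1 f n = f n := by
  classical
  unfold V
  rw [if_pos (Nat.coprime_one_left n)]
  have h1 : Fintype.piFinset (fun _ : Fin k => (1 : ℕ).divisors) = {fun _ => 1} := by
    ext e
    rw [Fintype.mem_piFinset, Finset.mem_singleton]
    simp only [Nat.divisors_one, Finset.mem_singleton]
    exact ⟨fun h => funext h, fun h j => congrFun h j⟩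
  rw [h1, Finset.sum_singleton]
  simp

private noncomputable def wt {k : ℕ} (s : Fin k → ℂ) (e : Fin k → ℕ) : ℂ :=
  ∏ j, ((ArithmeticFunction.moebius (e j) : ℤ) : ℂ) * ((e j : ℕ) : ℂ) ^ (-(s j))

private theorem wt_eq_zero {k : ℕ} (s : Fin k → ℂ) (e : Fin k → ℕ)
    (h : ¬ ∀ j, Squarefree (e j)) : wt s e = 0 := by
  push Not at h
  obtain ⟨j, hj⟩ := h
  unfold wt
  refine Finset.prod_eq_zero (Finset.mem_univ j) ?_
  rw [ArithmeticFunction.moebius_eq_zero_of_not_squarefree hj]
  simp

private theorem wt_mul {k : ℕ} (s : Fin k → ℂ) (e g : Fin k → ℕ)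
    (h : ∀ j, Nat.Coprime (e j) (g j)) : wt s (fun j => e j * g j) = wt s e * wt s g := by
  unfold wt
  rw [← Finset.prod_mul_distrib]
  refine Finset.prod_congr rfl fun j _ => ?_
  rw [ArithmeticFunction.isMultiplicative_moebius.map_mul_of_coprime (h j)]
  rw [Nat.cast_mul, Complex.natCast_mul_natCast_cpow]
  push_cast
  ring

theorem V_V {k : ℕ} (s : Fin k → ℂ) (f : ℕ → ℂ) {a l n : ℕ} (ha : 1 ≤ a) (hl : 1 ≤ l)
    (_hn : 1 ≤ n) : V s a (V s l f) n = V s (a * l) f n := by
  classical
  by_cases hal : Nat.Coprime (a * l) n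
  · have han : Nat.Coprime a n := hal.coprime_mul_right
    have hln : Nat.Coprime l n := hal.coprime_mul_left
    have h1 : V s (a * l) f n = ∑ h ∈ (Fintype.piFinset (fun _ : Fin k => (a * l).divisors)).filter
        (fun h => ∀ j, Squarefree (h j)), wt s h * f (n * ∏ j, h j) := by
      unfold V
      rw [if_pos hal, Finset.sum_filter]
      refine Finset.sum_congr rfl fun h _ => ?_
      split_ifs with hs
      · rfl
      · have := wt_eq_zero s h hs
        unfold wt at this
        rw [this, zero_mul]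
    have h2 : V s a (V s l f) n = ∑ p ∈ ((Fintype.piFinset (fun _ : Fin k => a.divisors)) ×ˢ
        (Fintype.piFinset (fun _ : Fin k => l.divisors))).filter
        (fun p => (∀ j, Nat.Coprime (p.1 j) l) ∧ (∀ j, Squarefree (p.1 j)) ∧
          ∀ j, Squarefree (p.2 j)), wt s p.1 * wt s p.2 * f (n * ∏ j, (p.1 j * p.2 j)) := by
      rw [Finset.sum_filter, Finset.sum_product]
      conv_lhs => unfold V
      rw [if_pos han]
      refine Finset.sum_congr rfl fun e he => ?_
      have he0 : ∀ j, e j ≠ 0 := fun j =>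
        (Nat.pos_of_mem_divisors (Fintype.mem_piFinset.mp he j)).ne'
      have hcop : Nat.Coprime l (n * ∏ j, e j) ↔ ∀ j, Nat.Coprime (e j) l := by
        rw [Nat.coprime_mul_iff_right, Nat.coprime_comm (n := l) (m := ∏ j, e j),
          Nat.coprime_prod_left_iff]
        simp only [Finset.mem_univ, forall_const]
        exact ⟨fun h => h.2, fun h => ⟨hln, h⟩⟩
      by_cases hc : ∀ j, Nat.Coprime (e j) l
      · rw [if_pos (hcop.mpr hc), Finset.mul_sum]
        refine Finset.sum_congr rfl fun g _ => ?_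
        simp only
        split_ifs with h3
        · have h4 : n * ∏ j, (e j * g j) = n * (∏ j, e j) * ∏ j, g j := by
            rw [Finset.prod_mul_distrib, mul_assoc]
          rw [h4, ← mul_assoc]
          rfl
        · have h4 : wt s e * wt s g = 0 := by
            by_cases h5 : ∀ j, Squarefree (e j)
            · rw [wt_eq_zero s g (fun h6 => h3 ⟨hc, h5, h6⟩), mul_zero]
            · rw [wt_eq_zero s e h5, zero_mul]
          unfold wt at h4
          rw [← mul_assoc, h4, zero_mul]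
      · rw [if_neg (fun h => hc (hcop.mp h)), mul_zero]
        symm
        refine Finset.sum_eq_zero fun g _ => ?_
        rw [if_neg (fun h => hc h.1)]
    rw [h1, h2]
    refine Finset.sum_nbij' (fun p => fun j => p.1 j * p.2 j)
      (fun h => (fun j => h j / Nat.gcd (h j) l, fun j => Nat.gcd (h j) l)) ?_ ?_ ?_ ?_ ?_
    · rintro ⟨e, g⟩ hp
      simp only [Finset.mem_filter, Finset.mem_product, Fintype.mem_piFinset] at hp ⊢
      obtain ⟨⟨h3, h4⟩, h5, h6, h7⟩ := hp
      refine ⟨fun j => ?_, fun j => ?_⟩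
      · rw [Nat.mem_divisors]
        exact ⟨Nat.mul_dvd_mul (Nat.dvd_of_mem_divisors (h3 j)) (Nat.dvd_of_mem_divisors (h4 j)),
          by positivity⟩
      · exact (Nat.squarefree_mul ((h5 j).coprime_dvd_right
          (Nat.dvd_of_mem_divisors (h4 j)))).mpr ⟨h6 j, h7 j⟩
    · intro h hh
      simp only [Finset.mem_filter, Finset.mem_product, Fintype.mem_piFinset] at hh ⊢
      obtain ⟨h3, h4⟩ := hh
      have h5 : ∀ j, Nat.Coprime (h j / Nat.gcd (h j) l) l := by
        intro j
        have hg : Nat.gcd (h j) l ∣ h j := Nat.gcd_dvd_left _ _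
        have h0 : h j ≠ 0 := (Nat.pos_of_mem_divisors (h3 j)).ne'
        obtain ⟨q, hq⟩ := hg
        have hgpos : 0 < Nat.gcd (h j) l := Nat.gcd_pos_of_pos_right _ (by omega)
        have hqe : h j / Nat.gcd (h j) l = q := Nat.div_eq_of_eq_mul_right hgpos hq
        rw [hqe]
        have hsq := h4 j
        rw [hq] at hsq
        have hcp : Nat.Coprime (Nat.gcd (h j) l) q := Nat.coprime_of_squarefree_mul hsq
        have h6 : Nat.gcd q l ∣ Nat.gcd (h j) l :=
          Nat.dvd_gcd ((Nat.gcd_dvd_left q l).trans (Dvd.intro_left _ hq.symm)) (Nat.gcd_dvd_right q l)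
        have h7 : Nat.gcd q l ∣ Nat.gcd (Nat.gcd (h j) l) q :=
          Nat.dvd_gcd h6 (Nat.gcd_dvd_left q l)
        rw [hcp] at h7
        exact Nat.dvd_one.mp h7
      have h8 : ∀ j, h j / Nat.gcd (h j) l ∣ h j := fun j =>
        Nat.div_dvd_of_dvd (Nat.gcd_dvd_left _ _)
      refine ⟨⟨fun j => ?_, fun j => ?_⟩, h5, fun j => ?_, fun j => ?_⟩
      · rw [Nat.mem_divisors]
        refine ⟨?_, by omega⟩
        exact (h5 j).dvd_of_dvd_mul_right ((h8 j).trans (Nat.dvd_of_mem_divisors (h3 j)))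
      · rw [Nat.mem_divisors]
        exact ⟨Nat.gcd_dvd_right _ _, by omega⟩
      · exact (h4 j).squarefree_of_dvd (h8 j)
      · exact (h4 j).squarefree_of_dvd (Nat.gcd_dvd_left _ _)
    · rintro ⟨e, g⟩ hp
      simp only [Finset.mem_filter, Finset.mem_product, Fintype.mem_piFinset] at hp
      obtain ⟨⟨h3, h4⟩, h5, h6, h7⟩ := hp
      have h8 : ∀ j, Nat.gcd (e j * g j) l = g j := by
        intro j
        rw [(h5 j).gcd_mul_left_cancel (g j)]
        exact Nat.gcd_eq_left (Nat.dvd_of_mem_divisors (h4 j))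
      have h9 : ∀ j, 0 < g j := fun j => Nat.pos_of_mem_divisors (h4 j)
      simp only [h8, Prod.mk.injEq]
      exact ⟨funext fun j => Nat.mul_div_cancel _ (h9 j), trivial⟩
    · intro h hh
      simp only
      funext j
      exact Nat.div_mul_cancel (Nat.gcd_dvd_left _ _)
    · rintro ⟨e, g⟩ hp
      simp only [Finset.mem_filter, Finset.mem_product, Fintype.mem_piFinset] at hp
      obtain ⟨⟨h3, h4⟩, h5, h6, h7⟩ := hp
      simp only
      rw [wt_mul s e g (fun j => (h5 j).coprime_dvd_right (Nat.dvd_of_mem_divisors (h4 j)))]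
  · have h1 : V s (a * l) f n = 0 := by
      unfold V
      rw [if_neg hal]
    rw [h1]
    unfold V
    by_cases han : Nat.Coprime a n
    · rw [if_pos han]
      refine Finset.sum_eq_zero fun e _ => ?_
      have hln : ¬ Nat.Coprime l n := fun h => hal (Nat.Coprime.mul_left han h)
      rw [if_neg (fun h => hln (Nat.Coprime.coprime_mul_right_right h)), mul_zero]
    · rw [if_neg han]

theorem norm_V_le {k : ℕ} (s : Fin k → ℂ) {f : ℕ → ℂ} {η Bd : ℝ} (_hη : 0 ≤ η)
    (hs : ∀ j, η ≤ (s j).re) (hf : ∀ m : ℕ, 1 ≤ m → ‖f m‖ ≤ Bd * (m : ℝ) ^ η) {l n : ℕ}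
    (_hl : 1 ≤ l) (hn : 1 ≤ n) :
    ‖V s l f n‖ ≤ Bd * (n : ℝ) ^ η * (l.divisors.card : ℝ) ^ k := by
  classical
  have hB : 0 ≤ Bd := by
    have := hf 1 le_rfl
    rw [Nat.cast_one, Real.one_rpow, mul_one] at this
    exact (norm_nonneg _).trans this
  unfold V
  split_ifs with h
  · refine (norm_sum_le _ _).trans ?_
    have h1 : ∀ e ∈ Fintype.piFinset (fun _ : Fin k => l.divisors),
        ‖(∏ j, ((ArithmeticFunction.moebius (e j) : ℤ) : ℂ) * ((e j : ℕ) : ℂ) ^ (-(s j))) *
          f (n * ∏ j, e j)‖ ≤ Bd * (n : ℝ) ^ η := by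
      intro e he
      have he0 : ∀ j, 1 ≤ e j := fun j =>
        Nat.pos_of_mem_divisors (Fintype.mem_piFinset.mp he j)
      have h2 : ‖∏ j, ((ArithmeticFunction.moebius (e j) : ℤ) : ℂ) *
          ((e j : ℕ) : ℂ) ^ (-(s j))‖ ≤ ∏ j, ((e j : ℕ) : ℝ) ^ (-η) := by
        rw [norm_prod]
        refine Finset.prod_le_prod (fun _ _ => norm_nonneg _) fun j _ => ?_
        rw [norm_mul]
        have h3 : ‖((ArithmeticFunction.moebius (e j) : ℤ) : ℂ)‖ ≤ 1 := by
          rw [Complex.norm_intCast]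
          exact_mod_cast ArithmeticFunction.abs_moebius_le_one
        have h4 : ‖((e j : ℕ) : ℂ) ^ (-(s j))‖ ≤ ((e j : ℕ) : ℝ) ^ (-η) := by
          rw [Complex.norm_natCast_cpow_of_pos (he0 j)]
          refine Real.rpow_le_rpow_of_exponent_le (by exact_mod_cast he0 j) ?_
          rw [Complex.neg_re]
          linarith [hs j]
        calc _ ≤ 1 * ((e j : ℕ) : ℝ) ^ (-η) :=
              mul_le_mul h3 h4 (norm_nonneg _) zero_le_one
          _ = _ := one_mul _
      have h5 : 1 ≤ n * ∏ j, e j :=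
        Nat.one_le_iff_ne_zero.mpr (mul_ne_zero (by omega)
          (Finset.prod_ne_zero_iff.mpr fun j _ => by have := he0 j; omega))
      have h6 := hf _ h5
      rw [norm_mul]
      have h7 : ((n * ∏ j, e j : ℕ) : ℝ) ^ η = (n : ℝ) ^ η * ∏ j, ((e j : ℕ) : ℝ) ^ η := by
        rw [Nat.cast_mul, Nat.cast_prod, Real.mul_rpow (by positivity)
          (Finset.prod_nonneg fun j _ => by positivity),
          Real.finsetProd_rpow _ _ (fun j _ => by positivity)]
      rw [h7] at h6
      have h8 : (∏ j, ((e j : ℕ) : ℝ) ^ (-η)) * ∏ j, ((e j : ℕ) : ℝ) ^ η = 1 := by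
        rw [← Finset.prod_mul_distrib]
        refine Finset.prod_eq_one fun j _ => ?_
        have : (0 : ℝ) < (e j : ℕ) := by exact_mod_cast he0 j
        rw [← Real.rpow_add this]
        simp
      calc _ ≤ (∏ j, ((e j : ℕ) : ℝ) ^ (-η)) * (Bd * ((n : ℝ) ^ η * ∏ j, ((e j : ℕ) : ℝ) ^ η)) :=
            mul_le_mul h2 h6 (norm_nonneg _) (Finset.prod_nonneg fun j _ => by positivity)
        _ = ((∏ j, ((e j : ℕ) : ℝ) ^ (-η)) * ∏ j, ((e j : ℕ) : ℝ) ^ η) * (Bd * (n : ℝ) ^ η) := by
            ring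
        _ = _ := by rw [h8, one_mul]
    refine (Finset.sum_le_sum h1).trans ?_
    rw [Finset.sum_const, nsmul_eq_mul, Fintype.card_piFinset]
    simp only [Finset.prod_const, Finset.card_univ, Fintype.card_fin]
    push_cast
    rw [mul_comm]
  · rw [norm_zero]
    positivity

end Pool.Agent.MDSS
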