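import Pool.Agent.MDSS.BBasic
import Pool.Agent.MDSS.Op
import Pool.Agent.Poonen40.Psi

set_option autoImplicit false

open Complex Filter Topology
open Pool.Agent.TubeDS Pool.Agent.MDS

namespace Pool.Agent.MDSS

variable {k : ℕ}

/-- the sieving kernel applied to a family `f(1), f(2), ...` -/
noncomputable def U (c : ℕ → ℂ) (s : Fin k → ℂ) (w : ℂ) (f : ℕ → ℂ) (n : ℕ) : ℂ :=
  ∑' l : ℕ+, c l * ((l : ℕ) : ℂ) ^ (-(2 * w)) * V s l f n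

/-- A summable majorant of the kernel, uniform in everything. -/
theorem exists_majorant {c : ℕ → ℂ} {κ C : ℝ} (hc : ∀ l : ℕ, 1 ≤ l → ‖c l‖ ≤ C * (l : ℝ) ^ κ) (k : ℕ)
    {σ₀ : ℝ} (hσ : 1 < 2 * σ₀ - κ) : ∃ b : ℕ+ → ℝ, Summable b ∧ (∀ l, 0 ≤ b l) ∧
      ∀ (w : ℂ) (l : ℕ+), σ₀ ≤ w.re →
        ‖c l‖ * ‖((l : ℕ) : ℂ) ^ (-(2 * w))‖ * (((l : ℕ).divisors.card : ℝ)) ^ k ≤ b l := by
  set ε : ℝ := (2 * σ₀ - κ - 1) / (2 * (k + 1)) with hε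
  have hk : (0 : ℝ) < k + 1 := by positivity
  have hε0 : 0 < ε := by rw [hε]; apply div_pos <;> linarith
  have hkε : k * ε ≤ (2 * σ₀ - κ - 1) / 2 := by
    rw [hε]
    have : (k : ℝ) * ((2 * σ₀ - κ - 1) / (2 * (k + 1))) = (k / (k + 1)) * ((2 * σ₀ - κ - 1) / 2) := by
      field_simp
    rw [this]
    have h1 : (k : ℝ) / (k + 1) ≤ 1 := by rw [div_le_one hk]; linarith
    have h2 : 0 ≤ (2 * σ₀ - κ - 1) / 2 := by linarith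
    nlinarith
  obtain ⟨D, hD0, hD⟩ := Pool.Agent.Poonen40.card_divisors_le hε0
  refine ⟨fun l => |C| * D ^ k * ((l : ℕ) : ℝ) ^ (κ - 2 * σ₀ + k * ε),
    (summable_pnat (by linarith)).mul_left _, fun l => by positivity, ?_⟩
  intro w l hw
  have hl : (0 : ℝ) < ((l : ℕ) : ℝ) := by exact_mod_cast l.pos
  have hl1 : (1 : ℝ) ≤ ((l : ℕ) : ℝ) := by exact_mod_cast l.pos
  have h1 := norm_weight_le hc w l
  have h2 : (((l : ℕ).divisors.card : ℝ)) ^ k ≤ D ^ k * ((l : ℕ) : ℝ) ^ (k * ε) := by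
    calc (((l : ℕ).divisors.card : ℝ)) ^ k ≤ (D * ((l : ℕ) : ℝ) ^ ε) ^ k := by
          gcongr
          exact hD _ l.pos.ne'
      _ = D ^ k * ((l : ℕ) : ℝ) ^ (k * ε) := by
          rw [mul_pow, ← Real.rpow_natCast (((l : ℕ) : ℝ) ^ ε), ← Real.rpow_mul hl.le]
          ring_nf
  have h3 : maj κ C w.re l ≤ |C| * ((l : ℕ) : ℝ) ^ (κ - 2 * σ₀) := by
    unfold maj
    gcongr
  have h4 : ‖c l‖ * ‖((l : ℕ) : ℂ) ^ (-(2 * w))‖ ≤ |C| * ((l : ℕ) : ℝ) ^ (κ - 2 * σ₀) := h1.trans h3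
  show _ ≤ |C| * D ^ k * ((l : ℕ) : ℝ) ^ (κ - 2 * σ₀ + k * ε)
  rw [Real.rpow_add hl]
  calc ‖c l‖ * ‖((l : ℕ) : ℂ) ^ (-(2 * w))‖ * (((l : ℕ).divisors.card : ℝ)) ^ k
      ≤ (|C| * ((l : ℕ) : ℝ) ^ (κ - 2 * σ₀)) * (D ^ k * ((l : ℕ) : ℝ) ^ (k * ε)) :=
        mul_le_mul h4 h2 (by positivity) (by positivity)
    _ = _ := by ring

/-- bound of the terms -/
theorem norm_term_U_le {c : ℕ → ℂ} {b : ℕ+ → ℝ} {w : ℂ}
    (hb : ∀ l : ℕ+, ‖c l‖ * ‖((l : ℕ) : ℂ) ^ (-(2 * w))‖ * (((l : ℕ).divisors.card : ℝ)) ^ k ≤ b l)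
    {s : Fin k → ℂ} {η B : ℝ} (hη : 0 ≤ η) (hs : ∀ j, η ≤ (s j).re) {f : ℕ → ℂ}
    (hf : ∀ m : ℕ, 1 ≤ m → ‖f m‖ ≤ B * (m : ℝ) ^ η) {n : ℕ} (hn : 1 ≤ n) (l : ℕ+) :
    ‖c l * ((l : ℕ) : ℂ) ^ (-(2 * w)) * V s l f n‖ ≤ b l * (B * (n : ℝ) ^ η) := by
  have hB : 0 ≤ B * (n : ℝ) ^ η := (norm_nonneg _).trans (hf n hn)
  have h1 := norm_V_le s hη hs hf l.pos hn
  rw [norm_mul, norm_mul]
  calc ‖c l‖ * ‖((l : ℕ) : ℂ) ^ (-(2 * w))‖ * ‖V s l f n‖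
      ≤ ‖c l‖ * ‖((l : ℕ) : ℂ) ^ (-(2 * w))‖ * (B * (n : ℝ) ^ η * (((l : ℕ).divisors.card : ℝ)) ^ k) := by
        gcongr
    _ = (‖c l‖ * ‖((l : ℕ) : ℂ) ^ (-(2 * w))‖ * (((l : ℕ).divisors.card : ℝ)) ^ k) * (B * (n : ℝ) ^ η) := by
        ring
    _ ≤ _ := by gcongr; exact hb l

theorem summable_U {c : ℕ → ℂ} {κ C : ℝ} (hc : ∀ l : ℕ, 1 ≤ l → ‖c l‖ ≤ C * (l : ℝ) ^ κ)
    {w : ℂ} (hσ : 1 < 2 * w.re - κ) {s : Fin k → ℂ} {η B : ℝ} (hη : 0 ≤ η) (hs : ∀ j, η ≤ (s j).re)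
    {f : ℕ → ℂ} (hf : ∀ m : ℕ, 1 ≤ m → ‖f m‖ ≤ B * (m : ℝ) ^ η) {n : ℕ} (hn : 1 ≤ n) :
    Summable (fun l : ℕ+ => c l * ((l : ℕ) : ℂ) ^ (-(2 * w)) * V s l f n) := by
  obtain ⟨b, hb, hb0, hbb⟩ := exists_majorant hc k hσ
  exact Summable.of_norm_bounded (hb.mul_right _)
    (norm_term_U_le (fun l => hbb w l le_rfl) hη hs hf hn)

/-- The kernel is bounded, uniformly. -/
theorem norm_U_le {c : ℕ → ℂ} {κ C : ℝ} (hc : ∀ l : ℕ, 1 ≤ l → ‖c l‖ ≤ C * (l : ℝ) ^ κ) (k : ℕ)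
    {σ₀ : ℝ} (hσ : 1 < 2 * σ₀ - κ) : ∃ K : ℝ, 0 ≤ K ∧ ∀ (w : ℂ) (s : Fin k → ℂ) (η B : ℝ) (f : ℕ → ℂ)
      (n : ℕ), σ₀ ≤ w.re → 0 ≤ η → (∀ j, η ≤ (s j).re) → (∀ m : ℕ, 1 ≤ m → ‖f m‖ ≤ B * (m : ℝ) ^ η) →
      1 ≤ n → ‖U c s w f n‖ ≤ K * (B * (n : ℝ) ^ η) := by
  obtain ⟨b, hb, hb0, hbb⟩ := exists_majorant hc k hσ
  refine ⟨∑' l, b l, tsum_nonneg hb0, ?_⟩
  intro w s η B f n hw hη hs hf hn
  have h1 := norm_term_U_le (fun l => hbb w l hw) hη hs hf hn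
  have h2 : Summable (fun l : ℕ+ => ‖c l * ((l : ℕ) : ℂ) ^ (-(2 * w)) * V s l f n‖) :=
    Summable.of_nonneg_of_le (fun _ => norm_nonneg _) h1 (hb.mul_right _)
  unfold U
  refine (norm_tsum_le_tsum_norm h2).trans ?_
  rw [← tsum_mul_right]
  exact Summable.tsum_le_tsum h1 h2 (hb.mul_right _)

/-- `V` commutes with convergent sums -/
theorem V_tsum {α : Type*} {s : Fin k → ℂ} {a n : ℕ} {g : α → ℕ → ℂ} (hn : 1 ≤ n)
    (hg : ∀ m : ℕ, 1 ≤ m → Summable (fun l => g l m)) :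
    V s a (fun m => ∑' l, g l m) n = ∑' l, V s a (g l) n := by
  unfold V
  split_ifs with h
  · rw [Summable.tsum_finsetSum]
    · refine Finset.sum_congr rfl fun e he => ?_
      rw [tsum_mul_left]
    · intro e he
      apply Summable.mul_left
      apply hg
      have he0 : ∀ j, 0 < e j := fun j => Nat.pos_of_mem_divisors (Fintype.mem_piFinset.mp he j)
      exact Nat.mul_pos hn (Finset.prod_pos fun j _ => he0 j)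
  · simp

theorem V_mul_left (s : Fin k → ℂ) (a n : ℕ) (α : ℂ) (g : ℕ → ℂ) :
    V s a (fun m => α * g m) n = α * V s a g n := by
  unfold V
  split_ifs with h
  · rw [Finset.mul_sum]
    refine Finset.sum_congr rfl fun e _ => ?_
    ring
  · simp

theorem V_congr {s : Fin k → ℂ} {a n : ℕ} {g g' : ℕ → ℂ} (hn : 1 ≤ n) (h : ∀ m, 1 ≤ m → g m = g' m) :
    V s a g n = V s a g' n := by
  unfold V
  split_ifs with hc
  · refine Finset.sum_congr rfl fun e he => ?_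
    have he0 : ∀ j, 0 < e j := fun j => Nat.pos_of_mem_divisors (Fintype.mem_piFinset.mp he j)
    rw [h _ (Nat.mul_pos hn (Finset.prod_pos fun j _ => he0 j))]
  · rfl

/-- The kernels of `c` and of its Dirichlet inverse are inverse to each other. -/
theorem U_U {c c' : ℕ → ℂ} {κ C κ' C' : ℝ} (hc : ∀ l : ℕ, 1 ≤ l → ‖c l‖ ≤ C * (l : ℝ) ^ κ)
    (hc' : ∀ l : ℕ, 1 ≤ l → ‖c' l‖ ≤ C' * (l : ℝ) ^ κ')
    (hinv : ∀ n : ℕ, 1 ≤ n → ∑ a ∈ n.divisorsAntidiagonal, c a.1 * c' a.2 = if n = 1 then 1 else 0)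
    {w : ℂ} (hσ : 1 < 2 * w.re - κ) (hσ' : 1 < 2 * w.re - κ') {s : Fin k → ℂ} {η B : ℝ} (hη : 0 ≤ η)
    (hs : ∀ j, η ≤ (s j).re) {f : ℕ → ℂ} (hf : ∀ m : ℕ, 1 ≤ m → ‖f m‖ ≤ B * (m : ℝ) ^ η) {n : ℕ}
    (hn : 1 ≤ n) : U c' s w (U c s w f) n = f n := by
  obtain ⟨b, hb, hb0, hbb⟩ := exists_majorant hc k hσ
  obtain ⟨b', hb', hb0', hbb'⟩ := exists_majorant hc' k hσ'
  -- the double family
  set T : ℕ+ × ℕ+ → ℂ := fun p => (c p.1 * c' p.2) * (((p.1 * p.2 : ℕ+) : ℕ) : ℂ) ^ (-(2 * w)) *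
    V s (p.1 * p.2 : ℕ+) f n with hT
  have hinner : ∀ (a : ℕ+), c' a * ((a : ℕ) : ℂ) ^ (-(2 * w)) * V s a (U c s w f) n =
      ∑' l : ℕ+, T (l, a) := by
    intro a
    have h1 : V s a (U c s w f) n = ∑' l : ℕ+, V s a (fun m => c l * ((l : ℕ) : ℂ) ^ (-(2 * w)) * V s l f m) n := by
      unfold U
      exact V_tsum hn fun m hm => summable_U hc hσ hη hs hf hm
    rw [h1, ← tsum_mul_left]
    refine tsum_congr fun l => ?_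
    rw [V_mul_left s a n (c l * ((l : ℕ) : ℂ) ^ (-(2 * w))) (fun m => V s l f m),
      show V s a (fun m => V s l f m) n = V s (a * l) f n from V_V s f a.pos l.pos hn]
    simp only [hT]
    have h2 : (((l * a : ℕ+) : ℕ) : ℂ) ^ (-(2 * w)) = ((l : ℕ) : ℂ) ^ (-(2 * w)) * ((a : ℕ) : ℂ) ^ (-(2 * w)) := by
      rw [PNat.mul_coe, Nat.cast_mul, natCast_mul_natCast_cpow]
    rw [h2, PNat.mul_coe, Nat.mul_comm (a : ℕ) (l : ℕ)]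
    ring
  have hTb : ∀ p : ℕ+ × ℕ+, ‖T p‖ ≤ b p.1 * (b' p.2 * (B * (n : ℝ) ^ η)) := by
    rintro ⟨l, a⟩
    have h3 : ∀ m : ℕ, 1 ≤ m → ‖V s l f m‖ ≤ (B * (((l : ℕ).divisors.card : ℝ)) ^ k) * (m : ℝ) ^ η := by
      intro m hm
      refine (norm_V_le s hη hs hf l.pos hm).trans (le_of_eq (by ring))
    have h4 := norm_V_le s hη hs h3 a.pos hn
    have h5 : V s (l * a : ℕ+) f n = V s a (V s l f) n := by
      rw [V_V s f a.pos l.pos hn, PNat.mul_coe, Nat.mul_comm]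
    have h6 := hbb w l le_rfl
    have h7 := hbb' w a le_rfl
    have hBn : 0 ≤ B * (n : ℝ) ^ η := (norm_nonneg _).trans (hf n hn)
    simp only [hT]
    rw [h5, PNat.mul_coe, Nat.cast_mul, natCast_mul_natCast_cpow]
    simp only [norm_mul]
    calc ‖c l‖ * ‖c' a‖ * (‖((l : ℕ) : ℂ) ^ (-(2 * w))‖ * ‖((a : ℕ) : ℂ) ^ (-(2 * w))‖) * ‖V s a (V s l f) n‖
        ≤ ‖c l‖ * ‖c' a‖ * (‖((l : ℕ) : ℂ) ^ (-(2 * w))‖ * ‖((a : ℕ) : ℂ) ^ (-(2 * w))‖) *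
          (B * (((l : ℕ).divisors.card : ℝ)) ^ k * (n : ℝ) ^ η * (((a : ℕ).divisors.card : ℝ)) ^ k) := by
          gcongr
      _ = (‖c l‖ * ‖((l : ℕ) : ℂ) ^ (-(2 * w))‖ * (((l : ℕ).divisors.card : ℝ)) ^ k) *
          ((‖c' a‖ * ‖((a : ℕ) : ℂ) ^ (-(2 * w))‖ * (((a : ℕ).divisors.card : ℝ)) ^ k) * (B * (n : ℝ) ^ η)) := by ring
      _ ≤ b l * (b' a * (B * (n : ℝ) ^ η)) := by
          gcongr
          exact hb0 l
  have hTs : Summable T := by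
    have hBn : 0 ≤ B * (n : ℝ) ^ η := (norm_nonneg _).trans (hf n hn)
    refine Summable.of_norm_bounded (g := fun p : ℕ+ × ℕ+ => b p.1 * (b' p.2 * (B * (n : ℝ) ^ η))) ?_ hTb
    exact Summable.mul_of_nonneg hb (hb'.mul_right _) hb0 (fun a => mul_nonneg (hb0' a) hBn)
  have h1 : U c' s w (U c s w f) n = ∑' a : ℕ+, ∑' l : ℕ+, T (l, a) := by
    conv_lhs => unfold U
    exact tsum_congr hinner
  have h2 : ∑' a : ℕ+, ∑' l : ℕ+, T (l, a) = ∑' p, T p := by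
    rw [← (Equiv.prodComm ℕ+ ℕ+).tsum_eq T]
    have hTs' : Summable (fun p : ℕ+ × ℕ+ => T (Equiv.prodComm ℕ+ ℕ+ p)) :=
      (Equiv.prodComm ℕ+ ℕ+).summable_iff.mpr hTs
    rw [hTs'.tsum_prod]
    rfl
  rw [h1, h2, ← sigmaAntidiagonalEquivProd.tsum_eq T]
  have hTs'' : Summable (fun p => T (sigmaAntidiagonalEquivProd p)) :=
    sigmaAntidiagonalEquivProd.summable_iff.mpr hTs
  rw [hTs''.tsum_sigma]
  have h3 : ∀ m : ℕ+, ∑' p : Nat.divisorsAntidiagonal m, T (sigmaAntidiagonalEquivProd ⟨m, p⟩) =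
      if m = 1 then f n else 0 := by
    intro m
    rw [tsum_fintype]
    have h4 : ∀ p : Nat.divisorsAntidiagonal m, T (sigmaAntidiagonalEquivProd ⟨m, p⟩) =
        (c p.1.1 * c' p.1.2) * (((m : ℕ) : ℂ) ^ (-(2 * w)) * V s m f n) := by
      intro p
      have hp := Nat.mem_divisorsAntidiagonal.mp p.2
      have e1 : (((sigmaAntidiagonalEquivProd ⟨m, p⟩).1 : ℕ+) : ℕ) = p.1.1 := rfl
      have e2 : (((sigmaAntidiagonalEquivProd ⟨m, p⟩).2 : ℕ+) : ℕ) = p.1.2 := rfl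
      simp only [hT]
      rw [PNat.mul_coe, e1, e2, hp.1]
      ring
    simp_rw [h4]
    rw [← Finset.sum_mul]
    have h5 : ∑ p : Nat.divisorsAntidiagonal m, c p.1.1 * c' p.1.2 =
        ∑ a ∈ (m : ℕ).divisorsAntidiagonal, c a.1 * c' a.2 :=
      Finset.sum_coe_sort (m : ℕ).divisorsAntidiagonal (fun a => c a.1 * c' a.2)
    rw [h5, hinv m m.pos]
    by_cases hm : m = 1
    · subst hm
      rw [if_pos rfl, if_pos (by simp)]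
      simp [V_one]
    · rw [if_neg hm, if_neg (by simpa using hm), zero_mul]
  simp_rw [h3]
  rw [tsum_ite_eq]

end Pool.Agent.MDSS
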