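import Mathlib

/-!
# Landau's theorem for sums of powers with nonnegative coefficients
-/

set_option autoImplicit false

open Complex Filter Topology
open scoped ComplexOrder

namespace Pool.Agent.MDSS

section

variable {ι : Type*}

/-- the coefficients, as a sequence -/
private noncomputable def fib (b : ι → ℝ) (lam : ι → ℕ) (n : ℕ) : ℂ :=
  ∑' i : lam ⁻¹' {n}, (b i : ℂ)

private theorem fib_nonneg {b : ι → ℝ} (hb : ∀ i, 0 ≤ b i) (lam : ι → ℕ) : 0 ≤ fib b lam := by
  intro n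
  unfold fib
  exact tsum_nonneg fun i => by
    rw [← Complex.ofReal_zero, Complex.real_le_real]
    exact hb i

private theorem summable_cpow {b : ι → ℝ} (hb : ∀ i, 0 ≤ b i) {lam : ι → ℕ}
    (hlam : ∀ i, 1 ≤ lam i) {w : ℂ} (h : Summable fun i => b i * (lam i : ℝ) ^ (-w.re)) :
    Summable fun i => (b i : ℂ) * (lam i : ℂ) ^ (-w) := by
  refine Summable.of_norm_bounded h fun i => le_of_eq ?_
  rw [norm_mul, Complex.norm_real, Real.norm_of_nonneg (hb i),
    norm_natCast_cpow_of_pos (hlam i), neg_re]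

private theorem hasSum_fib {b : ι → ℝ} (hb : ∀ i, 0 ≤ b i) {lam : ι → ℕ}
    (hlam : ∀ i, 1 ≤ lam i) {w : ℂ} (h : Summable fun i => b i * (lam i : ℝ) ^ (-w.re)) :
    HasSum (LSeries.term (fib b lam) w) (∑' i, (b i : ℂ) * (lam i : ℂ) ^ (-w)) := by
  have h1 := (summable_cpow hb hlam h).hasSum.tsum_fiberwise lam
  have h2 : (fun n : ℕ => ∑' i : lam ⁻¹' {n}, (b i : ℂ) * (lam i : ℂ) ^ (-w)) =
      LSeries.term (fib b lam) w := by
    funext n
    rcases Nat.eq_zero_or_pos n with rfl | hn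
    · rw [LSeries.term_zero]
      have : IsEmpty (lam ⁻¹' {0} : Set ι) := by
        refine ⟨fun i => ?_⟩
        have h3 := i.2
        have h4 := hlam i
        simp only [Set.mem_preimage, Set.mem_singleton_iff] at h3
        omega
      rw [tsum_empty]
    · rw [LSeries.term_of_ne_zero hn.ne', div_eq_mul_inv, ← Complex.cpow_neg]
      unfold fib
      rw [← tsum_mul_right]
      refine tsum_congr fun i => ?_
      have h3 : lam i = n := i.2
      rw [h3]
  rw [h2] at h1
  exact h1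

/-- Landau: the continuation to the right half plane is nonnegative on the real axis. -/
theorem landau_nonneg {b : ι → ℝ} (hb : ∀ i, 0 ≤ b i) {lam : ι → ℕ}
    (hlam : ∀ i, 1 ≤ lam i) {θ₀ θ₁ : ℝ}
    (hsum : ∀ σ : ℝ, θ₀ < σ → Summable fun i => b i * (lam i : ℝ) ^ (-σ)) {H : ℂ → ℂ}
    (hH : DifferentiableOn ℂ H {w | θ₁ < w.re})
    (heq : ∀ w : ℂ, θ₀ < w.re → H w = ∑' i, (b i : ℂ) * (lam i : ℂ) ^ (-w)) {σ : ℝ}
    (hσ : θ₁ < σ) : 0 ≤ H σ := by
  set x : ℝ := max θ₀ σ + 1 with hx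
  have hx0 : θ₀ < x := by have := le_max_left θ₀ σ; linarith
  have hxσ : σ < x := by have := le_max_right θ₀ σ; linarith
  have hx1 : θ₁ < x := hσ.trans hxσ
  -- the series as an L-series
  have hL : ∀ w : ℂ, θ₀ < w.re → LSeriesHasSum (fib b lam) w (H w) := by
    intro w hw
    rw [heq w hw]
    exact hasSum_fib hb hlam (hsum _ hw)
  have habs : LSeries.abscissaOfAbsConv (fib b lam) < x := by
    have h1 : LSeriesSummable (fib b lam) (((θ₀ + x) / 2 : ℝ) : ℂ) :=
      (hL _ (by rw [ofReal_re]; linarith)).summable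
    refine h1.abscissaOfAbsConv_le.trans_lt ?_
    rw [ofReal_re]
    exact_mod_cast (by linarith : (θ₀ + x) / 2 < x)
  have hev : H =ᶠ[𝓝 (x : ℂ)] LSeries (fib b lam) := by
    have : {w : ℂ | θ₀ < w.re} ∈ 𝓝 (x : ℂ) :=
      (isOpen_lt continuous_const continuous_re).mem_nhds (by
        simp only [Set.mem_ofPred_eq, ofReal_re]; exact hx0)
    filter_upwards [this] with w hw
    exact (hL w hw).LSeries_eq.symm
  have hder : ∀ n : ℕ, 0 ≤ iteratedDeriv n (fun w => H (-w)) (-(x : ℂ)) := by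
    intro n
    rw [iteratedDeriv_comp_neg, neg_neg, hev.iteratedDeriv_eq n, smul_eq_mul]
    exact LSeries.iteratedDeriv_alternating (fib_nonneg hb lam) habs n
  have hd : DifferentiableOn ℂ (fun w => H (-w)) (Metric.ball (-(x : ℂ)) (x - θ₁)) := by
    refine hH.comp differentiable_neg.differentiableOn ?_
    intro w hw
    simp only [Set.mem_ofPred_eq, neg_re]
    rw [Metric.mem_ball, Complex.dist_eq] at hw
    have h1 := (Complex.re_le_norm (w - -(x : ℂ))).trans_lt hw
    simp only [sub_re, neg_re, ofReal_re] at h1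
    linarith
  have hz1 : -(x : ℂ) ≤ -(σ : ℂ) := by
    rw [neg_le_neg_iff, Complex.real_le_real]
    exact hxσ.le
  have hz2 : -(σ : ℂ) ∈ Metric.ball (-(x : ℂ)) (x - θ₁) := by
    rw [Metric.mem_ball, Complex.dist_eq]
    have h1 : -(σ : ℂ) - -(x : ℂ) = ((x - σ : ℝ) : ℂ) := by push_cast; ring
    rw [h1, Complex.norm_real, Real.norm_of_nonneg (by linarith)]
    linarith
  have := DifferentiableOn.nonneg_of_iteratedDeriv_nonneg hd hder hz1 hz2
  simpa using this

/-- Landau: the finite sums are bounded by the continuation. -/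
theorem landau_le {b : ι → ℝ} (hb : ∀ i, 0 ≤ b i) {lam : ι → ℕ}
    (hlam : ∀ i, 1 ≤ lam i) {θ₀ θ₁ : ℝ}
    (hsum : ∀ σ : ℝ, θ₀ < σ → Summable fun i => b i * (lam i : ℝ) ^ (-σ)) {H : ℂ → ℂ}
    (hH : DifferentiableOn ℂ H {w | θ₁ < w.re})
    (heq : ∀ w : ℂ, θ₀ < w.re → H w = ∑' i, (b i : ℂ) * (lam i : ℂ) ^ (-w)) {σ : ℝ}
    (hσ : θ₁ < σ) (F : Finset ι) : ∑ i ∈ F, b i * (lam i : ℝ) ^ (-σ) ≤ ‖H σ‖ := by
  classical
  set b' : ι → ℝ := fun i => if i ∈ F then 0 else b i with hb'
  have hb'0 : ∀ i, 0 ≤ b' i := by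
    intro i
    simp only [hb']
    split_ifs
    · exact le_rfl
    · exact hb i
  have hb'le : ∀ i, b' i ≤ b i := by
    intro i
    simp only [hb']
    split_ifs
    · exact hb i
    · exact le_rfl
  have hsum' : ∀ σ : ℝ, θ₀ < σ → Summable fun i => b' i * (lam i : ℝ) ^ (-σ) := by
    intro σ hσ
    refine Summable.of_nonneg_of_le (fun i => mul_nonneg (hb'0 i) (by positivity)) (fun i => ?_)
      (hsum σ hσ)
    exact mul_le_mul_of_nonneg_right (hb'le i) (by positivity)
  have hP : Differentiable ℂ (fun w : ℂ => ∑ i ∈ F, (b i : ℂ) * (lam i : ℂ) ^ (-w)) := by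
    apply Differentiable.fun_sum
    intro i _
    apply Differentiable.const_mul
    have h0 : (lam i : ℂ) ≠ 0 := by
      have := hlam i
      exact_mod_cast (by omega : lam i ≠ 0)
    exact differentiable_neg.const_cpow (Or.inl h0)
  have h1 := landau_nonneg hb'0 hlam hsum'
    (H := fun w => H w - ∑ i ∈ F, (b i : ℂ) * (lam i : ℂ) ^ (-w)) (hH.sub hP.differentiableOn) (by
      intro w hw
      have hs := summable_cpow hb hlam (hsum _ hw)
      rw [heq w hw, ← hs.sum_add_tsum_compl (s := F), add_sub_cancel_left]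
      have h2 : ∀ i, (b' i : ℂ) * (lam i : ℂ) ^ (-w) =
          Set.indicator ((F : Set ι)ᶜ) (fun i => (b i : ℂ) * (lam i : ℂ) ^ (-w)) i := by
        intro i
        simp only [hb', Set.indicator]
        by_cases hi : i ∈ F
        · simp [hi]
        · simp [hi]
      simp_rw [h2]
      exact tsum_subtype ((F : Set ι)ᶜ) (fun i => (b i : ℂ) * (lam i : ℂ) ^ (-w))) hσ
  have h3 : ((∑ i ∈ F, b i * (lam i : ℝ) ^ (-σ) : ℝ) : ℂ) =
      ∑ i ∈ F, (b i : ℂ) * (lam i : ℂ) ^ (-(σ : ℂ)) := by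
    push_cast
    refine Finset.sum_congr rfl fun i _ => ?_
    rw [Complex.ofReal_cpow (by positivity)]
    push_cast
    ring
  rw [← h3, sub_nonneg] at h1
  have h4 : ∑ i ∈ F, b i * (lam i : ℝ) ^ (-σ) ≤ (H σ).re := by
    have := (Complex.le_def.mp h1).1
    rwa [ofReal_re] at this
  exact h4.trans (Complex.re_le_norm _)

end

end Pool.Agent.MDSS
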