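import Pool.Agent.MDSS.Family
import Pool.Agent.MDSLin.Main

set_option autoImplicit false

open Complex Filter Topology MeasureTheory
open Pool.Agent.TubeDS Pool.Agent.MDS Pool.Agent.MDSM Pool.Agent.MDSLin

namespace Pool.Agent.MDSS

variable {k : ℕ}

theorem FlatFam.mono {f : ℕ → (Option (Fin k) → ℂ) → ℂ} {θ ε ε' b η : ℝ} {Φ : ℕ → (Fin k → ℝ) → ℂ → ℂ}
    (h : FlatFam k f θ ε b η Φ) (hε : ε' ≤ ε) : FlatFam k f θ ε' b η Φ := by
  obtain ⟨C, N, hC, hb⟩ := h.bd
  exact ⟨fun n hn t => (h.diff n hn t).mono fun w hw => ⟨by have := hw.1; linarith, hw.2⟩,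
    ⟨C, N, hC, fun n hn t w h1 h2 => hb n hn t w (by linarith) h2⟩, h.eq⟩

/-- the tube theorem for a flat family -/
theorem FlatFam.tube {f : ℕ → (Option (Fin k) → ℂ) → ℂ} {θ ε b η : ℝ} {Φ : ℕ → (Fin k → ℝ) → ℂ → ℂ}
    (h : FlatFam k f θ ε b η Φ) {r : ℝ} (hθ : θ < r) (hb : r < b) {M : ℕ}
    (hM : 1 ≤ M) {O : Set (Option (Fin k) → ℝ)} (hO : IsOpen O) (hOc : Convex ℝ O)
    (hfd : DifferentiableOn ℂ (f M) (Pool.Agent.TubeDS.tube O)) (hfb : PolyBdd O (f M))
    (hx : xp (half k) r ∈ O) {c' : ℝ} (hc' : θ - ε < c') (hc'2 : c' ≤ r) :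
    ∃ C : Set (Option (Fin k) → ℝ), IsOpen C ∧ Convex ℝ C ∧ O ⊆ C ∧
      (∀ u, c' < u → u ≤ r → xp (half k) u ∈ C) ∧
      ∃ G' : (Option (Fin k) → ℂ) → ℂ, DifferentiableOn ℂ G' (Pool.Agent.TubeDS.tube C) ∧
        Set.EqOn G' (f M) (Pool.Agent.TubeDS.tube O) ∧ PolyBdd C G' := by
  obtain ⟨C, N, hC, hbd⟩ := h.bd
  have hx0 : xp (half k) r none = r := rfl
  obtain ⟨D, hDo, hDc, hOD, hDu, hG⟩ := flat_tube hO hOc.isPreconnected hfd hfb hx (c' := c') hc'2 (N := N)
    (N' := N + (k + 1)) (B := fun t => C * (1 + ‖t‖) ^ N * (M : ℝ) ^ η) (fun t => by positivity) (by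
      have h1 := (integrable_pow_sup k (Nat.lt_succ_self k)).const_mul (C * (M : ℝ) ^ η)
      refine h1.congr (Filter.Eventually.of_forall fun t => ?_)
      simp only
      rw [pow_add, mul_inv]
      have : (1 + ‖t‖) ^ N ≠ 0 := by positivity
      field_simp) (by
      refine Filter.Eventually.of_forall fun t => ⟨Φ M t, ?_, ?_, ?_⟩
      · refine (h.diff M hM t).mono ?_
        rintro w ⟨h1, h2⟩
        rw [hx0] at h2
        exact ⟨by linarith, by linarith⟩
      · intro v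
        have h2 : ((xp (half k) r none : ℝ) + v * I : ℂ).re = r := by
          simp [hx0]
        exact h.eq M hM t _ (by rw [h2]; exact hθ) (by rw [h2]; exact hb)
      · intro w h1 h2
        rw [hx0] at h2
        refine (hbd M hM t w (by linarith) (by linarith)).trans (le_of_eq ?_)
        ring)
  refine ⟨D, hDo, hDc, hOD, fun u hu1 hu2 => ?_, hG⟩
  have := hDu u hu1 hu2
  rwa [rep_xp] at this

theorem two_le_c1 (k : ℕ) : 2 ≤ c1 (half k) := by
  unfold c1
  have : 0 ≤ ∑ j : Fin k, (3 / 2 + |half k j|) := Finset.sum_nonneg fun j _ => by positivity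
  linarith

/-- far to the right -/
theorem extendsTo_far {M : ℕ} {u : ℝ} (hu : c1 (half k) ≤ u) :
    ExtendsTo k M ((fun _ => 1 / 2, u) : (Fin k → ℝ) × ℝ) := by
  obtain ⟨D, hD, _⟩ := good_of_extension (M := M) (isOpen_R0 k) (convex_R0 k) subset_rfl
    (differentiableOn_Fc k M) (polyBdd_Fc k M) (fun _ _ => rfl)
  have := hD.extendsTo (hD.subR (xp_mem_R0 (σ := half k) (c := u) hu))
  rwa [toP_xp] at this

theorem FlatFam.extendsTo {θ ε b η : ℝ} {Φ : ℕ → (Fin k → ℝ) → ℂ → ℂ}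
    (h : FlatFam k (Fc k) θ ε b η Φ) (hε : 0 < ε) (hθ : θ ≤ c1 (half k)) (hb : c1 (half k) + 1 < b)
    {M : ℕ} (hM : 1 ≤ M) {u : ℝ} (hu : θ - ε < u) :
    ExtendsTo k M ((fun _ => 1 / 2, u) : (Fin k → ℝ) × ℝ) := by
  rcases le_or_gt (c1 (half k)) u with hc | hc
  · exact extendsTo_far hc
  obtain ⟨D, hDo, hDc, hRD, hDu, G, hGd, hGe, hGb⟩ := h.tube (r := c1 (half k) + 1) (by linarith) hb hM
    (isOpen_R0 k) (convex_R0 k)
    (differentiableOn_Fc k M) (polyBdd_Fc k M) (xp_mem_R0 (by linarith)) (c' := (θ - ε + u) / 2)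
    (by linarith) (by linarith)
  obtain ⟨D', hD', hDD'⟩ := good_of_extension hDo hDc hRD hGd hGb hGe
  have := hD'.extendsTo (hDD' (hDu u (by linarith) (by linarith)))
  rwa [toP_xp] at this

/-- Lindelöf on average from the continuation for one more variable. -/
theorem momentBound_one {m : ℕ} (hm : 1 ≤ m) {c c' : ℕ → ℂ} (hc : Moderate c) (hc' : Moderate c')
    (hinv : ∀ n : ℕ, 1 ≤ n → ∑ a ∈ n.divisorsAntidiagonal, c a.1 * c' a.2 = if n = 1 then 1 else 0)
    (h : UniformC c (m + m)) : MomentBound (m + m) 1 := by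
  set k : ℕ := m + m with hk
  have hc1 := two_le_c1 k
  obtain ⟨ε, hε, hfam⟩ := flat_family (k := k) (by omega) hc hc' hinv h (c1 (half k) + 2)
  have hstep : ∀ j : ℕ, MomentBound k (max 1 (c1 (half k) - j * (ε / 2))) := by
    intro j
    induction j with
    | zero =>
      have h1 : max 1 (c1 (half k) - (0 : ℕ) * (ε / 2)) = c1 (half k) := by
        rw [Nat.cast_zero, zero_mul, sub_zero]
        exact max_eq_right (by linarith)
      rw [h1]
      have h2 : Reaches k 1 (c1 (half k)) := fun u hu => extendsTo_far hu.le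
      exact h2.momentBound (by linarith)
    | succ j ih =>
      set θ : ℝ := max 1 (c1 (half k) - j * (ε / 2)) with hθ
      have hθ1 : 1 ≤ θ := le_max_left _ _
      have hj : (0 : ℝ) ≤ j * (ε / 2) := by positivity
      have hθ2 : θ ≤ c1 (half k) := max_le (by linarith) (by linarith)
      obtain ⟨Φ, hΦ⟩ := hfam θ hθ1 (by linarith) ih
      have h2 : Reaches k 1 (max 1 (c1 (half k) - (j + 1 : ℕ) * (ε / 2))) := by
        intro u hu
        refine hΦ.extendsTo hε hθ2 (by linarith) le_rfl ?_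
        have h3 : θ - ε / 2 ≤ max 1 (c1 (half k) - (j + 1 : ℕ) * (ε / 2)) := by
          rw [sub_le_iff_le_add]
          apply max_le
          · have := le_max_left 1 (c1 (half k) - (j + 1 : ℕ) * (ε / 2))
            linarith
          · have := le_max_right 1 (c1 (half k) - (j + 1 : ℕ) * (ε / 2))
            push_cast at this ⊢
            linarith
        have hu' : max 1 (c1 (half k) - (j + 1 : ℕ) * (ε / 2)) < u := hu
        linarith
      exact h2.momentBound (le_max_left _ _)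
  obtain ⟨j, hj⟩ := exists_nat_gt ((c1 (half k) - 1) / (ε / 2))
  rw [div_lt_iff₀ (by positivity)] at hj
  have := hstep j
  rwa [max_eq_left (by linarith)] at this

/-- The flat family of another weighted series. -/
theorem flat_family_two (hk : 1 ≤ k) {c c' : ℕ → ℂ} (hc : Moderate c) (hc' : Moderate c')
    (hinv : ∀ n : ℕ, 1 ≤ n → ∑ a ∈ n.divisorsAntidiagonal, c a.1 * c' a.2 = if n = 1 then 1 else 0)
    (h : UniformC c k) (hMB : MomentBound k 1) {c₂ : ℕ → ℂ} (hc₂ : Moderate c₂) :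
    ∃ ε > 0, ∃ Ψ : ℕ → (Fin k → ℝ) → ℂ → ℂ, FlatFam k (Fcc c₂ k) 1 ε (c1 (half k) + 2) (1 / 2) Ψ := by
  have hc1 := two_le_c1 k
  obtain ⟨ε₀, hε₀, hfam⟩ := flat_family hk hc hc' hinv h (c1 (half k) + 2)
  obtain ⟨Φ, hΦ⟩ := hfam 1 le_rfl (by linarith) hMB
  obtain ⟨κ, C₀, hκ, hb₀⟩ := id hc₂
  set ε : ℝ := min ε₀ ((1 - κ) / 4) with hε
  have hε0 : 0 < ε := lt_min hε₀ (by linarith)
  have hε2 : ε ≤ (1 - κ) / 4 := min_le_right _ _
  exact ⟨ε, hε0, _, (hΦ.mono (min_le_left _ _ : ε ≤ ε₀)).kernel hb₀ (g := Fcc c₂ k) (by norm_num) le_rfl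
    (by linarith) (by
      intro n hn t w h1 h2
      unfold Fcc Ec
      rw [mul_comm, ← U_mul_left]
      exact U_congr hn fun m _ => by unfold Fc; ring)⟩

end Pool.Agent.MDSS
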