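import Pool.Agent.MDSLin.Main

set_option autoImplicit false

open Complex
open Pool.Agent.MDS Pool.Agent.MDSM Pool.Agent.MDSLin

namespace Pool.Agent.MDSS

private theorem pow_le_one_add {x : ℝ} (hx : 0 ≤ x) (k : ℕ) : x ^ k ≤ 1 + x ^ (k + 1) := by
  rcases le_total x 1 with h | h
  · have h1 := pow_le_one₀ hx h (n := k)
    have h2 := pow_nonneg hx (k + 1)
    linarith
  · have h2 : x ^ k ≤ x ^ (k + 1) := pow_le_pow_right₀ h (Nat.le_succ k)
    exact h2.trans (le_add_of_nonneg_left zero_le_one)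

/-- The moment bound for `k + 1` implies the one for `k`. -/
theorem _root_.Pool.Agent.MDSLin.MomentBound.down {k : ℕ} {θ : ℝ} (h1 : 1 ≤ θ) (h : MomentBound (k + 1) θ) :
    MomentBound k θ := by
  classical
  intro c hc
  obtain ⟨C, N, hC⟩ := h c hc
  refine ⟨1 + |C|, N, fun t X hX => ?_⟩
  have hcard : (((Finset.Ioc 1 ⌊X⌋₊).filter IsFundDisc).card : ℝ) ≤ X := by
    refine le_trans ?_ (Nat.floor_le (by linarith : (0 : ℝ) ≤ X))
    exact_mod_cast (Finset.card_filter_le _ _).trans (by simp)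
  have hX1 : X ≤ X ^ c := by
    have h2 : X ^ (1 : ℝ) ≤ X ^ c := Real.rpow_le_rpow_of_exponent_le hX (by linarith)
    rwa [Real.rpow_one] at h2
  have ht : (1 : ℝ) ≤ (1 + |t|) ^ N := one_le_pow₀ (by have := abs_nonneg t; linarith)
  have hXc : (0 : ℝ) ≤ X ^ c := by linarith
  have h3 := hC t X hX
  have h4 : ∑ d ∈ (Finset.Ioc 1 ⌊X⌋₊).filter IsFundDisc, ‖Lent d (1 / 2 + t * I)‖ ^ k ≤
      ∑ d ∈ (Finset.Ioc 1 ⌊X⌋₊).filter IsFundDisc, (1 + ‖Lent d (1 / 2 + t * I)‖ ^ (k + 1)) :=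
    Finset.sum_le_sum fun d _ => pow_le_one_add (norm_nonneg _) k
  have h5 : ∑ d ∈ (Finset.Ioc 1 ⌊X⌋₊).filter IsFundDisc,
      (1 + ‖Lent d (1 / 2 + t * I)‖ ^ (k + 1)) =
      (((Finset.Ioc 1 ⌊X⌋₊).filter IsFundDisc).card : ℝ) +
      ∑ d ∈ (Finset.Ioc 1 ⌊X⌋₊).filter IsFundDisc, ‖Lent d (1 / 2 + t * I)‖ ^ (k + 1) := by
    rw [Finset.sum_add_distrib]
    simp
  rw [h5] at h4
  refine h4.trans ((add_le_add hcard h3).trans ?_)
  have h6 := le_abs_self C
  calc X + C * (1 + |t|) ^ N * X ^ c ≤ X ^ c + |C| * (1 + |t|) ^ N * X ^ c := by gcongr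
    _ = 1 * X ^ c + |C| * (1 + |t|) ^ N * X ^ c := by ring
    _ ≤ (1 + |t|) ^ N * X ^ c + |C| * (1 + |t|) ^ N * X ^ c := by gcongr
    _ = _ := by ring

private theorem reaches_one {k : ℕ} (hk : 2 ≤ k) (h : Continues k 1) : Reaches k 1 1 :=
  reaches_of_weight hk fun c hc => ⟨_, continues_iff.mp h, by
    have : weight ((fun _ => 1 / 2, 1) : (Fin k → ℝ) × ℝ) = 1 := by simp [weight]
    rw [this]
    exact hc.le⟩

/-- The continuation for `k + 1` variables bounds the `k`-th moment. -/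
theorem momentBound_of_continues {k : ℕ} (hk : 1 ≤ k) (h : Continues (k + 1) 1) :
    MomentBound k 1 := by
  rcases Nat.even_or_odd k with ⟨m, hm⟩ | ⟨m, hm⟩
  · have h1 : Continues k (1 * 1) := h.pred le_rfl 1 le_rfl
    rw [mul_one] at h1
    have h2 := reaches_one (by omega) h1
    subst hm
    exact h2.momentBound le_rfl
  · have h2 := reaches_one (by omega) h
    refine MomentBound.down le_rfl ?_
    have e : k + 1 = (m + 1) + (m + 1) := by omega
    rw [e] at h2 ⊢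
    exact h2.momentBound le_rfl

end Pool.Agent.MDSS
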