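import Pool.Agent.MDSS.Main
import Pool.Agent.MDSS.Landau

/-!
# Nonnegative weights: the continuation bounds the moments of the same order
-/

set_option autoImplicit false

open Complex Filter Topology
open Pool.Agent.TubeDS Pool.Agent.MDS Pool.Agent.MDSM Pool.Agent.MDSLin

namespace Pool.Agent.MDSS

variable {k : ℕ}

/-- Bochner's theorem: the domain may be taken convex. -/
theorem ContinuesB.convexify {c : ℕ → ℂ} {k M : ℕ} (h : ContinuesB c k M) :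
    ∃ Ω : Set ((Fin k → ℝ) × ℝ), IsBase k Ω ∧ Convex ℝ Ω ∧ ∃ G : (Fin k → ℂ) × ℂ → ℂ,
      IsExtensionB c k M Ω G ∧ ∀ K ⊆ Ω, IsCompact K → ∃ (C : ℝ) (N : ℕ), ∀ z, reP z ∈ K →
        ‖G z‖ ≤ C * (1 + ‖imP z‖) ^ N := by
  obtain ⟨Ω, ⟨hΩo, hΩc, hΩreg, hxΩ⟩, G, ⟨hGd, hGF⟩, hGb⟩ := h
  set Ω₁ : Set (Option (Fin k) → ℝ) := toP ⁻¹' Ω with hΩ₁
  have hΩ₁o : IsOpen Ω₁ := hΩo.preimage continuous_toP
  have hΩ₁im : Ω₁ = ofP '' Ω := by
    ext x
    constructor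
    · intro hx; exact ⟨toP x, hx, ofP_toP x⟩
    · rintro ⟨p, hp, rfl⟩; show toP (ofP p) ∈ Ω; rw [toP_ofP]; exact hp
  have hΩ₁pre : IsPreconnected Ω₁ := by
    rw [hΩ₁im]; exact hΩc.isPreconnected.image _ continuous_ofP.continuousOn
  have hΩ₁ne : Ω₁.Nonempty := by
    rw [hΩ₁im]; exact hΩc.nonempty.image _
  set G₁ : (Option (Fin k) → ℂ) → ℂ := fun z => G (toP z) with hG₁
  have hG₁d : DifferentiableOn ℂ G₁ (tube Ω₁) := by
    refine hGd.comp differentiable_toP.differentiableOn ?_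
    intro z hz
    show reP (toP z) ∈ Ω
    rw [reP_toP]; exact hz
  have hG₁b : PolyBdd Ω₁ G₁ := by
    intro K hK hKc
    obtain ⟨C, N, hC⟩ := hGb (toP '' K) (by rintro _ ⟨x, hx, rfl⟩; exact hK hx)
      (hKc.image continuous_toP)
    refine ⟨|C|, N, fun z hz => ?_⟩
    have h1 := hC (toP z) (by rw [reP_toP]; exact ⟨_, hz, rfl⟩)
    rw [imP_toP] at h1
    refine h1.trans ?_
    have h2 := norm_toP_le (fun o => (z o).im)
    have h3 := le_abs_self C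
    gcongr
  obtain ⟨G₂, hG₂d, hG₂e, hG₂b⟩ := bochner hΩ₁o hΩ₁pre hΩ₁ne hG₁d hG₁b
  set D : Set (Option (Fin k) → ℝ) := convexHull ℝ Ω₁ with hD
  have hDo : IsOpen D := hΩ₁o.convexHull
  have hDc : Convex ℝ D := convex_convexHull ℝ Ω₁
  have hsub : Ω₁ ⊆ D := subset_convexHull ℝ Ω₁
  have hQ : Q0 k ⊆ Ω₁ := fun x hx => hΩreg ⟨fun j => hx (some j), hx none⟩
  have hconv : Convex ℝ ((ofP : (Fin k → ℝ) × ℝ → _) ⁻¹' D) := by
    intro p hp q hq α β hα hβ hαβ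
    show ofP (α • p + β • q) ∈ D
    have : (ofP (α • p + β • q) : Option (Fin k) → ℝ) = α • ofP p + β • ofP q := by
      funext o
      cases o with
      | none => simp [ofP]
      | some j => simp [ofP]
    rw [this]
    exact hDc hp hq hα hβ hαβ
  have hcen : ((fun _ => 1 / 2, 1) : (Fin k → ℝ) × ℝ) ∈ ((ofP : (Fin k → ℝ) × ℝ → _) ⁻¹' D) := by
    show ofP _ ∈ D
    apply hsub
    show toP (ofP _) ∈ Ω
    rw [toP_ofP]; exact hxΩ
  refine ⟨(ofP : (Fin k → ℝ) × ℝ → _) ⁻¹' D, ⟨hDo.preimage continuous_ofP,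
    ⟨⟨_, hcen⟩, hconv.isPreconnected⟩, ?_, hcen⟩, hconv, fun z => G₂ (ofP z), ⟨?_, ?_⟩, ?_⟩
  · rintro p ⟨hp1, hp2⟩
    apply hsub
    apply hQ
    intro o
    cases o with
    | none => exact hp2
    | some j => exact hp1 j
  · refine hG₂d.comp differentiable_ofP.differentiableOn ?_
    intro z hz
    show (fun j => (ofP z j).re) ∈ D
    rw [re_ofP]; exact hz
  · intro z hz1 hz2
    have hmem : ofP z ∈ tube (Q0 k) := by
      intro o
      cases o with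
      | none => exact hz2
      | some j => exact hz1 j
    show G₂ (ofP z) = FB c k M z
    rw [hG₂e (show ofP z ∈ tube Ω₁ from hQ hmem)]
    show G (toP (ofP z)) = _
    rw [toP_ofP]
    exact hGF z hz1 hz2
  · intro K hK hKc
    obtain ⟨C, N, hC⟩ := hG₂b (ofP '' K) (by rintro _ ⟨x, hx, rfl⟩; exact hK hx)
      (hKc.image continuous_ofP)
    refine ⟨|C|, N, fun z hz => ?_⟩
    have h1 := hC (ofP z) (by rw [re_ofP]; exact ⟨_, hz, rfl⟩)
    rw [im_ofP] at h1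
    refine h1.trans ?_
    have h2 := norm_ofP_le (imP z)
    have h3 := le_abs_self C
    gcongr

/-- the product over the paired shifts of a function with real values on the real axis -/
private theorem prod_paired {m : ℕ} (f : ℂ → ℂ)
    (hf : ∀ s : ℂ, f ((starRingEnd ℂ) s) = (starRingEnd ℂ) (f s)) (t : ℝ) :
    ∏ j, f (((1 / 2 : ℝ) : ℂ) + sh m t j * I) =
      ((‖f (1 / 2 + t * I)‖ ^ (m + m) : ℝ) : ℂ) := by
  rw [Fin.prod_univ_add]
  unfold sh
  simp only [Fin.append_left, Fin.append_right, Finset.prod_const, Finset.card_univ,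
    Fintype.card_fin]
  have e : (((1 / 2 : ℝ) : ℂ) + ((-t : ℝ) : ℂ) * I) = (starRingEnd ℂ) (1 / 2 + t * I) := by
    rw [map_add, map_mul, Complex.conj_ofReal, Complex.conj_I]
    have : (starRingEnd ℂ) (1 / 2 : ℂ) = 1 / 2 := by
      have h2 : (1 / 2 : ℂ) = ((1 / 2 : ℝ) : ℂ) := by push_cast; rfl
      rw [h2, Complex.conj_ofReal]
    rw [this]
    push_cast
    ring
  rw [e, hf]
  have e2 : (((1 / 2 : ℝ) : ℂ) + (t : ℂ) * I) = 1 / 2 + t * I := by push_cast; rfl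
  rw [e2, ← mul_pow, Complex.mul_conj, Complex.normSq_eq_norm_sq]
  push_cast
  rw [← pow_mul]
  congr 1
  ring

private theorem Eu_conj (d l : ℕ) (s : ℂ) :
    Eu d l ((starRingEnd ℂ) s) = (starRingEnd ℂ) (Eu d l s) := by
  unfold Eu
  rw [map_sum]
  refine Finset.sum_congr rfl fun e _ => ?_
  rw [map_mul, map_mul]
  congr 1
  · congr 1
    · exact (map_intCast _ _).symm
    · exact (map_intCast _ _).symm
  · rw [← map_neg, Complex.cpow_conj _ _ (by rw [Complex.natCast_arg]; exact Real.pi_pos.ne),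
      Complex.conj_natCast]

private theorem norm_Eu_le (d l : ℕ) {s : ℂ} (hs : 0 ≤ s.re) :
    ‖Eu d l s‖ ≤ (l.divisors.card : ℝ) := by
  unfold Eu
  refine (norm_sum_le _ _).trans ?_
  have h : ∀ e ∈ l.divisors, ‖((ArithmeticFunction.moebius e : ℤ) : ℂ) * (kron d e : ℂ) *
      (e : ℂ) ^ (-s)‖ ≤ 1 := by
    intro e he
    have he0 := Nat.pos_of_mem_divisors he
    rw [norm_mul, norm_mul, norm_natCast_cpow_of_pos he0, neg_re]
    have h1 : ‖((ArithmeticFunction.moebius e : ℤ) : ℂ)‖ ≤ 1 := by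
      rw [Complex.norm_intCast]
      exact_mod_cast ArithmeticFunction.abs_moebius_le_one
    have h2 := norm_kron_le d e
    have h3 : (e : ℝ) ^ (-s.re) ≤ 1 :=
      Real.rpow_le_one_of_one_le_of_nonpos (by exact_mod_cast he0) (by linarith)
    calc _ ≤ (1 : ℝ) * 1 * 1 := by gcongr
      _ = 1 := by norm_num
  refine (Finset.sum_le_card_nsmul _ _ _ h).trans (le_of_eq ?_)
  simp

private theorem Eu_one (d : ℕ) (s : ℂ) : Eu d 1 s = 1 := by
  unfold Eu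
  simp [kron_one_right]

section

variable {c : ℕ → ℂ} {m : ℕ}

/-- the coefficients on the paired line -/
private noncomputable def bp' (c : ℕ → ℂ) (m : ℕ) (t : ℝ) (p : FD × ℕ+) : ℝ :=
  (c p.2).re * ‖Eu p.1 p.2 (1 / 2 + t * I) * Lent p.1 (1 / 2 + t * I)‖ ^ (m + m)

private theorem bp_nonneg (h0 : ∀ l : ℕ, 1 ≤ l → 0 ≤ (c l).re ∧ (c l).im = 0) (t : ℝ)
    (p : FD × ℕ+) : 0 ≤ bp' c m t p :=
  mul_nonneg (h0 _ p.2.pos).1 (by positivity)

private theorem bp_eq (h0 : ∀ l : ℕ, 1 ≤ l → 0 ≤ (c l).re ∧ (c l).im = 0) (t : ℝ)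
    (p : FD × ℕ+) (w : ℂ) : (bp' c m t p : ℂ) = c p.2 * ∏ j : Fin (m + m),
      (Eu p.1 p.2 (fp (sh m t) w (some j)) * Lc p.1 (fp (sh m t) w (some j))) := by
  have h1 : c p.2 = ((c p.2).re : ℂ) := by
    apply Complex.ext
    · simp
    · simp [(h0 _ p.2.pos).2]
  have h2 := prod_paired (m := m) (fun s => Eu p.1 p.2 s * Lent p.1 s) (by
    intro s
    rw [Eu_conj, Lent_conj p.1.2.1 p.1.2.2, map_mul]) t
  rw [h1]
  have h3 : ∀ j : Fin (m + m), Eu p.1 p.2 (fp (sh m t) w (some j)) *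
      Lc p.1 (fp (sh m t) w (some j)) = Eu p.1 p.2 (((1 / 2 : ℝ) : ℂ) + sh m t j * I) *
      Lent p.1 (((1 / 2 : ℝ) : ℂ) + sh m t j * I) := by
    intro j
    rw [Lent_eq p.1.2.1 p.1.2.2]
    rfl
  rw [Finset.prod_congr rfl fun j _ => h3 j, h2]
  unfold bp'
  push_cast
  rfl

private theorem lam_pos (p : FD × ℕ+) : 1 ≤ (p.1 : ℕ) * (p.2 : ℕ) ^ 2 := by
  have h1 := p.1.2.2
  have h2 := p.2.pos
  exact Nat.mul_pos (by omega) (by positivity)

private theorem mem_R1 {t : Fin k → ℝ} {w : ℂ} (hw : c1 (half k) < w.re) :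
    (fun o => (fp t w o).re) ∈ R1 k := by
  rw [re_fp]
  refine ⟨xp_mem_R0 hw.le, ?_⟩
  intro j
  show (1 / 4 : ℝ) < 1 / 2
  norm_num

private theorem summable_bp (hc : Moderate c)
    (h0 : ∀ l : ℕ, 1 ≤ l → 0 ≤ (c l).re ∧ (c l).im = 0) (t : ℝ) {σ : ℝ}
    (hσ : c1 (half (m + m)) < σ) :
    Summable fun p : FD × ℕ+ => bp' c m t p * (((p.1 : ℕ) * (p.2 : ℕ) ^ 2 : ℕ) : ℝ) ^ (-σ) := by
  obtain ⟨κ, C, hκ, hb⟩ := hc
  have hc1 := two_le_c1 (m + m)
  obtain ⟨b, hbs, hb0, hbb⟩ := exists_majorant hb (m + m) (σ₀ := σ) (by linarith)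
  have hz := (summable_tm (k := m + m) (M := 1) (z := fp (sh m t) (σ : ℂ))
    (mem_R1 (k := m + m) (t := sh m t) (w := (σ : ℂ)) (by rw [ofReal_re]; exact hσ)).1).norm
  refine Summable.of_nonneg_of_le (fun p => mul_nonneg (bp_nonneg h0 t p) (by positivity)) ?_
    (Summable.mul_of_nonneg hz hbs (fun _ => norm_nonneg _) hb0)
  intro p
  have h1 : bp' c m t p = ‖(bp' c m t p : ℂ)‖ := by
    rw [Complex.norm_real, Real.norm_of_nonneg (bp_nonneg h0 t p)]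
  have h2 := bp_eq (m := m) h0 t p (σ : ℂ)
  have hd : 0 < (p.1 : ℕ) := by have := p.1.2.2; omega
  have h3 : (((p.1 : ℕ) * (p.2 : ℕ) ^ 2 : ℕ) : ℝ) ^ (-σ) =
      ‖((p.1 : ℕ) : ℂ) ^ (-(σ : ℂ))‖ * ‖((p.2 : ℕ) : ℂ) ^ (-(2 * (σ : ℂ)))‖ := by
    rw [← norm_mul, ← cpow_mul_sq, norm_natCast_cpow_of_pos (lam_pos p), neg_re, ofReal_re]
  rw [h1, h2, h3, norm_mul, norm_prod]
  simp only [norm_mul]
  rw [Finset.prod_mul_distrib]
  unfold tm
  rw [norm_mul, norm_mul, norm_prod, kron_one_right, Int.cast_one, norm_one, one_mul, fp_none]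
  have h4 : ∏ j : Fin (m + m), ‖Eu p.1 p.2 (fp (sh m t) (σ : ℂ) (some j))‖ ≤
      (((p.2 : ℕ).divisors.card : ℝ)) ^ (m + m) := by
    calc _ ≤ ∏ _j : Fin (m + m), (((p.2 : ℕ).divisors.card : ℝ)) :=
          Finset.prod_le_prod (fun _ _ => norm_nonneg _) fun j _ =>
            norm_Eu_le _ _ (by rw [fp_some_re]; norm_num)
      _ = _ := by simp
  have h5 := hbb (σ : ℂ) p.2 (by rw [ofReal_re])
  calc ‖c p.2‖ * ((∏ j : Fin (m + m), ‖Eu p.1 p.2 (fp (sh m t) (σ : ℂ) (some j))‖) *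
        ∏ j : Fin (m + m), ‖Lc p.1 (fp (sh m t) (σ : ℂ) (some j))‖) *
        (‖((p.1 : ℕ) : ℂ) ^ (-(σ : ℂ))‖ * ‖((p.2 : ℕ) : ℂ) ^ (-(2 * (σ : ℂ)))‖)
      = (‖((p.1 : ℕ) : ℂ) ^ (-(σ : ℂ))‖ *
        ∏ j : Fin (m + m), ‖Lc p.1 (fp (sh m t) (σ : ℂ) (some j))‖) *
        (‖c p.2‖ * ‖((p.2 : ℕ) : ℂ) ^ (-(2 * (σ : ℂ)))‖ *
          ∏ j : Fin (m + m), ‖Eu p.1 p.2 (fp (sh m t) (σ : ℂ) (some j))‖) := by ring
    _ ≤ (‖((p.1 : ℕ) : ℂ) ^ (-(σ : ℂ))‖ *
        ∏ j : Fin (m + m), ‖Lc p.1 (fp (sh m t) (σ : ℂ) (some j))‖) *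
        (‖c p.2‖ * ‖((p.2 : ℕ) : ℂ) ^ (-(2 * (σ : ℂ)))‖ *
          (((p.2 : ℕ).divisors.card : ℝ)) ^ (m + m)) := by
        gcongr
    _ ≤ _ := by
        refine mul_le_mul_of_nonneg_left h5 ?_
        exact mul_nonneg (norm_nonneg _) (Finset.prod_nonneg fun _ _ => norm_nonneg _)

private theorem Ec_eq_tsum (hc : Moderate c)
    (h0 : ∀ l : ℕ, 1 ≤ l → 0 ≤ (c l).re ∧ (c l).im = 0) (t : ℝ) {w : ℂ}
    (hw : c1 (half (m + m)) < w.re) :
    Ec c (m + m) 1 (fp (sh m t) w) = ∑' p : FD × ℕ+, (bp' c m t p : ℂ) *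
      (((p.1 : ℕ) * (p.2 : ℕ) ^ 2 : ℕ) : ℂ) ^ (-w) := by
  set z := fp (sh m t) w with hz
  set T : FD × ℕ+ → ℂ := fun p => (bp' c m t p : ℂ) *
      (((p.1 : ℕ) * (p.2 : ℕ) ^ 2 : ℕ) : ℂ) ^ (-w) with hT
  have hsum : Summable T := by
    refine Summable.of_norm_bounded (summable_bp (m := m) hc h0 t hw) fun p => le_of_eq ?_
    simp only [hT]
    rw [norm_mul, Complex.norm_real, Real.norm_of_nonneg (bp_nonneg h0 t p),
      norm_natCast_cpow_of_pos (lam_pos p), neg_re]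
  have hsum' : Summable (fun p : ℕ+ × FD => T (p.2, p.1)) :=
    (Equiv.prodComm ℕ+ FD).summable_iff.mpr hsum
  have h1 : ∑' p, T p = ∑' l : ℕ+, ∑' d : FD, T (d, l) := by
    rw [← (Equiv.prodComm ℕ+ FD).tsum_eq T]
    exact hsum'.tsum_prod
  rw [h1]
  unfold Ec U
  refine tsum_congr fun l => ?_
  have h2 : V (fun j => z (some j)) l (fun n => E (m + m) n z) 1 =
      ∑' d : FD, V (fun j => z (some j)) l (fun n => tm (m + m) n d z) 1 := by
    unfold E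
    exact V_tsum le_rfl fun n _ => summable_tm (mem_R1 hw).1
  rw [h2, ← tsum_mul_left]
  refine tsum_congr fun d => ?_
  have h3 : V (fun j => z (some j)) l (fun n => tm (m + m) n d z) 1 =
      ((d : ℕ) : ℂ) ^ (-(z none)) * (∏ j, Lc d (z (some j))) *
        V (fun j => z (some j)) l (fun n => (kron d n : ℂ)) 1 := by
    rw [← V_mul_left]
    apply V_congr le_rfl
    intro n _
    unfold tm
    ring
  rw [h3, V_kron _ _ l.pos le_rfl, kron_one_right, Int.cast_one, one_mul]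
  simp only [hT]
  rw [bp_eq (m := m) h0 t (d, l) w, cpow_mul_sq, Finset.prod_mul_distrib]
  simp only [hz, fp_none]
  ring

end

/-- the real parts of the polar factors -/
private theorem sig_re (t : Fin k → ℝ) (w : ℂ) (J : Finset (Fin k)) :
    (sig J (toP (fp t w)) - 1).re = w.re - 1 := by
  rw [sig_eq, fp_none, sub_re, add_re, one_re, re_sum]
  have : ∑ l : Fin k, (if l ∈ J then fp t w (some l) - 1 / 2 else 0 : ℂ).re = 0 := by
    refine Finset.sum_eq_zero fun l _ => ?_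
    split_ifs
    · rw [fp_some]
      simp
    · simp
  rw [this, add_zero]

private theorem pol_ne_zero (t : Fin k → ℝ) {w : ℂ} (hw : 1 < w.re) : pol (fp t w) ≠ 0 := by
  unfold pol
  refine Finset.prod_ne_zero_iff.mpr fun J _ h => ?_
  have := sig_re t w J
  rw [h, zero_re] at this
  linarith

private theorem le_norm_pol (t : Fin k → ℝ) {σ : ℝ} (hσ : 1 < σ) :
    (σ - 1) ^ Fintype.card (Finset (Fin k)) ≤ ‖pol (fp t (σ : ℂ))‖ := by
  unfold pol
  rw [norm_prod]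
  calc (σ - 1) ^ Fintype.card (Finset (Fin k)) = ∏ _J : Finset (Fin k), (σ - 1) := by simp
    _ ≤ _ := Finset.prod_le_prod (fun _ _ => by linarith) fun J _ => by
        have h := sig_re t (σ : ℂ) J
        rw [ofReal_re] at h
        rw [← h]
        exact Complex.re_le_norm _

/-- For nonnegative weights, the continuation for `2 m` variables bounds the `2 m`-th moment. -/
theorem momentBound_of_pos {m : ℕ} {c : ℕ → ℂ} (hc : Moderate c)
    (h0 : ∀ l : ℕ, 1 ≤ l → 0 ≤ (c l).re ∧ (c l).im = 0) (h1 : 0 < (c 1).re)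
    (h : ContinuesB c (m + m) 1) : MomentBound (m + m) 1 := by
  classical
  obtain ⟨Ω, hΩ, hconv, G, hG, hGb⟩ := h.convexify
  intro σ hσ
  have hσ1 : 1 < σ := hσ
  have hmem : ∀ (t : Fin (m + m) → ℝ) (w : ℂ), 1 < w.re → reP (toP (fp t w)) ∈ Ω := by
    intro t w hw
    rw [reP_toP]
    show toP (fun o => (fp t w o).re) ∈ Ω
    rw [re_fp]
    exact ray_mem hΩ hconv (u := w.re) hw.le
  obtain ⟨C, N, hC⟩ := hGb {((half (m + m), σ) : (Fin (m + m) → ℝ) × ℝ)}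
    (Set.singleton_subset_iff.mpr (ray_mem hΩ hconv hσ1.le)) isCompact_singleton
  set P : ℝ := (σ - 1) ^ Fintype.card (Finset (Fin (m + m))) with hP
  have hP0 : 0 < P := pow_pos (by linarith) _
  refine ⟨|C| / (P * (c 1).re), N, fun t X hX => ?_⟩
  have hX0 : 0 < X := by linarith
  set H : ℂ → ℂ := fun w => G (toP (fp (sh m t) w)) / pol (fp (sh m t) w) with hH
  have hHd : DifferentiableOn ℂ H {w : ℂ | 1 < w.re} := by
    refine DifferentiableOn.div ?_ ?_ fun w hw => pol_ne_zero _ hw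
    · refine hG.1.comp (differentiable_toP.comp (differentiable_fp _)).differentiableOn ?_
      intro w hw
      exact hmem _ w hw
    · exact (differentiable_pol.comp (differentiable_fp _)).differentiableOn
  have hc1 := two_le_c1 (m + m)
  have hHe : ∀ w : ℂ, c1 (half (m + m)) < w.re → H w = ∑' p : FD × ℕ+, (bp' c m t p : ℂ) *
      (((p.1 : ℕ) * (p.2 : ℕ) ^ 2 : ℕ) : ℂ) ^ (-w) := by
    intro w hw
    have hw1 : 1 < w.re := by linarith
    rw [← Ec_eq_tsum hc h0 t hw]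
    simp only [hH]
    rw [ext_eq_Fcc hc le_rfl hΩ hconv hG (z := fp (sh m t) w) (by
      refine ⟨?_, mem_R1 hw⟩
      have := hmem (sh m t) w hw1
      rw [reP_toP] at this
      exact this)]
    unfold Fcc
    rw [mul_div_assoc, div_self (pol_ne_zero _ hw1), mul_one]
  -- the finite set of the fundamental discriminants
  set S : Finset ℕ := (Finset.Ioc 1 ⌊X⌋₊).filter IsFundDisc with hS
  have hSm : ∀ d ∈ S, IsFundDisc d ∧ 1 < d := by
    intro d hd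
    rw [hS, Finset.mem_filter, Finset.mem_Ioc] at hd
    exact ⟨hd.2, hd.1.1⟩
  set emb : {d // d ∈ S} ↪ FD × ℕ+ := ⟨fun d => (⟨d.1, hSm d.1 d.2⟩, 1), by
    intro a b hab
    have := congrArg (fun p : FD × ℕ+ => (p.1 : ℕ)) hab
    exact Subtype.ext this⟩ with hemb
  have hl := landau_le (b := bp' c m t) (bp_nonneg h0 t)
    (lam := fun p : FD × ℕ+ => (p.1 : ℕ) * (p.2 : ℕ) ^ 2) lam_pos
    (fun σ hσ => summable_bp (m := m) hc h0 t hσ) hHd hHe hσ1 (S.attach.map emb)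
  rw [Finset.sum_map] at hl
  have e1 : ∀ d : {d // d ∈ S}, bp' c m t (emb d) *
      ((((emb d).1 : ℕ) * ((emb d).2 : ℕ) ^ 2 : ℕ) : ℝ) ^ (-σ) =
      (c 1).re * (‖Lent d (1 / 2 + t * I)‖ ^ (m + m) * ((d : ℕ) : ℝ) ^ (-σ)) := by
    intro d
    have e2 : ((emb d).1 : ℕ) = d := rfl
    have e3 : (((emb d).2 : ℕ+) : ℕ) = 1 := rfl
    unfold bp'
    rw [e2, e3, Eu_one, one_mul, one_pow, mul_one]
    ring
  rw [Finset.sum_congr rfl fun d _ => e1 d, Finset.sum_attach S fun d =>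
    (c 1).re * (‖Lent d (1 / 2 + t * I)‖ ^ (m + m) * ((d : ℕ) : ℝ) ^ (-σ)), ← Finset.mul_sum] at hl
  have h2 : X ^ (-σ) * ∑ d ∈ S, ‖Lent d (1 / 2 + t * I)‖ ^ (m + m) ≤
      ∑ d ∈ S, ‖Lent d (1 / 2 + t * I)‖ ^ (m + m) * ((d : ℕ) : ℝ) ^ (-σ) := by
    rw [Finset.mul_sum]
    refine Finset.sum_le_sum fun d hd => ?_
    rw [mul_comm]
    refine mul_le_mul_of_nonneg_left ?_ (by positivity)
    have hd1 := (hSm d hd).2
    rw [hS, Finset.mem_filter, Finset.mem_Ioc] at hd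
    have h3 : (d : ℝ) ≤ X := (Nat.le_floor_iff hX0.le).mp hd.1.2
    exact Real.rpow_le_rpow_of_nonpos (by exact_mod_cast (by omega : 0 < d)) h3 (by linarith)
  have h3 : ‖H σ‖ ≤ |C| * (1 + |t|) ^ N / P := by
    simp only [hH]
    rw [norm_div]
    have h4 := hC (toP (fp (sh m t) (σ : ℂ))) (by
      rw [reP_toP, re_fp, ofReal_re]
      rfl)
    have h5 : ‖imP (toP (fp (sh m t) (σ : ℂ)))‖ ≤ |t| := by
      rw [imP_toP]
      refine (norm_toP_le _).trans ((norm_im_fp _ _).trans ?_)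
      rw [ofReal_im, abs_zero, zero_add]
      exact norm_sh_le m t
    have h6 : ‖G (toP (fp (sh m t) (σ : ℂ)))‖ ≤ |C| * (1 + |t|) ^ N := by
      refine h4.trans ?_
      have := le_abs_self C
      gcongr
    have h7 := le_norm_pol (sh m t) hσ1
    gcongr
  have h4 : (c 1).re * (X ^ (-σ) * ∑ d ∈ S, ‖Lent d (1 / 2 + t * I)‖ ^ (m + m)) ≤
      |C| * (1 + |t|) ^ N / P := (mul_le_mul_of_nonneg_left h2 h1.le).trans (hl.trans h3)
  have h5 : X ^ (-σ) * X ^ σ = 1 := by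
    rw [← Real.rpow_add hX0, neg_add_cancel, Real.rpow_zero]
  have h6 : ∑ d ∈ S, ‖Lent d (1 / 2 + t * I)‖ ^ (m + m) =
      ((c 1).re * (X ^ (-σ) * ∑ d ∈ S, ‖Lent d (1 / 2 + t * I)‖ ^ (m + m))) *
        (X ^ σ / (c 1).re) := by
    generalize (∑ d ∈ S, ‖Lent d (1 / 2 + t * I)‖ ^ (m + m)) = A
    calc A = A * (X ^ (-σ) * X ^ σ) * ((c 1).re / (c 1).re) := by
          rw [h5, div_self h1.ne', mul_one, mul_one]
      _ = _ := by ring
  refine le_trans (le_of_eq (Finset.sum_congr (by congr) fun _ _ => rfl)) (h6.le.trans ?_)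
  calc ((c 1).re * (X ^ (-σ) * ∑ d ∈ S, ‖Lent d (1 / 2 + t * I)‖ ^ (m + m))) *
        (X ^ σ / (c 1).re) ≤ (|C| * (1 + |t|) ^ N / P) * (X ^ σ / (c 1).re) := by
        gcongr
    _ = |C| / (P * (c 1).re) * (1 + |t|) ^ N * X ^ σ := by
        field_simp

end Pool.Agent.MDSS
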