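import Pool.Agent.MDSS.Main

set_option autoImplicit false

open Complex Filter Topology MeasureTheory
open Pool.Agent.TubeDS Pool.Agent.MDS Pool.Agent.MDSM Pool.Agent.MDSLin

namespace Pool.Agent.MDSS

variable {k : ℕ}

/-- drop the coordinate `u` -/
def pr {R : Type*} (z : Option (Option (Fin k)) → R) : Option (Fin k) → R :=
  fun o => o.elim (z none) (fun j => z (some (some j)))

theorem re_pr (z : Option (Option (Fin k)) → ℂ) : (fun o => (pr z o).re) = pr (fun o => (z o).re) := by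
  funext o; cases o <;> rfl

theorem norm_im_pr (z : Option (Option (Fin k)) → ℂ) : ‖fun o => (pr z o).im‖ ≤ ‖fun o => (z o).im‖ := by
  rw [pi_norm_le_iff_of_nonneg (norm_nonneg _)]
  intro o
  cases o with
  | none => exact norm_le_pi_norm (fun o => (z o).im) none
  | some j => exact norm_le_pi_norm (fun o => (z o).im) (some (some j))

theorem continuous_pr : Continuous (pr : (Option (Option (Fin k)) → ℝ) → _) := by
  refine continuous_pi fun o => ?_
  cases o with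
  | none => exact continuous_apply none
  | some j => exact continuous_apply (some (some j))

theorem differentiable_pr : Differentiable ℂ (pr : (Option (Option (Fin k)) → ℂ) → _) := by
  rw [differentiable_pi]
  intro o
  cases o with
  | none => exact differentiable_apply none
  | some j => exact differentiable_apply (some (some j))

/-- the region with the additional variable `u` -/
def lft (O : Set (Option (Fin k) → ℝ)) : Set (Option (Option (Fin k)) → ℝ) :=
  {x | 7 / 4 < x (some none) ∧ pr x ∈ O}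

theorem isOpen_lft {O : Set (Option (Fin k) → ℝ)} (hO : IsOpen O) : IsOpen (lft O) :=
  (isOpen_lt continuous_const (continuous_apply _)).inter (hO.preimage continuous_pr)

theorem convex_lft {O : Set (Option (Fin k) → ℝ)} (hO : Convex ℝ O) : Convex ℝ (lft O) := by
  intro x hx y hy a b ha hb hab
  refine ⟨?_, ?_⟩
  · have h1 := hx.1
    have h2 := hy.1
    simp only [Pi.add_apply, Pi.smul_apply, smul_eq_mul]
    rcases eq_or_lt_of_le ha with h | h
    · have hb1 : b = 1 := by linarith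
      rw [← h, hb1]; linarith
    · nlinarith [mul_lt_mul_of_pos_left h1 h, mul_le_mul_of_nonneg_left h2.le hb]
  · have h3 : pr (a • x + b • y) = a • pr x + b • pr y := by
      funext o; cases o <;> rfl
    rw [h3]
    exact hO hx.2 hy.2 ha hb hab

/-- the Dirichlet series in the additional variable -/
noncomputable def HS (f : ℕ → (Option (Fin k) → ℂ) → ℂ) (z : Option (Option (Fin k)) → ℂ) : ℂ :=
  ∑' m : ℕ, (if m = 0 then 0 else f m (pr z)) * (m : ℂ) ^ (-(z (some none)))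

theorem term_le {u : ℂ} (hu : 7 / 4 ≤ u.re) {x : ℂ} {A : ℝ} {m : ℕ}
    (hx : 1 ≤ m → ‖x‖ ≤ A * (m : ℝ) ^ (1 / 2 : ℝ)) :
    ‖(if m = 0 then 0 else x) * (m : ℂ) ^ (-u)‖ ≤ A * ((m : ℝ) ^ (5 / 4 : ℝ))⁻¹ := by
  rcases Nat.eq_zero_or_pos m with rfl | hm
  · simp
  · have hm0 : (0 : ℝ) < m := by exact_mod_cast hm
    have hm1 : (1 : ℝ) ≤ m := by exact_mod_cast hm
    rw [if_neg hm.ne', norm_mul, norm_natCast_cpow_of_pos hm, neg_re]
    have h1 := hx hm
    have hA : 0 ≤ A * (m : ℝ) ^ (1 / 2 : ℝ) := (norm_nonneg _).trans h1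
    have h2 : (m : ℝ) ^ (-u.re) ≤ (m : ℝ) ^ (-(7 / 4) : ℝ) :=
      Real.rpow_le_rpow_of_exponent_le hm1 (by linarith)
    calc ‖x‖ * (m : ℝ) ^ (-u.re) ≤ (A * (m : ℝ) ^ (1 / 2 : ℝ)) * (m : ℝ) ^ (-(7 / 4) : ℝ) :=
          mul_le_mul h1 h2 (by positivity) hA
      _ = A * ((m : ℝ) ^ (5 / 4 : ℝ))⁻¹ := by
          rw [mul_assoc, ← Real.rpow_add hm0, ← Real.rpow_neg hm0.le]
          norm_num

theorem summable_five : Summable (fun m : ℕ => ((m : ℝ) ^ (5 / 4 : ℝ))⁻¹) :=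
  Real.summable_nat_rpow_inv.mpr (by norm_num)

/-- holomorphic families with local bounds uniform in the index -/
structure UReg (f : ℕ → (Option (Fin k) → ℂ) → ℂ) (O : Set (Option (Fin k) → ℝ)) : Prop where
  isOpen : IsOpen O
  diff : ∀ m, 1 ≤ m → DifferentiableOn ℂ (f m) (tube O)
  bd : ∀ x₀ ∈ O, ∃ U' ∈ 𝓝 x₀, ∃ (C : ℝ) (N : ℕ), 0 ≤ C ∧ ∀ m : ℕ, 1 ≤ m → ∀ z : Option (Fin k) → ℂ,
    (fun o => (z o).re) ∈ U' → ‖f m z‖ ≤ C * (1 + ‖fun o => (z o).im‖) ^ N

theorem Reg.uReg {O : Set (Option (Fin k) → ℝ)} (h : Reg k O) {c : ℕ → ℂ} (hc : Moderate c) :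
    UReg (Fcc c k) O where
  isOpen := h.isOpen
  diff := fun m hm => h.diffF hc hm
  bd := by
    intro x₀ hx₀
    obtain ⟨U₁, hU₁, C₁, N₁, hC₁, hb₁⟩ := h.bdE hc hx₀
    obtain ⟨U₂, hU₂, C₂, N₂, hC₂, hb₂⟩ := polyBdd_local h.isOpen (polyBdd_pol (k := k) O) hx₀
    refine ⟨U₁ ∩ U₂, inter_mem hU₁ hU₂, C₁ * C₂, N₁ + N₂, by positivity, ?_⟩
    rintro m hm z ⟨h1, h2⟩
    unfold Fcc
    rw [norm_mul, pow_add]
    calc ‖Ec c k m z‖ * ‖pol z‖ ≤ (C₁ * (1 + ‖fun o => (z o).im‖) ^ N₁) * (C₂ * (1 + ‖fun o => (z o).im‖) ^ N₂) :=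
          mul_le_mul (hb₁ m hm z h1) (hb₂ z h2) (norm_nonneg _) (by positivity)
      _ = _ := by ring

theorem one_le_sqrt {m : ℕ} (hm : 1 ≤ m) : (1 : ℝ) ≤ (m : ℝ) ^ (1 / 2 : ℝ) :=
  Real.one_le_rpow (by exact_mod_cast hm) (by norm_num)

theorem UReg.term {f : ℕ → (Option (Fin k) → ℂ) → ℂ} {O : Set (Option (Fin k) → ℝ)} (h : UReg f O)
    {x₀ : Option (Fin k) → ℝ} (hx₀ : x₀ ∈ O) :
    ∃ U' ∈ 𝓝 x₀, ∃ (C : ℝ) (N : ℕ), 0 ≤ C ∧ ∀ (m : ℕ) (z : Option (Option (Fin k)) → ℂ),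
      pr (fun o => (z o).re) ∈ U' → 7 / 4 ≤ (z (some none)).re →
      ‖(if m = 0 then 0 else f m (pr z)) * (m : ℂ) ^ (-(z (some none)))‖ ≤
        C * (1 + ‖fun o => (z o).im‖) ^ N * ((m : ℝ) ^ (5 / 4 : ℝ))⁻¹ := by
  obtain ⟨U', hU', C, N, hC, hb⟩ := h.bd x₀ hx₀
  refine ⟨U', hU', C, N, hC, fun m z hz hu => ?_⟩
  apply term_le hu
  intro hm
  have h1 := hb m hm (pr z) (by rw [re_pr]; exact hz)
  have h2 := norm_im_pr z
  have h3 := one_le_sqrt hm
  calc ‖f m (pr z)‖ ≤ C * (1 + ‖fun o => (pr z o).im‖) ^ N := h1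
    _ ≤ C * (1 + ‖fun o => (z o).im‖) ^ N := by gcongr
    _ = C * (1 + ‖fun o => (z o).im‖) ^ N * 1 := by ring
    _ ≤ _ := by gcongr

theorem UReg.diffHS {f : ℕ → (Option (Fin k) → ℂ) → ℂ} {O : Set (Option (Fin k) → ℝ)} (h : UReg f O) :
    DifferentiableOn ℂ (HS f) (tube (lft O)) := by
  unfold HS
  apply differentiableOn_tsum_of_local (isOpen_tube (isOpen_lft h.isOpen))
  · intro m
    rcases Nat.eq_zero_or_pos m with rfl | hm
    · simp only [if_true, zero_mul]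
      exact differentiableOn_const _
    · simp only [if_neg hm.ne']
      have hm0 : (m : ℂ) ≠ 0 := by exact_mod_cast hm.ne'
      refine DifferentiableOn.mul ?_ ?_
      · refine (h.diff m hm).comp differentiable_pr.differentiableOn ?_
        intro z hz
        show (fun o => (pr z o).re) ∈ O
        rw [re_pr]; exact hz.2
      · exact ((differentiable_apply (some none)).neg.differentiableOn).const_cpow (Or.inl hm0)
  · intro z₀ hz₀
    obtain ⟨U', hU', C, N, hC, hb⟩ := h.term hz₀.2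
    have h1 : {z : Option (Option (Fin k)) → ℂ | pr (fun j => (z j).re) ∈ U'} ∈ 𝓝 z₀ :=
      (continuous_pr.comp continuous_rePart).continuousAt.preimage_mem_nhds hU'
    have h2 : {z : Option (Option (Fin k)) → ℂ | ‖fun j => (z j).im‖ < ‖fun j => (z₀ j).im‖ + 1} ∈ 𝓝 z₀ :=
      ((continuous_imPart.norm).continuousAt.eventually_lt continuousAt_const (by simp))
    have h3 : tube (lft O) ∈ 𝓝 z₀ := (isOpen_tube (isOpen_lft h.isOpen)).mem_nhds hz₀
    refine ⟨_, inter_mem h3 (inter_mem h1 h2), fun m => C * (1 + (‖fun j => (z₀ j).im‖ + 1)) ^ N *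
      ((m : ℝ) ^ (5 / 4 : ℝ))⁻¹, summable_five.mul_left _, ?_⟩
    rintro z ⟨hz1, hz2, hz3⟩ m
    refine (hb m z hz2 hz1.1.le).trans ?_
    have hz3' : ‖fun j => (z j).im‖ ≤ ‖fun j => (z₀ j).im‖ + 1 := le_of_lt hz3
    beta_reduce
    gcongr

theorem UReg.polyHS {f : ℕ → (Option (Fin k) → ℂ) → ℂ} {O : Set (Option (Fin k) → ℝ)} (h : UReg f O) :
    PolyBdd (lft O) (HS f) := by
  apply polyBdd_of_local
  intro x hx
  obtain ⟨U', hU', C, N, hC, hb⟩ := h.term hx.2
  have h1 : {y : Option (Option (Fin k)) → ℝ | pr y ∈ U'} ∈ 𝓝 x := continuous_pr.continuousAt.preimage_mem_nhds hU'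
  refine ⟨lft O ∩ _, inter_mem ((isOpen_lft h.isOpen).mem_nhds hx) h1,
    C * ∑' m : ℕ, ((m : ℝ) ^ (5 / 4 : ℝ))⁻¹, N, mul_nonneg hC (tsum_nonneg fun m => by positivity), ?_⟩
  rintro z ⟨hz1, hz2⟩
  have h2 := fun m => hb m z hz2 hz1.1.le
  have h3 : Summable (fun m : ℕ => C * (1 + ‖fun o => (z o).im‖) ^ N * ((m : ℝ) ^ (5 / 4 : ℝ))⁻¹) :=
    summable_five.mul_left _
  have h4 : Summable (fun m : ℕ => ‖(if m = 0 then 0 else f m (pr z)) * (m : ℂ) ^ (-(z (some none)))‖) :=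
    Summable.of_nonneg_of_le (fun _ => norm_nonneg _) h2 h3
  unfold HS
  refine (norm_tsum_le_tsum_norm h4).trans ((Summable.tsum_le_tsum h2 h4 h3).trans (le_of_eq ?_))
  rw [tsum_mul_left]
  ring

theorem integrable_pow_opt (k : ℕ) {n : ℕ} (hn : k + 1 < n) :
    Integrable (fun t : Option (Fin k) → ℝ => ((1 + ‖t‖) ^ n)⁻¹) := by
  have h := integrable_one_add_norm (E := Option (Fin k) → ℝ) (μ := volume) (r := (n : ℝ)) (by
    simp only [Module.finrank_fintype_fun_eq_card, Fintype.card_option, Fintype.card_fin]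
    exact_mod_cast hn)
  refine h.congr (Filter.Eventually.of_forall fun t => ?_)
  simp only
  rw [Real.rpow_neg (by positivity), Real.rpow_natCast]

/-- the base point of the flat family, with `u = 2` -/
noncomputable def bp (k : ℕ) (r : ℝ) : Option (Option (Fin k)) → ℝ := ins r (ins 2 (half k))

theorem pr_cpt (r : ℝ) (t : Option (Fin k) → ℝ) (w : ℂ) :
    pr (cpt (bp k r) t w) = fp (fun j => t (some j)) w := by
  funext o; cases o <;> rfl

theorem cpt_bp_u (r : ℝ) (t : Option (Fin k) → ℝ) (w : ℂ) :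
    cpt (bp k r) t w (some none) = ((2 : ℝ) : ℂ) + t none * I := rfl

/-- the flat continuation of the series in the additional variable -/
noncomputable def flatHS (Ψ : ℕ → (Fin k → ℝ) → ℂ → ℂ) (t : Option (Fin k) → ℝ) (w : ℂ) : ℂ :=
  ∑' m : ℕ, (if m = 0 then 0 else Ψ m (fun j => t (some j)) w) * (m : ℂ) ^ (-(((2 : ℝ) : ℂ) + t none * I))

theorem norm_sub_opt (t : Option (Fin k) → ℝ) : ‖fun j => t (some j)‖ ≤ ‖t‖ := by
  rw [pi_norm_le_iff_of_nonneg (norm_nonneg _)]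
  intro j
  exact norm_le_pi_norm t (some j)

theorem flat_term {f : ℕ → (Option (Fin k) → ℂ) → ℂ} {θ ε b : ℝ} {Ψ : ℕ → (Fin k → ℝ) → ℂ → ℂ}
    (h : FlatFam k f θ ε b (1 / 2) Ψ) : ∃ (C : ℝ) (N : ℕ), 0 ≤ C ∧ ∀ (m : ℕ) (t : Option (Fin k) → ℝ) (w : ℂ),
      θ - ε < w.re → w.re < b →
      ‖(if m = 0 then 0 else Ψ m (fun j => t (some j)) w) * (m : ℂ) ^ (-(((2 : ℝ) : ℂ) + t none * I))‖ ≤
        C * (1 + ‖t‖) ^ N * (1 + |w.im|) ^ N * ((m : ℝ) ^ (5 / 4 : ℝ))⁻¹ := by
  obtain ⟨C, N, hC, hb⟩ := h.bd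
  refine ⟨C, N, hC, fun m t w h1 h2 => ?_⟩
  apply term_le
  · simp only [add_re, ofReal_re, mul_re, I_re, mul_zero, ofReal_im, I_im, mul_one, sub_self, add_zero]
    norm_num
  · intro hm
    refine (hb m hm _ w h1 h2).trans ?_
    have := norm_sub_opt t
    gcongr

theorem diff_flatHS {f : ℕ → (Option (Fin k) → ℂ) → ℂ} {θ ε b : ℝ} {Ψ : ℕ → (Fin k → ℝ) → ℂ → ℂ}
    (h : FlatFam k f θ ε b (1 / 2) Ψ) (t : Option (Fin k) → ℝ) :
    DifferentiableOn ℂ (flatHS Ψ t) {w : ℂ | θ - ε < w.re ∧ w.re < b} := by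
  obtain ⟨C, N, hC, hb⟩ := flat_term h
  have hO : IsOpen {w : ℂ | θ - ε < w.re ∧ w.re < b} :=
    (isOpen_lt continuous_const continuous_re).inter (isOpen_lt continuous_re continuous_const)
  unfold flatHS
  apply differentiableOn_tsum_of_local hO
  · intro m
    rcases Nat.eq_zero_or_pos m with rfl | hm
    · simp only [if_true, zero_mul]
      exact differentiableOn_const _
    · simp only [if_neg hm.ne']
      exact (h.diff m hm _).mul_const _
  · intro w₀ hw₀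
    have h1 : {w : ℂ | |w.im| < |w₀.im| + 1} ∈ 𝓝 w₀ :=
      (continuous_im.abs.continuousAt.eventually_lt continuousAt_const (by simp))
    refine ⟨_, inter_mem (hO.mem_nhds hw₀) h1, fun m => C * (1 + ‖t‖) ^ N * (1 + (|w₀.im| + 1)) ^ N *
      ((m : ℝ) ^ (5 / 4 : ℝ))⁻¹, summable_five.mul_left _, ?_⟩
    rintro w ⟨⟨hw1, hw2⟩, hw3⟩ m
    have hw3' : |w.im| ≤ |w₀.im| + 1 := le_of_lt hw3
    refine (hb m t w hw1 hw2).trans ?_
    beta_reduce
    gcongr

theorem bound_flatHS {f : ℕ → (Option (Fin k) → ℂ) → ℂ} {θ ε b : ℝ} {Ψ : ℕ → (Fin k → ℝ) → ℂ → ℂ}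
    (h : FlatFam k f θ ε b (1 / 2) Ψ) : ∃ (C : ℝ) (N : ℕ), 0 ≤ C ∧ ∀ (t : Option (Fin k) → ℝ) (w : ℂ),
      θ - ε < w.re → w.re < b → ‖flatHS Ψ t w‖ ≤ C * (1 + ‖t‖) ^ N * (1 + |w.im|) ^ N := by
  obtain ⟨C, N, hC, hb⟩ := flat_term h
  refine ⟨C * ∑' m : ℕ, ((m : ℝ) ^ (5 / 4 : ℝ))⁻¹, N, mul_nonneg hC (tsum_nonneg fun m => by positivity), ?_⟩
  intro t w h1 h2
  have h3 := fun m => hb m t w h1 h2
  have h4 : Summable (fun m : ℕ => C * (1 + ‖t‖) ^ N * (1 + |w.im|) ^ N * ((m : ℝ) ^ (5 / 4 : ℝ))⁻¹) :=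
    summable_five.mul_left _
  have h5 : Summable (fun m : ℕ => ‖(if m = 0 then 0 else Ψ m (fun j => t (some j)) w) *
      (m : ℂ) ^ (-(((2 : ℝ) : ℂ) + t none * I))‖) :=
    Summable.of_nonneg_of_le (fun _ => norm_nonneg _) h3 h4
  unfold flatHS
  refine (norm_tsum_le_tsum_norm h5).trans ((Summable.tsum_le_tsum h3 h5 h4).trans (le_of_eq ?_))
  rw [tsum_mul_left]
  ring

theorem flatHS_eq {f : ℕ → (Option (Fin k) → ℂ) → ℂ} {θ ε b : ℝ} {Ψ : ℕ → (Fin k → ℝ) → ℂ → ℂ}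
    (h : FlatFam k f θ ε b (1 / 2) Ψ) (r : ℝ) (t : Option (Fin k) → ℝ) {w : ℂ} (h1 : θ < w.re) (h2 : w.re < b) :
    flatHS Ψ t w = HS f (cpt (bp k r) t w) := by
  unfold flatHS HS
  refine tsum_congr fun m => ?_
  rw [pr_cpt, cpt_bp_u]
  rcases Nat.eq_zero_or_pos m with rfl | hm
  · simp
  · rw [if_neg hm.ne', if_neg hm.ne', h.eq m hm _ w h1 h2]

/-- exchange `w` and `u` -/
def sw {R : Type*} (z : Option (Option (Fin k)) → R) : Option (Option (Fin k)) → R :=
  ins (z (some none)) (ins (z none) (fun j => z (some (some j))))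

theorem re_sw (z : Option (Option (Fin k)) → ℂ) : (fun o => (sw z o).re) = sw (fun o => (z o).re) := by
  funext o
  match o with
  | none => rfl
  | some none => rfl
  | some (some j) => rfl

theorem norm_im_sw (z : Option (Option (Fin k)) → ℂ) : ‖fun o => (sw z o).im‖ ≤ ‖fun o => (z o).im‖ := by
  rw [pi_norm_le_iff_of_nonneg (norm_nonneg _)]
  intro o
  match o with
  | none => exact norm_le_pi_norm (fun o => (z o).im) (some none)
  | some none => exact norm_le_pi_norm (fun o => (z o).im) none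
  | some (some j) => exact norm_le_pi_norm (fun o => (z o).im) (some (some j))

theorem continuous_sw : Continuous (sw : (Option (Option (Fin k)) → ℝ) → _) := by
  refine continuous_pi fun o => ?_
  match o with
  | none => exact continuous_apply (some none)
  | some none => exact continuous_apply none
  | some (some j) => exact continuous_apply (some (some j))

theorem differentiable_sw : Differentiable ℂ (sw : (Option (Option (Fin k)) → ℂ) → _) := by
  rw [differentiable_pi]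
  intro o
  match o with
  | none => exact differentiable_apply (some none)
  | some none => exact differentiable_apply none
  | some (some j) => exact differentiable_apply (some (some j))

theorem pr_sw_ins {R : Type*} (u : R) (z : Option (Fin k) → R) : pr (sw (ins u z)) = z := by
  funext o; cases o <;> rfl

theorem sw_ins_u {R : Type*} (u : R) (z : Option (Fin k) → R) : sw (ins u z) (some none) = u := rfl

/-- From one function in `k + 2` variables back to the family. -/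
theorem uniform_tail {c : ℕ → ℂ} (hc : Moderate c) {D₁ : Set (Option (Option (Fin k)) → ℝ)} (hD₁o : IsOpen D₁)
    (hD₁c : Convex ℝ D₁) {H : (Option (Option (Fin k)) → ℂ) → ℂ} (hHd : DifferentiableOn ℂ H (tube D₁))
    (hHb : PolyBdd D₁ H) (L : ℕ) {f : ℕ → (Option (Fin k) → ℂ) → ℂ}
    (hf : ∀ n : ℕ, 1 ≤ n → ∀ z ∈ tube (Q0 k), f n z = ((n : ℂ) ^ L)⁻¹ * Fcc c k n z)
    (hD₁Q : lft (Q0 k) ⊆ D₁) (hHQ : Set.EqOn H (HS f) (tube (lft (Q0 k))))
    (hcen : sw (ins 2 (xp (half k) 1)) ∈ D₁) : UniformC c k := by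
  have hU0 := (reg_Q0 k).uReg hc
  set D' : Set (Option (Option (Fin k)) → ℝ) := sw ⁻¹' D₁ with hD'
  have hD'o : IsOpen D' := hD₁o.preimage continuous_sw
  set H' : (Option (Option (Fin k)) → ℂ) → ℂ := fun z => H (sw z) with hH'
  have hH'd : DifferentiableOn ℂ H' (tube D') := by
    refine hHd.comp differentiable_sw.differentiableOn ?_
    intro z hz
    show (fun o => (sw z o).re) ∈ D₁
    rw [re_sw]; exact hz
  have hH'b : PolyBdd D' H' := by
    intro K hK hKc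
    obtain ⟨C, N, hC⟩ := hHb (sw '' K) (by rintro _ ⟨x, hx, rfl⟩; exact hK hx) (hKc.image continuous_sw)
    refine ⟨|C|, N, fun z hz => ?_⟩
    have h1 := hC (sw z) (by rw [re_sw]; exact ⟨_, hz, rfl⟩)
    refine h1.trans ?_
    have h2 := norm_im_sw z
    have h3 := le_abs_self C
    gcongr
  have hslice : Q0 k ⊆ slice 2 D' := by
    intro x hx
    show sw (ins 2 x) ∈ D₁
    apply hD₁Q
    refine ⟨by show (7 / 4 : ℝ) < 2; norm_num, ?_⟩
    rw [pr_sw_ins]; exact hx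
  set a : ℕ → (Option (Fin k) → ℂ) → ℂ := fun m z => if m = 0 then 0 else f m z with ha
  have hn0 : ∀ n : ℕ, 1 ≤ n → ((n : ℂ) ^ L) ≠ 0 := fun n hn =>
    pow_ne_zero _ (by exact_mod_cast (by omega : n ≠ 0))
  have hfb : ∀ n : ℕ, 1 ≤ n → ∀ z ∈ tube (Q0 k), ‖f n z‖ ≤ ‖Fcc c k n z‖ := by
    intro n hn z hz
    rw [hf n hn z hz, norm_mul, norm_inv, norm_pow, norm_natCast]
    have h1 : (1 : ℝ) ≤ (n : ℝ) ^ L := one_le_pow₀ (by exact_mod_cast hn)
    calc ((n : ℝ) ^ L)⁻¹ * ‖Fcc c k n z‖ ≤ 1 * ‖Fcc c k n z‖ := by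
          gcongr
          exact inv_le_one_of_one_le₀ h1
      _ = _ := one_mul _
  obtain ⟨E, hEd, hEa, hEb⟩ := extraction hD'o hH'd hH'b a (Q0 k) hslice (fun z => by simp [ha]) (by
    intro z hz
    obtain ⟨U', hU', C, N, hC, hb⟩ := hU0.bd _ (show (fun o => (z o).re) ∈ Q0 k from hz)
    have hs2 : Summable (fun m : ℕ => ((m : ℝ) ^ 2)⁻¹) := Real.summable_nat_pow_inv.mpr (by norm_num)
    refine Summable.of_nonneg_of_le (fun m => by positivity) (fun m => ?_)
      (hs2.mul_left (C * (1 + ‖fun o => (z o).im‖) ^ N))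
    gcongr
    simp only [ha]
    split_ifs with hm
    · rw [norm_zero]; positivity
    · have hm1 : 1 ≤ m := Nat.one_le_iff_ne_zero.mpr hm
      exact (hfb m hm1 z hz).trans (hb m hm1 z (mem_of_mem_nhds hU'))) (by
    intro z hz t
    have hmem : sw (ins ((2 : ℂ) + t * Complex.I) z) ∈ tube (lft (Q0 k)) := by
      show (fun o => (sw (ins ((2 : ℂ) + t * Complex.I) z) o).re) ∈ lft (Q0 k)
      rw [re_sw, re_ins]
      refine ⟨?_, ?_⟩
      · show (7 / 4 : ℝ) < ((2 : ℂ) + t * Complex.I).re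
        simp only [add_re, re_ofNat, mul_re, ofReal_re, I_re, mul_zero, ofReal_im, I_im, mul_one, sub_self,
          add_zero]
        norm_num
      · rw [pr_sw_ins]; exact hz
    simp only [hH']
    rw [hHQ hmem]
    unfold HS
    rw [pr_sw_ins, sw_ins_u])
  -- the final domain
  set Ω' : Set ((Fin k → ℝ) × ℝ) := ofP ⁻¹' (slice 2 D') with hΩ'
  have hΩ'conv : Convex ℝ Ω' := by
    intro p hp q hq α β hα hβ hαβ
    show sw (ins 2 (ofP (α • p + β • q))) ∈ D₁
    have : sw (ins (2 : ℝ) (ofP (α • p + β • q))) = α • sw (ins (2 : ℝ) (ofP p)) + β • sw (ins (2 : ℝ) (ofP q)) := by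
      funext o
      match o with
      | none => simp [ofP, ins, sw]
      | some none =>
        simp only [sw, ins_none, ins_some, Pi.add_apply, Pi.smul_apply, smul_eq_mul]
        linear_combination (-2 : ℝ) * hαβ
      | some (some j) => simp [ofP, ins, sw]
    rw [this]
    exact hD₁c hp hq hα hβ hαβ
  have hcen' : ((fun _ => 1 / 2, 1) : (Fin k → ℝ) × ℝ) ∈ Ω' := by
    show sw (ins 2 (ofP ((half k, 1) : (Fin k → ℝ) × ℝ))) ∈ D₁
    have h1 : (ofP ((half k, 1) : (Fin k → ℝ) × ℝ)) = xp (half k) 1 := by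
      rw [← toP_xp, ofP_toP]
    rw [h1]; exact hcen
  refine ⟨Ω', ⟨(isOpen_slice hD'o).preimage continuous_ofP, ⟨⟨_, hcen'⟩, hΩ'conv.isPreconnected⟩, ?_, hcen'⟩,
    hΩ'conv, fun n z => (n : ℂ) ^ L * E n (ofP z), ?_, ?_⟩
  · rintro p ⟨hp1, hp2⟩
    apply hslice
    intro o
    cases o with
    | none => exact hp2
    | some j => exact hp1 j
  · intro n hn
    refine ⟨?_, ?_⟩
    · refine DifferentiableOn.const_mul ?_ _
      refine (hEd n hn).comp differentiable_ofP.differentiableOn ?_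
      intro z hz
      show (fun j => (ofP z j).re) ∈ slice 2 D'
      rw [re_ofP]; exact hz
    · intro z hz1 hz2
      have hmem : ofP z ∈ tube (Q0 k) := by
        intro o
        cases o with
        | none => exact hz2
        | some j => exact hz1 j
      show (n : ℂ) ^ L * E n (ofP z) = FB c k n z
      rw [hEa n hn _ hmem, ha]
      simp only
      rw [if_neg (by omega), hf n hn _ hmem, mul_inv_cancel_left₀ (hn0 n hn), ← FB_eq_Fcc hc hn hmem, toP_ofP]
  · intro K hK hKc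
    obtain ⟨C, N, hC⟩ := hEb (ofP '' K) (by rintro _ ⟨x, hx, rfl⟩; exact hK hx) (hKc.image continuous_ofP)
    refine ⟨|C|, L + N, fun n hn z hz => ?_⟩
    have h1 := hC n hn (ofP z) (by rw [re_ofP]; exact ⟨_, hz, rfl⟩)
    rw [im_ofP] at h1
    have h2 := norm_ofP_le (imP z)
    have h3 := le_abs_self C
    rw [norm_mul, norm_pow, norm_natCast]
    have h4 : (1 : ℝ) ≤ 1 + ‖imP z‖ := by linarith [norm_nonneg (imP z)]
    calc (n : ℝ) ^ L * ‖E n (ofP z)‖ ≤ (n : ℝ) ^ L * (|C| * (n : ℝ) ^ N * (1 + ‖imP z‖) ^ N) := by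
          refine mul_le_mul_of_nonneg_left (h1.trans ?_) (by positivity)
          gcongr
      _ = |C| * (n : ℝ) ^ (L + N) * (1 + ‖imP z‖) ^ N := by rw [pow_add]; ring
      _ ≤ |C| * (n : ℝ) ^ (L + N) * (1 + ‖imP z‖) ^ (L + N) := by
          have := pow_le_pow_right₀ h4 (by omega : N ≤ L + N)
          gcongr

/-- The uniform conclusion. -/
theorem uniformC_of_flat {c₂ : ℕ → ℂ} (hc₂ : Moderate c₂) {ε b : ℝ} (hε : 0 < ε)
    (hb : c1 (half k) + 1 < b) {Ψ : ℕ → (Fin k → ℝ) → ℂ → ℂ} (hΨ : FlatFam k (Fcc c₂ k) 1 ε b (1 / 2) Ψ) :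
    UniformC c₂ k := by
  have hc1 := two_le_c1 k
  set r : ℝ := c1 (half k) + 1 with hr
  have hU1 := (reg_R1 k).uReg hc₂
  have hU0 := (reg_Q0 k).uReg hc₂
  have hx : bp k r ∈ lft (R1 k) := by
    refine ⟨by show (7 / 4 : ℝ) < 2; norm_num, ?_⟩
    have : pr (bp k r) = xp (half k) r := by funext o; cases o <;> rfl
    rw [this]
    exact ⟨xp_mem_R0 (by linarith), fun j => by show (1 / 4 : ℝ) < 1 / 2; norm_num⟩
  have hx0 : bp k r none = r := rfl
  obtain ⟨C, N, hC, hbd⟩ := bound_flatHS hΨ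
  obtain ⟨C₁, hCo, hCc, hRC, hCu, G, hGd, hGe, hGb⟩ := flat_tube (isOpen_lft (isOpen_R1 k))
    (convex_lft (convex_R1 k)).isPreconnected hU1.diffHS hU1.polyHS hx (c' := 1 - ε / 2)
    (by rw [hx0]; linarith) (N := N) (N' := N + (k + 2)) (B := fun t => C * (1 + ‖t‖) ^ N) (fun t => by positivity)
    (by
      have h1 := (integrable_pow_opt k (Nat.lt_succ_self (k + 1))).const_mul C
      refine h1.congr (Filter.Eventually.of_forall fun t => ?_)
      simp only
      rw [pow_add, mul_inv]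
      have : (1 + ‖t‖) ^ N ≠ 0 := by positivity
      field_simp) (by
      refine Filter.Eventually.of_forall fun t => ⟨flatHS Ψ t, ?_, ?_, ?_⟩
      · refine (diff_flatHS hΨ t).mono ?_
        rintro w ⟨h1, h2⟩
        rw [hx0] at h2
        exact ⟨by linarith, by linarith⟩
      · intro v
        have h2 : ((bp k r none : ℝ) + v * I : ℂ).re = r := by
          simp [hx0]
        exact flatHS_eq hΨ r t (by rw [h2]; linarith) (by rw [h2]; exact hb)
      · intro w h1 h2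
        rw [hx0] at h2
        exact hbd t w (by linarith) (by linarith))
  have hUne : (lft (R1 k) ∩ lft (Q0 k)).Nonempty := by
    obtain ⟨T, hT⟩ := exists_far_single (fun _ : Option (Fin k) => (2 : ℝ))
    refine ⟨ins (max T 2) (ins 2 (fun _ => 2)), ⟨by show (7 / 4 : ℝ) < 2; norm_num, ?_⟩,
      ⟨by show (7 / 4 : ℝ) < 2; norm_num, ?_⟩⟩
    · refine ⟨hT (max T 2) (le_max_left _ _), ?_⟩
      intro j
      show (1 / 4 : ℝ) < 2
      norm_num
    · intro o
      cases o with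
      | none => exact lt_of_lt_of_le one_lt_two (le_max_right _ _)
      | some l => exact one_lt_two
  obtain ⟨H, hHd, hHb, hHG, hHQ⟩ := glue hCo hCc (isOpen_lft (isOpen_Q0 k)) (convex_lft (convex_Q0 k)) hGd hGb
    hU0.diffHS hU0.polyHS
    ((isOpen_lft (isOpen_R1 k)).inter (isOpen_lft (isOpen_Q0 k))) hUne (fun u hu => ⟨hRC hu.1, hu.2⟩)
    (fun z hz => hGe (show z ∈ tube (lft (R1 k)) from hz.1))
  refine uniform_tail hc₂ (hCo.union (isOpen_lft (isOpen_Q0 k))).convexHull (convex_convexHull ℝ _) hHd hHb 0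
    (f := Fcc c₂ k) (fun n _ z _ => by simp) (Set.subset_union_right.trans (subset_convexHull ℝ _)) hHQ ?_
  have h1 : sw (ins 2 (xp (half k) 1)) = rep (bp k r) 1 := by
    funext o
    match o with
    | none => rfl
    | some none => rfl
    | some (some j) => rfl
  rw [h1]
  exact subset_convexHull ℝ _ (Or.inl (hCu 1 (by linarith) (by rw [hx0]; linarith)))

theorem isPreconnected_lft {O : Set (Option (Fin k) → ℝ)} (hO : IsPreconnected O) : IsPreconnected (lft O) := by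
  have h1 : lft O = (fun p : ℝ × (Option (Fin k) → ℝ) => sw (ins p.1 p.2)) '' (Set.Ioi (7 / 4 : ℝ) ×ˢ O) := by
    ext x
    constructor
    · rintro ⟨h1, h2⟩
      refine ⟨(x (some none), pr x), ⟨h1, h2⟩, ?_⟩
      funext o
      match o with
      | none => rfl
      | some none => rfl
      | some (some j) => rfl
    · rintro ⟨p, ⟨h1, h2⟩, rfl⟩
      refine ⟨h1, ?_⟩
      simp only
      rw [pr_sw_ins]; exact h2
  rw [h1]
  refine (isPreconnected_Ioi.prod hO).image _ ?_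
  apply Continuous.continuousOn
  refine continuous_sw.comp ?_
  refine continuous_pi fun o => ?_
  cases o with
  | none => exact continuous_fst
  | some j => exact (continuous_apply j).comp continuous_snd

/-- a connected relatively compact piece of a connected open set -/
theorem exists_piece {Ω : Set (Option (Fin k) → ℝ)} (hΩ : IsOpen Ω) (hpre : IsPreconnected Ω)
    {x y : Option (Fin k) → ℝ} (hx : x ∈ Ω) (hy : y ∈ Ω) :
    ∃ O K : Set (Option (Fin k) → ℝ), IsOpen O ∧ IsPreconnected O ∧ x ∈ O ∧ y ∈ O ∧ O ⊆ K ∧ IsCompact K ∧ K ⊆ Ω := by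
  have hpc : IsPathConnected Ω := (hΩ.isConnected_iff_isPathConnected).mp ⟨⟨x, hx⟩, hpre⟩
  obtain ⟨γ, hγ⟩ := hpc.joinedIn x hx y hy
  set K₀ : Set (Option (Fin k) → ℝ) := Set.range γ with hK₀
  have hK₀c : IsCompact K₀ := isCompact_range γ.continuous
  have hK₀Ω : K₀ ⊆ Ω := by rintro _ ⟨t, rfl⟩; exact hγ t
  obtain ⟨δ, hδ, hδΩ⟩ := hK₀c.exists_cthickening_subset_open hΩ hK₀Ω
  have hxK : x ∈ K₀ := ⟨0, γ.source⟩
  have hyK : y ∈ K₀ := ⟨1, γ.target⟩
  have hsub : K₀ ⊆ Metric.thickening δ K₀ := Metric.self_subset_thickening hδ K₀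
  have hK₀pre : IsPreconnected K₀ := isPreconnected_range γ.continuous
  have hsub2 : K₀ ⊆ connectedComponentIn (Metric.thickening δ K₀) x :=
    hK₀pre.subset_connectedComponentIn hxK hsub
  refine ⟨connectedComponentIn (Metric.thickening δ K₀) x, Metric.cthickening δ K₀,
    Metric.isOpen_thickening.connectedComponentIn, isPreconnected_connectedComponentIn, hsub2 hxK, hsub2 hyK,
    (connectedComponentIn_subset _ _).trans (Metric.thickening_subset_cthickening δ K₀),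
    hK₀c.cthickening, hδΩ⟩

/-- Bochner's theorem for the family, with bounds uniform in `M`. -/
theorem UniformB.uniformC {c : ℕ → ℂ} (hc : Moderate c) (h : UniformB c k) : UniformC c k := by
  obtain ⟨Ω, ⟨hΩo, hΩc, hΩreg, hΩcen⟩, G, hG, hGb⟩ := h
  have hU0 := (reg_Q0 k).uReg hc
  set Ω₁ : Set (Option (Fin k) → ℝ) := toP ⁻¹' Ω with hΩ₁
  have hΩ₁o : IsOpen Ω₁ := hΩo.preimage continuous_toP
  have hΩ₁im : Ω₁ = ofP '' Ω := by
    ext x
    constructor
    · intro hx; exact ⟨toP x, hx, ofP_toP x⟩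
    · rintro ⟨p, hp, rfl⟩; show toP (ofP p) ∈ Ω; rw [toP_ofP]; exact hp
  have hΩ₁pre : IsPreconnected Ω₁ := by
    rw [hΩ₁im]; exact hΩc.isPreconnected.image _ continuous_ofP.continuousOn
  have hQ : Q0 k ⊆ Ω₁ := fun x hx => hΩreg ⟨fun j => hx (some j), hx none⟩
  have hcen : xp (half k) 1 ∈ Ω₁ := hΩcen
  have hq : (fun _ => 2 : Option (Fin k) → ℝ) ∈ Q0 k := fun o => one_lt_two
  obtain ⟨O, K, hO, hOpre, hxO, hyO, hOK, hKc, hKΩ⟩ := exists_piece hΩ₁o hΩ₁pre hcen (hQ hq)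
  obtain ⟨C, N, hC⟩ := hGb (toP '' K) (by rintro _ ⟨x, hx, rfl⟩; exact hKΩ hx) (hKc.image continuous_toP)
  set f : ℕ → (Option (Fin k) → ℂ) → ℂ := fun n z => ((n : ℂ) ^ N)⁻¹ * G n (toP z) with hf
  have hfQ : ∀ n : ℕ, 1 ≤ n → ∀ z ∈ tube (Q0 k), f n z = ((n : ℂ) ^ N)⁻¹ * Fcc c k n z := by
    intro n hn z hz
    simp only [hf]
    rw [(hG n hn).2 (toP z) (fun j => hz (some j)) (hz none), FB_eq_Fcc hc hn hz]
  have hinv : ∀ n : ℕ, 1 ≤ n → ∀ x : ℂ, ‖((n : ℂ) ^ N)⁻¹ * x‖ = ((n : ℝ) ^ N)⁻¹ * ‖x‖ := by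
    intro n _ x
    rw [norm_mul, norm_inv, norm_pow, norm_natCast]
  have hΩ₂o : IsOpen (O ∪ Q0 k) := hO.union (isOpen_Q0 k)
  have hUR : UReg f (O ∪ Q0 k) := by
    refine ⟨hΩ₂o, ?_, ?_⟩
    · intro m hm
      refine DifferentiableOn.const_mul ?_ _
      refine (hG m hm).1.comp differentiable_toP.differentiableOn ?_
      intro z hz
      show reP (toP z) ∈ Ω
      rw [reP_toP]
      rcases hz with hz | hz
      · exact hKΩ (hOK hz)
      · exact hQ hz
    · rintro x₀ (hx₀ | hx₀)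
      · refine ⟨O, hO.mem_nhds hx₀, |C|, N, abs_nonneg C, fun m hm z hz => ?_⟩
        have hm0 : (0 : ℝ) < (m : ℝ) ^ N := by positivity
        simp only [hf]
        rw [hinv m hm]
        have h1 := hC m hm (toP z) (by rw [reP_toP]; exact ⟨_, hOK hz, rfl⟩)
        have h2 : ‖imP (toP z)‖ ≤ ‖fun o => (z o).im‖ := by
          rw [imP_toP]; exact norm_toP_le _
        calc ((m : ℝ) ^ N)⁻¹ * ‖G m (toP z)‖ ≤ ((m : ℝ) ^ N)⁻¹ * (|C| * (m : ℝ) ^ N * (1 + ‖fun o => (z o).im‖) ^ N) := by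
              refine mul_le_mul_of_nonneg_left (h1.trans ?_) (by positivity)
              have := le_abs_self C
              gcongr
          _ = |C| * (1 + ‖fun o => (z o).im‖) ^ N := by field_simp
      · obtain ⟨U', hU', C', N', hC', hb'⟩ := hU0.bd x₀ hx₀
        refine ⟨U' ∩ Q0 k, inter_mem hU' ((isOpen_Q0 k).mem_nhds hx₀), C', N', hC', ?_⟩
        rintro m hm z ⟨hz1, hz2⟩
        rw [hfQ m hm z hz2, hinv m hm]
        have h1 : (1 : ℝ) ≤ (m : ℝ) ^ N := one_le_pow₀ (by exact_mod_cast hm)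
        calc ((m : ℝ) ^ N)⁻¹ * ‖Fcc c k m z‖ ≤ 1 * ‖Fcc c k m z‖ := by
              gcongr
              exact inv_le_one_of_one_le₀ h1
          _ = ‖Fcc c k m z‖ := one_mul _
          _ ≤ _ := hb' m hm z hz1
  have hpre2 : IsPreconnected (O ∪ Q0 k) := hOpre.union _ hyO hq (convex_Q0 k).isPreconnected
  obtain ⟨H, hHd, hHe, hHb⟩ := bochner (isOpen_lft hΩ₂o) (isPreconnected_lft hpre2)
    ⟨bp k 1, by show (7 / 4 : ℝ) < 2; norm_num, Or.inl (by
      have : pr (bp k 1) = xp (half k) 1 := by funext o; cases o <;> rfl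
      rw [this]; exact hxO)⟩ hUR.diffHS hUR.polyHS
  refine uniform_tail hc (isOpen_lft hΩ₂o).convexHull (convex_convexHull ℝ _) hHd hHb N hfQ
    (fun x hx => subset_convexHull ℝ _ ⟨hx.1, Or.inr hx.2⟩)
    (fun z hz => hHe (show z ∈ tube (lft (O ∪ Q0 k)) from ⟨hz.1, Or.inr hz.2⟩)) ?_
  apply subset_convexHull ℝ _
  refine ⟨by show (7 / 4 : ℝ) < 2; norm_num, ?_⟩
  rw [pr_sw_ins]
  exact Or.inl hxO

end Pool.Agent.MDSS
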